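import Pool.Agent.Lib.MP_3d915a_al.SCL.Comm

/-!
Module SCL-Bdl: asymptotic commutator counts of families of group elements.

`Bdl ws t`: there is `C` such that for every `N` the product of the `N`-th powers of the entries is a product of `k` commutators, `2k ≤ t N + C`.
`bdl_perm`: `List.Perm` induction is awkward for `∃ C`; instead: it is enough to swap two adjacent entries behind a prefix: prove for all prefixes `pre`: `Bdl (pre ++ g :: h :: ws) t → Bdl (pre ++ h :: g :: ws) t` (`pc_swap`, `C + 2`),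
  and then `List.Perm` induction for the statement `∀ pre t, Bdl (pre ++ ws) t → Bdl (pre ++ ws') t`.
`bdl_conj`: `(x g x⁻¹)^N = x g^N x⁻¹ = [x, g^N] g^N`: one commutator more.
`bdl_merge`: `(g h)^N = X_N g^N h^N`, `X_N` a product of at most `N/2` commutators (`pc_pow`; careful: `X_N = (g h)^N (h^N)⁻¹ (g^N)⁻¹`, so `(g h)^N = X_N * g^N * h^N`).
`bdl_split`: `g^N h^N = X_N⁻¹ (g h)^N`. `bdl_one`: `1^N = 1`. `bdl_inv`: `g^N (g⁻¹)^N = 1`. `bdl_mono`: `t N ≤ t' N`.
`bp_*`: `Bp ws t = Bdl ws (t + number of trivial entries)`.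
`bp_merge`: `Bp (g :: h :: ws) t → Bp (g h :: ws) (t+1)`. Let `τ` be the number of trivial entries of `ws`. If `g = 1`: `Bdl (g :: h :: ws) (t + 1 + [h=1] + τ)` gives (`bdl_one`) `Bdl (h :: ws) (t + 1 + [h=1] + τ)`: this is the claim.
  If `h = 1`: `bdl_perm`, the same. If `g, h ≠ 1`: `Bdl _ (t + τ)`, `bdl_merge`: `Bdl (g h :: ws) (t + 1 + τ)`, and `bdl_mono` if `g h = 1`.
`bp_split`: `Bp (g h :: ws) t → Bp (g :: h :: ws) (t+1)`. If `g h = 1`, `h = g⁻¹`: `Bdl (1 :: ws) (t + 1 + τ)`, `bdl_one`, `bdl_inv`: `Bdl (g :: g⁻¹ :: ws) (t + 1 + τ)`, `bdl_mono`.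
  If `g h ≠ 1`: `Bdl (g h :: ws) (t + τ)`; `bdl_split`: `Bdl (g :: h :: ws) (t + 1 + τ)`, `bdl_mono`.
-/

namespace Pool.Agent.Lib.MP_3d915a_al

variable {G : Type*} [Group G]

theorem bdl_mono {ws : List G} {t t' : ℤ} (h : Bdl ws t) (ht : t ≤ t') : Bdl ws t' := by
  obtain ⟨C, hC⟩ := h
  refine ⟨C, fun N => ?_⟩
  obtain ⟨k, hk, hp⟩ := hC N
  refine ⟨k, ?_, hp⟩
  have : t * N ≤ t' * N := mul_le_mul_of_nonneg_right ht (by positivity)
  linarith

private theorem bdl_swap (pre : List G) (g h : G) (ws : List G) {t : ℤ}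
    (H : Bdl (pre ++ g :: h :: ws) t) : Bdl (pre ++ h :: g :: ws) t := by
  obtain ⟨C, hC⟩ := H
  refine ⟨C + 2, fun N => ?_⟩
  obtain ⟨k, hk, hp⟩ := hC N
  refine ⟨k + 1, by push_cast; linarith, ?_⟩
  simp only [List.map_append, List.map_cons, List.prod_append, List.prod_cons] at hp ⊢
  have h1 : ProdComm k ((pre.map (· ^ N)).prod * g ^ N * h ^ N * (ws.map (· ^ N)).prod) := by
    simpa [mul_assoc] using hp
  have h2 := pc_swap (x := h ^ N) (y := g ^ N) h1
  simpa [mul_assoc] using h2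

private theorem bdl_perm' {ws ws' : List G} (hp : ws.Perm ws') :
    ∀ (pre : List G) (t : ℤ), Bdl (pre ++ ws) t → Bdl (pre ++ ws') t := by
  induction hp with
  | nil => intro pre t h; exact h
  | cons x _ ih =>
    intro pre t h
    have := ih (pre ++ [x]) t (by simpa using h)
    simpa using this
  | swap x y l =>
    intro pre t h
    exact bdl_swap pre _ _ _ h
  | trans _ _ ih1 ih2 =>
    intro pre t h
    exact ih2 pre t (ih1 pre t h)

theorem bdl_perm {ws ws' : List G} {t : ℤ} (h : Bdl ws t) (hp : ws.Perm ws') : Bdl ws' t := by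
  simpa using bdl_perm' hp [] t (by simpa using h)

theorem bdl_conj {g : G} (x : G) {ws : List G} {t : ℤ} (h : Bdl (g :: ws) t) :
    Bdl ((x * g * x⁻¹) :: ws) t := by
  obtain ⟨C, hC⟩ := h
  refine ⟨C + 2, fun N => ?_⟩
  obtain ⟨k, hk, hp⟩ := hC N
  refine ⟨1 + k, by push_cast; linarith, ?_⟩
  simp only [List.map_cons, List.prod_cons] at hp ⊢
  have h1 := pc_mul (pc_comm x (g ^ N)) hp
  rw [conj_pow]
  have e : x * g ^ N * x⁻¹ * (g ^ N)⁻¹ * (g ^ N * (ws.map (· ^ N)).prod) =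
      x * g ^ N * x⁻¹ * (ws.map (· ^ N)).prod := by group
  rwa [e] at h1

theorem bdl_merge {g h : G} {ws : List G} {t : ℤ} (H : Bdl (g :: h :: ws) t) :
    Bdl ((g * h) :: ws) (t + 1) := by
  obtain ⟨C, hC⟩ := H
  refine ⟨C, fun N => ?_⟩
  obtain ⟨k, hk, hp⟩ := hC N
  obtain ⟨l, hl, hX⟩ := pc_pow g h N
  refine ⟨l + k, ?_, ?_⟩
  · have : (2 * l : ℤ) ≤ N := by exact_mod_cast hl
    push_cast
    linarith
  · simp only [List.map_cons, List.prod_cons] at hp ⊢
    have h1 := pc_mul hX hp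
    have e : (g * h) ^ N * (h ^ N)⁻¹ * (g ^ N)⁻¹ * (g ^ N * (h ^ N * (ws.map (· ^ N)).prod)) =
        (g * h) ^ N * (ws.map (· ^ N)).prod := by
      simp only [mul_assoc, inv_mul_cancel_left]
    rwa [e] at h1

theorem bdl_split {g h : G} {ws : List G} {t : ℤ} (H : Bdl ((g * h) :: ws) t) :
    Bdl (g :: h :: ws) (t + 1) := by
  obtain ⟨C, hC⟩ := H
  refine ⟨C, fun N => ?_⟩
  obtain ⟨k, hk, hp⟩ := hC N
  obtain ⟨l, hl, hX⟩ := pc_pow g h N
  refine ⟨l + k, ?_, ?_⟩
  · have : (2 * l : ℤ) ≤ N := by exact_mod_cast hl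
    push_cast
    linarith
  · simp only [List.map_cons, List.prod_cons] at hp ⊢
    have h1 := pc_mul (pc_inv hX) hp
    have e : ((g * h) ^ N * (h ^ N)⁻¹ * (g ^ N)⁻¹)⁻¹ * ((g * h) ^ N * (ws.map (· ^ N)).prod) =
        g ^ N * (h ^ N * (ws.map (· ^ N)).prod) := by
      simp only [mul_inv_rev, inv_inv, mul_assoc, inv_mul_cancel_left]
    rwa [e] at h1

theorem bdl_one {ws : List G} {t : ℤ} : Bdl ((1 : G) :: ws) t ↔ Bdl ws t := by
  unfold Bdl
  simp only [List.map_cons, List.prod_cons, one_pow, one_mul]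

theorem bdl_inv {g : G} {ws : List G} {t : ℤ} (h : Bdl ws t) : Bdl (g :: g⁻¹ :: ws) t := by
  unfold Bdl at h ⊢
  simpa only [List.map_cons, List.prod_cons, inv_pow, mul_inv_cancel_left] using h

theorem bp_perm {ws ws' : List G} {t : ℤ} (h : Bp ws t) (hp : ws.Perm ws') : Bp ws' t := by
  classical
  unfold Bp at h ⊢
  rw [← (hp.filter _).length_eq]
  exact bdl_perm h hp

theorem bp_conj {g : G} (x : G) {ws : List G} {t : ℤ} (h : Bp (g :: ws) t) :
    Bp ((x * g * x⁻¹) :: ws) t := by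
  classical
  unfold Bp at h ⊢
  have h1 := bdl_conj x h
  refine bdl_mono h1 (le_of_eq ?_)
  by_cases hg : g = 1
  · subst hg; simp
  · have : x * g * x⁻¹ ≠ 1 := fun hh => hg (by simpa using hh)
    simp [hg]

theorem bp_merge {g h : G} {ws : List G} {t : ℤ} (H : Bp (g :: h :: ws) t) :
    Bp ((g * h) :: ws) (t + 1) := by
  classical
  unfold Bp at H ⊢
  by_cases hg : g = 1
  · subst hg
    rw [bdl_one] at H
    refine bdl_mono (by simpa using H) (le_of_eq ?_)
    simp
    ring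
  by_cases hh : h = 1
  · subst hh
    have H1 := bdl_perm H (List.Perm.swap _ _ _)
    rw [bdl_one] at H1
    refine bdl_mono (by simpa using H1) (le_of_eq ?_)
    simp [hg]
    ring
  · have H1 := bdl_merge H
    refine bdl_mono H1 ?_
    by_cases hgh : g * h = 1
    · simp [hg, hh, hgh]
      linarith
    · simp [hg, hh, hgh]

theorem bp_split {g h : G} {ws : List G} {t : ℤ} (H : Bp ((g * h) :: ws) t) :
    Bp (g :: h :: ws) (t + 1) := by
  classical
  unfold Bp at H ⊢
  by_cases hgh : g * h = 1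
  · have hh : h = g⁻¹ := by rw [eq_inv_iff_mul_eq_one]; rw [mul_eq_one_iff_eq_inv] at hgh; rw [hgh]; simp
    subst hh
    rw [hgh, bdl_one] at H
    have H1 := bdl_inv (g := g) H
    refine bdl_mono H1 ?_
    by_cases hg : g = 1
    · subst hg
      simp
      linarith
    · simp [hg]
      linarith
  · have H1 := bdl_split H
    refine bdl_mono H1 ?_
    by_cases hg : g = 1
    · by_cases hh : h = 1
      · exact absurd (by simp [hg, hh]) hgh
      · simp [hg, hh]
        linarith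
    · by_cases hh : h = 1
      · simp [hg, hh]
        linarith
      · simp [hg, hh, hgh]

end Pool.Agent.Lib.MP_3d915a_al
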