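import Pool.Agent.Lib.MP_3d915a_al.SCL.Defs

/-!
Module SCL-Comm: counting commutators.

`pc_mul`: append the lists. `pc_mono`: pad with `(1, 1)`. `pc_conj`: conjugate the entries. `pc_inv`: reverse, `([x,y])⁻¹ = [y,x]`.
`pc_insert`: `a * c * b = (a c a⁻¹) * (a b)`, `c` a commutator. `pc_swap`: `a x y b = a [x,y] y x b` with `[x,y] = x y x⁻¹ y⁻¹`.
`pc_pow`: `X_N := (g h)^N * h⁻ᴺ * g⁻ᴺ` is a product of `⌊N/2⌋` commutators: `X_0 = X_1 = 1` and
`X_(N+2) = (g h) * X_N * C * (g h)⁻¹`, `C = g^N h^N g h^(-N-1) g^(-N-1) h = g⁻¹ [g P, Q] g` with `P = g^N h^N`, `Q = g h⁻¹`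
(`C = P Q P⁻¹ g⁻¹ Q⁻¹ g`: `P Q P⁻¹ = g^N h^N g h⁻¹ h⁻ᴺ g⁻ᴺ`, and `g⁻¹ Q⁻¹ g = g⁻¹ h g⁻¹ g = g⁻¹ h`).
(Use natural powers and inverses; `group` and `pow_succ` help; `h^(-N-1) = (h^(N+1))⁻¹`, powers of `g` commute.)
`pc_of_mem`: an element of the commutator subgroup is a product of commutators (`Subgroup.closure_induction` on `commutator_def`/`Subgroup.commutator_eq_closure`…, `⁅g, h⁆ = g * h * g⁻¹ * h⁻¹`).
-/

namespace Pool.Agent.Lib.MP_3d915a_al

variable {G : Type*} [Group G]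

theorem pc_one : ProdComm 0 (1 : G) :=
  ⟨[], rfl, by simp⟩

theorem pc_mul {k l : ℕ} {g h : G} (hg : ProdComm k g) (hh : ProdComm l h) :
    ProdComm (k + l) (g * h) := by
  obtain ⟨l1, h1, h2⟩ := hg
  obtain ⟨l2, h3, h4⟩ := hh
  exact ⟨l1 ++ l2, by simp [h1, h3], by rw [List.map_append, List.prod_append, h2, h4]⟩

private theorem pc_ones (k : ℕ) : ProdComm k (1 : G) :=
  ⟨List.replicate k (1, 1), by simp, by simp⟩

theorem pc_mono {k l : ℕ} {g : G} (hg : ProdComm k g) (h : k ≤ l) : ProdComm l g := by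
  have := pc_mul hg (pc_ones (G := G) (l - k))
  rwa [mul_one, Nat.add_sub_cancel' h] at this

theorem pc_map {H : Type*} [Group H] (f : G →* H) {k : ℕ} {g : G} (hg : ProdComm k g) :
    ProdComm k (f g) := by
  obtain ⟨l, h1, h2⟩ := hg
  refine ⟨l.map (fun p => (f p.1, f p.2)), by simp [h1], ?_⟩
  rw [← h2, map_list_prod, List.map_map, List.map_map]
  congr 1
  apply List.map_congr_left
  intro p _
  simp

theorem pc_conj {k : ℕ} {g : G} (hg : ProdComm k g) (x : G) : ProdComm k (x * g * x⁻¹) := by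
  have := pc_map (MulAut.conj x).toMonoidHom hg
  simpa using this

theorem pc_comm (x y : G) : ProdComm 1 (x * y * x⁻¹ * y⁻¹) :=
  ⟨[(x, y)], rfl, by simp⟩

theorem pc_inv {k : ℕ} {g : G} (hg : ProdComm k g) : ProdComm k g⁻¹ := by
  obtain ⟨l, h1, h2⟩ := hg
  refine ⟨(l.map (fun p => (p.2, p.1))).reverse, by simp [h1], ?_⟩
  rw [← h2, List.prod_inv_reverse, List.map_map, List.map_reverse, List.map_map]
  congr 2
  apply List.map_congr_left
  intro p _
  simp [mul_assoc]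

theorem pc_insert {k l : ℕ} {a b c : G} (h : ProdComm k (a * b)) (hc : ProdComm l c) :
    ProdComm (k + l) (a * c * b) := by
  have h1 := pc_mul (pc_conj hc a) h
  rw [add_comm] at h1
  have e : a * c * a⁻¹ * (a * b) = a * c * b := by group
  rwa [e] at h1

theorem pc_swap {k : ℕ} {a x y b : G} (h : ProdComm k (a * y * x * b)) :
    ProdComm (k + 1) (a * x * y * b) := by
  have h0 : ProdComm k (a * (y * x * b)) := by simpa [mul_assoc] using h
  have h1 := pc_insert h0 (pc_comm x y)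
  have e : a * (x * y * x⁻¹ * y⁻¹) * (y * x * b) = a * x * y * b := by group
  rwa [e] at h1

private theorem pc_pow_step (g h : G) (N : ℕ) :
    (g * h) ^ (N + 2) * (h ^ (N + 2))⁻¹ * (g ^ (N + 2))⁻¹ =
      (g * h) * (((g * h) ^ N * (h ^ N)⁻¹ * (g ^ N)⁻¹) *
        (g⁻¹ * ((g * (g ^ N * h ^ N)) * (g * h⁻¹) * (g * (g ^ N * h ^ N))⁻¹ * (g * h⁻¹)⁻¹) * g)) *
        (g * h)⁻¹ := by
  have e1 : (g * h) ^ (N + 2) = (g * h) * (g * h) ^ N * (g * h) := by
    rw [pow_succ, pow_succ']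
  have e2 : h ^ (N + 2) = h * h ^ N * h := by rw [pow_succ, pow_succ']
  have e3 : g ^ (N + 2) = g * g ^ N * g := by rw [pow_succ, pow_succ']
  have c1 : g * g ^ N = g ^ N * g := (pow_succ' g N).symm.trans (pow_succ g N)
  have c2 : h * h ^ N = h ^ N * h := (pow_succ' h N).symm.trans (pow_succ h N)
  rw [e1, e2, e3]
  generalize (g * h) ^ N = Z
  generalize hA : g ^ N = A at *
  generalize hB : h ^ N = B at *
  have c1' : A * g = g * A := c1.symm
  have c2' : B * h = h * B := c2.symm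
  have c1i : A⁻¹ * g⁻¹ = g⁻¹ * A⁻¹ := by rw [← mul_inv_rev, ← mul_inv_rev, c1]
  have c2i : B⁻¹ * h⁻¹ = h⁻¹ * B⁻¹ := by rw [← mul_inv_rev, ← mul_inv_rev, c2]
  simp only [mul_inv_rev, inv_inv]
  simp only [mul_assoc]
  congr 3
  simp only [mul_inv_cancel_left, inv_mul_cancel_left]
  have d1 : ∀ X : G, B⁻¹ * (h⁻¹ * X) = h⁻¹ * (B⁻¹ * X) := fun X => by
    rw [← mul_assoc, c2i, mul_assoc]
  rw [d1, c1i, ← mul_assoc A⁻¹ g⁻¹ g⁻¹, c1i, mul_assoc g⁻¹ A⁻¹ g⁻¹, c1i]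

theorem pc_pow (g h : G) (N : ℕ) :
    ∃ k : ℕ, 2 * k ≤ N ∧ ProdComm k ((g * h) ^ N * (h ^ N)⁻¹ * (g ^ N)⁻¹) := by
  induction N using Nat.strong_induction_on with
  | _ N ih =>
    match N with
    | 0 => exact ⟨0, by simp, by simpa using pc_one⟩
    | 1 => exact ⟨0, by simp, by simpa using pc_one⟩
    | N + 2 =>
      obtain ⟨k, hk, hpc⟩ := ih N (by omega)
      refine ⟨k + 1, by omega, ?_⟩
      rw [pc_pow_step]
      apply pc_conj
      apply pc_mul hpc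
      have := pc_conj (pc_comm (g * (g ^ N * h ^ N)) (g * h⁻¹)) g⁻¹
      rwa [inv_inv] at this

theorem pc_of_mem {g : G} (hg : g ∈ commutator G) : ∃ k : ℕ, ProdComm k g := by
  rw [commutator_eq_closure] at hg
  induction hg using Subgroup.closure_induction with
  | mem x hx =>
    obtain ⟨a, b, rfl⟩ := hx
    exact ⟨1, pc_comm a b⟩
  | one => exact ⟨0, pc_one⟩
  | mul x y _ _ hx hy =>
    obtain ⟨k, hk⟩ := hx
    obtain ⟨l, hl⟩ := hy
    exact ⟨_, pc_mul hk hl⟩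
  | inv x _ hx =>
    obtain ⟨k, hk⟩ := hx
    exact ⟨k, pc_inv hk⟩

theorem mem_of_pc {k : ℕ} {g : G} (hg : ProdComm k g) : g ∈ commutator G := by
  obtain ⟨l, -, rfl⟩ := hg
  apply list_prod_mem
  intro x hx
  rw [List.mem_map] at hx
  obtain ⟨p, -, rfl⟩ := hx
  exact Subgroup.commutator_mem_commutator (Subgroup.mem_top _) (Subgroup.mem_top _)

end Pool.Agent.Lib.MP_3d915a_al
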