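import Pool.Agent.Lib.MP_3d915a_al.SCL.Defs

/-!
Module SCL-Dickson: Dickson's lemma along an ultrafilter.
-/

namespace Pool.Agent.Lib.MP_3d915a_al

open Filter

theorem dickson {ι : Type*} [Finite ι] (U : Ultrafilter ℕ) (C : ℕ → Set (ι → ℕ)) :
    ∃ F : Finset (ι → ℕ), (∀ D ∈ F, ∀ᶠ k in (U : Filter ℕ), D ∈ C k) ∧
      ∀ M : ℕ, ∀ᶠ k in (U : Filter ℕ), ∀ D ∈ C k, (∀ i, D i ≤ M) → ∃ D' ∈ F, D' ≤ D := by
  classical
  obtain ⟨I, hI⟩ : ∃ I : Set (ι → ℕ), I = {D | ∀ᶠ k in (U : Filter ℕ), D ∈ C k} := ⟨_, rfl⟩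
  obtain ⟨A, hA⟩ : ∃ A : Set (ι → ℕ), A = {D | Minimal (· ∈ I) D} := ⟨_, rfl⟩
  have hanti : IsAntichain (· ≤ ·) A := by
    intro x hx y hy hxy hle
    rw [hA] at hx hy
    exact hxy (hy.eq_of_le hx.1 hle)
  have hfin : A.Finite := WellQuasiOrderedLE.finite_of_isAntichain hanti
  have habove : ∀ D ∈ I, ∃ D' ∈ A, D' ≤ D := by
    intro D
    induction D using WellFoundedLT.induction with
    | ind D ih =>
      intro hD
      by_cases hm : Minimal (· ∈ I) D
      · exact ⟨D, by rw [hA]; exact hm, le_rfl⟩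
      · rw [minimal_iff_forall_lt] at hm
        push Not at hm
        obtain ⟨y, hy1, hy2⟩ := hm hD
        obtain ⟨D', h1, h2⟩ := ih y hy1 hy2
        exact ⟨D', h1, h2.trans hy1.le⟩
  refine ⟨hfin.toFinset, ?_, ?_⟩
  · intro D hD
    rw [Set.Finite.mem_toFinset, hA] at hD
    have := hD.1
    rw [hI] at this
    exact this
  · intro M
    have hB : {D : ι → ℕ | ∀ i, D i ≤ M}.Finite :=
      Set.Finite.pi' (t := fun _ => Set.Iic M) (fun _ => Set.finite_Iic M)
    have h1 : ∀ D ∈ {D : ι → ℕ | ∀ i, D i ≤ M}, ∀ᶠ k in (U : Filter ℕ), D ∈ C k → D ∈ I := by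
      intro D _
      by_cases hD : D ∈ I
      · exact Filter.Eventually.of_forall fun _ _ => hD
      · have h2 : ¬ ∀ᶠ k in (U : Filter ℕ), D ∈ C k := by
          rw [hI] at hD
          exact hD
        rw [← Ultrafilter.eventually_not] at h2
        exact h2.mono fun k hk hk' => absurd hk' hk
    have h2 := (Filter.eventually_all_finite hB).2 h1
    refine h2.mono fun k hk D hD hDM => ?_
    obtain ⟨D', h3, h4⟩ := habove D (hk D hDM hD)
    exact ⟨D', hfin.mem_toFinset.2 h3, h4⟩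

theorem sum_cnt {L : ℕ} [NeZero L] (l : List (ZMod L)) : ∑ i, ∑ j, cnt l i j = l.length := by
  classical
  have key : ∀ (v : List (ZMod L × ZMod L)) (a : ZMod L × ZMod L),
      @List.count _ instBEqProd a v = @List.count _ instBEqOfDecidableEq a v := by
    intro v a
    unfold List.count
    apply List.countP_congr
    intro x _
    simp
  unfold cnt
  rw [← Finset.sum_product' (s := Finset.univ) (t := Finset.univ)
    (f := fun i j => (l.zip (l.rotate 1)).count (i, j))]
  have h := Multiset.toFinset_sum_count_eq (l.zip (l.rotate 1) : Multiset (ZMod L × ZMod L))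
  have h2 : ∑ a ∈ (Finset.univ : Finset (ZMod L)) ×ˢ (Finset.univ : Finset (ZMod L)),
      (l.zip (l.rotate 1)).count (a.1, a.2) =
      ∑ a ∈ (l.zip (l.rotate 1) : Multiset (ZMod L × ZMod L)).toFinset,
        Multiset.count a (l.zip (l.rotate 1) : Multiset (ZMod L × ZMod L)) := by
    symm
    have h3 : ∀ a ∈ (Finset.univ : Finset (ZMod L)) ×ˢ (Finset.univ : Finset (ZMod L)),
        (l.zip (l.rotate 1)).count (a.1, a.2) =
          Multiset.count a (l.zip (l.rotate 1) : Multiset (ZMod L × ZMod L)) := by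
      intro a _
      rw [Multiset.coe_count]
      exact key _ a
    rw [Finset.sum_congr rfl h3]
    refine Finset.sum_subset (fun a _ => Finset.mem_product.2 ⟨Finset.mem_univ _, Finset.mem_univ _⟩)
      ?_
    intro a _ ha
    rw [Multiset.mem_toFinset] at ha
    exact Multiset.count_eq_zero_of_notMem ha
  rw [h2, h]
  simp

private theorem tr_aux {L M : ℕ} [NeZero L] (m m' : ZMod L → ℤ)
    (FA : Finset (ZMod L × ZMod L → ℕ))
    (hA : ∀ D ∈ FA, ∃ l, Walk m' l ∧ (fun q : ZMod L × ZMod L => cnt l q.1 q.2) = D)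
    (kA : ∀ l, Walk m l → l.length ≤ M →
      ∃ D ∈ FA, D ≤ fun q : ZMod L × ZMod L => cnt l q.1 q.2)
    (DA : List (List (ZMod L))) (hW : ∀ l ∈ DA, Walk m l) :
    ∃ DA' : List (List (ZMod L)), (∀ l ∈ DA', Walk m' l) ∧
      (∀ i j, (DA'.map (fun l => cnt l i j)).sum ≤ (DA.map (fun l => cnt l i j)).sum) ∧
      DA.length * (M + 1) ≤ DA'.length * (M + 1) +
        ∑ i, ∑ j, (DA.map (fun l => cnt l i j)).sum := by
  induction DA with
  | nil => exact ⟨[], by simp, by simp, by simp⟩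
  | cons l DA ih =>
    obtain ⟨DA', h1, h2, h3⟩ := ih (fun x hx => hW x (List.mem_cons_of_mem _ hx))
    have hsum : ∑ i, ∑ j, ((l :: DA).map (fun l => cnt l i j)).sum =
        l.length + ∑ i, ∑ j, (DA.map (fun l => cnt l i j)).sum := by
      simp only [List.map_cons, List.sum_cons, Finset.sum_add_distrib]
      rw [sum_cnt]
    by_cases hl : l.length ≤ M
    · obtain ⟨D, hD, hle⟩ := kA l (hW l List.mem_cons_self) hl
      obtain ⟨l', hl', hD'⟩ := hA D hD
      refine ⟨l' :: DA', ?_, ?_, ?_⟩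
      · intro x hx
        rcases List.mem_cons.1 hx with rfl | hx
        · exact hl'
        · exact h1 x hx
      · intro i j
        have h4 : cnt l' i j ≤ cnt l i j := by
          have h5 := hle (i, j)
          rw [← hD'] at h5
          exact h5
        simp only [List.map_cons, List.sum_cons]
        exact Nat.add_le_add h4 (h2 i j)
      · rw [hsum, List.length_cons, List.length_cons]
        nlinarith
    · refine ⟨DA', h1, ?_, ?_⟩
      · intro i j
        simp only [List.map_cons, List.sum_cons]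
        exact (h2 i j).trans (Nat.le_add_left _ _)
      · rw [hsum, List.length_cons]
        have h6 : M + 1 ≤ l.length := by omega
        nlinarith

theorem transfer {L n M : ℕ} [NeZero L] (m p m' p' : ZMod L → ℤ)
    (FA FB : Finset (ZMod L × ZMod L → ℕ))
    (hA : ∀ D ∈ FA, ∃ l, Walk m' l ∧ (fun q : ZMod L × ZMod L => cnt l q.1 q.2) = D)
    (hB : ∀ D ∈ FB, ∃ l, Walk p' l ∧ (fun q : ZMod L × ZMod L => cnt l q.1 q.2) = D)
    (kA : ∀ l, Walk m l → l.length ≤ M →
      ∃ D ∈ FA, D ≤ fun q : ZMod L × ZMod L => cnt l q.1 q.2)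
    (kB : ∀ l, Walk p l → l.length ≤ M →
      ∃ D ∈ FB, D ≤ fun q : ZMod L × ZMod L => cnt l q.1 q.2)
    (z : ℕ) (h : Sol L n m p z) :
    ∃ z', Sol L n m' p' z' ∧ z * (M + 1) ≤ z' * (M + 1) + 2 * (n * L) := by
  obtain ⟨Y, DA, DB, hr, hc, hWA, hWB, hYA, hYB, hz⟩ := h
  obtain ⟨DA', a1, a2, a3⟩ := tr_aux m m' FA hA kA DA hWA
  obtain ⟨DB', b1, b2, b3⟩ := tr_aux p p' FB hB kB DB hWB
  refine ⟨DA'.length + DB'.length, ⟨Y, DA', DB', hr, hc, a1, b1,
    fun i j => (a2 i j).trans (hYA i j), fun k i => (b2 k i).trans (hYB k i), rfl⟩, ?_⟩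
  have e1 : ∑ i, ∑ j, (DA.map (fun l => cnt l i j)).sum ≤ n * L := by
    calc ∑ i, ∑ j, (DA.map (fun l => cnt l i j)).sum ≤ ∑ i, ∑ j, Y i j :=
          Finset.sum_le_sum fun i _ => Finset.sum_le_sum fun j _ => hYA i j
      _ = n * L := by
          rw [Finset.sum_congr rfl fun i _ => hr i, Finset.sum_const, Finset.card_univ, ZMod.card,
            smul_eq_mul, mul_comm]
  have e2 : ∑ k, ∑ i, (DB.map (fun l => cnt l k i)).sum ≤ n * L := by
    calc ∑ k, ∑ i, (DB.map (fun l => cnt l k i)).sum ≤ ∑ k, ∑ i, Y i (k + 1) :=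
          Finset.sum_le_sum fun i _ => Finset.sum_le_sum fun j _ => hYB i j
      _ = ∑ k, ∑ i, Y i k := by
          exact Fintype.sum_equiv (Equiv.addRight (1 : ZMod L)) _ _ (fun k => rfl)
      _ = n * L := by
          rw [Finset.sum_congr rfl fun k _ => hc k, Finset.sum_const, Finset.card_univ, ZMod.card,
            smul_eq_mul, mul_comm]
  rw [← hz]
  nlinarith

end Pool.Agent.Lib.MP_3d915a_al
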