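import Pool.Agent.Lib.MP_3d915a_al.SCL.Words

/-!
Module SCL-Extract: from a surface for `W^n` to a solution.

`GS [u] t` with `u` = `n` copies of `wd L m p` gives: one list `l` of names (`ls = [l]`), `l.Nodup`, `l.length = n L =: K`, labels `M, P : ℕ → ℤ` with `(M l[q], P l[q]) = (m q, p q)` (`q mod L`), `0` outside `U = l.toFinset`,
and `St (formPerm l) M P s`, `s ≤ t + K`. `st_iso_all`: `πA πB = c = formPerm l`, both fix every point outside `U`, ranks `sA + sB ≤ s`. Residue `res x := (l.idxOf x : ZMod L)`: for `x ∈ U`: `M x = m (res x)`, `P x = p (res x)`,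
`res (c x) = res x + 1` (`formPerm_apply_getElem`: index `q ↦ (q+1) mod nL`, and `L ∣ n L`), and every residue occurs exactly `n` times in `U`.
`Y i j := #{x ∈ U | res x = i ∧ res (πA x) = j}` (`πA` maps `U` to `U`): row sums and column sums `n` (for the columns: `x ↦ πA x` is a bijection of `U`).
`#{y ∈ U | res y = k ∧ res (πB y) = i} = Y i (k+1)`: the bijection `y ↦ x = πB y` of `U`: `πA x = c y`, `res (πA x) = res y + 1`.
`rk_cycA`: `R_A ⊆ U`, one point in some zero sum cycles of `πA`; `DA` = the lists (for `x ∈ R_A.toList`) `walk x := (List.range (minimalPeriod πA x)).map (fun i => res ((πA ^ i) x))`: it is a `Walk m` (the sum is the sum of `M`),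
`cnt (walk x) i j = #{y in the πA-cycle of x | res y = i ∧ res (πA y) = j}` (private lemma `cnt_walk`: for a point `x` of minimal period `k > 0` the list `l = (range k).map (f ∘ (π^·) x)`: `l.zip (l.rotate 1)` is the map of
`i ↦ (f (π^i x), f (π^(i+1) x))` over `range k`). Different points of `R_A` are in different cycles, so the sum of the counts is at most `Y i j`. The same for `DB` (`πB`, `P`).
`z = #R_A + #R_B ≥ (K - sA) + (K - sB) ≥ 2K - s ≥ K - t`.
-/

namespace Pool.Agent.Lib.MP_3d915a_al

open Equiv List Function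

private theorem flat_eq (L : ℕ) (m p : ZMod L → ℤ) (n : ℕ) :
    (List.replicate n (wd L m p)).flatten =
      (List.range (n * L)).map (fun q : ℕ => (m (q : ZMod L), p (q : ZMod L))) := by
  induction n with
  | zero => simp
  | succ n ih =>
    rw [List.replicate_succ', List.flatten_append, ih, add_mul, one_mul, List.range_add,
      List.map_append, List.map_map]
    congr 1
    simp only [List.flatten_cons, List.flatten_nil, List.append_nil, wd]
    apply List.map_congr_left
    intro q _
    simp

private theorem card_pi (π : Perm ℕ) (U : Finset ℕ) (hU : ∀ x, x ∉ U → π x = x) (f : ℕ → Prop)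
    [DecidablePred f] : (U.filter (fun x => f (π x))).card = (U.filter f).card := by
  have hmem : ∀ x, π x ∈ U ↔ x ∈ U := by
    intro x
    constructor
    · intro h
      by_contra hx
      exact hx (hU x hx ▸ h)
    · intro h
      by_contra hx
      have := π.injective (hU _ hx)
      exact hx (this.symm ▸ h)
  apply Finset.card_bij (fun x _ => π x)
  · intro x hx
    rw [Finset.mem_filter] at hx ⊢
    exact ⟨(hmem x).2 hx.1, hx.2⟩
  · intro x _ y _ h
    exact π.injective h
  · intro y hy
    rw [Finset.mem_filter] at hy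
    refine ⟨π.symm y, ?_, π.apply_symm_apply y⟩
    rw [Finset.mem_filter, π.apply_symm_apply]
    refine ⟨?_, hy.2⟩
    rw [← hmem, π.apply_symm_apply]
    exact hy.1

private theorem pow_mem' (π : Perm ℕ) (U : Finset ℕ) (hU : ∀ x, x ∉ U → π x = x) {x : ℕ}
    (hx : x ∈ U) (i : ℕ) : (π ^ i) x ∈ U := by
  induction i with
  | zero => simpa using hx
  | succ i ih =>
    rw [pow_succ', Perm.mul_apply]
    by_contra h
    have := π.injective (hU _ h)
    exact h (this.symm ▸ ih)

private theorem period_pos (π : Perm ℕ) (U : Finset ℕ) (hU : ∀ x, x ∉ U → π x = x) {x : ℕ}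
    (hx : x ∈ U) : 0 < minimalPeriod π x := by
  rw [minimalPeriod_pos_iff_mem_periodicPts]
  obtain ⟨i, j, hij, he⟩ := Finite.exists_ne_map_eq_of_infinite
    (fun i : ℕ => (⟨(π ^ i) x, pow_mem' π U hU hx i⟩ : U))
  have he' : (π ^ i) x = (π ^ j) x := by simpa using he
  have key : ∀ a b : ℕ, a < b → (π ^ a) x = (π ^ b) x → x ∈ periodicPts π := by
    intro a b hab h
    refine ⟨b - a, by omega, ?_⟩
    have h1 : (π ^ a) ((π ^ (b - a)) x) = (π ^ a) x := by
      rw [← Perm.mul_apply, ← pow_add, Nat.add_sub_cancel' hab.le, h]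
    have h2 := (π ^ a).injective h1
    rw [IsPeriodicPt, IsFixedPt, Equiv.Perm.iterate_eq_pow]
    exact h2
  rcases lt_or_gt_of_ne hij with h | h
  · exact key i j h he'
  · exact key j i h he'.symm

private theorem cnt_walk {L : ℕ} (π : Perm ℕ) (res : ℕ → ZMod L) (x : ℕ)
    (hk : 0 < minimalPeriod π x) (i j : ZMod L) :
    cnt ((List.range (minimalPeriod π x)).map (fun q => res ((π ^ q) x))) i j =
      ((Finset.range (minimalPeriod π x)).filter
        (fun q => res ((π ^ q) x) = i ∧ res (π ((π ^ q) x)) = j)).card := by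
  set k := minimalPeriod π x with hkdef
  have hz : ((List.range k).map (fun q => res ((π ^ q) x))).zip
      (((List.range k).map (fun q => res ((π ^ q) x))).rotate 1) =
      (List.range k).map (fun q => (res ((π ^ q) x), res (π ((π ^ q) x)))) := by
    apply List.ext_getElem
    · simp
    · intro q h1 h2
      have hq : q < k := by simpa using h2
      rw [List.getElem_zip, List.getElem_rotate]
      simp only [List.getElem_map, List.getElem_range, List.length_map, List.length_range]
      congr 2
      rw [← Perm.mul_apply, ← pow_succ', ← Equiv.Perm.iterate_eq_pow, ← Equiv.Perm.iterate_eq_pow,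
        hkdef, iterate_mod_minimalPeriod_eq]
  rw [cnt, hz, List.count, List.countP_map, List.countP_eq_length_filter, Finset.card_def,
    Finset.filter_val, Finset.range_val, Multiset.range, Multiset.filter_coe, Multiset.coe_card]
  congr 1
  apply List.filter_congr
  intro q _
  rw [Bool.eq_iff_iff, Function.comp_apply, beq_iff_eq, decide_eq_true_eq, Prod.mk.injEq]

private theorem discs {L : ℕ} (π : Perm ℕ) (U : Finset ℕ) (hU : ∀ x, x ∉ U → π x = x)
    (res : ℕ → ZMod L) (μ : ZMod L → ℤ) (M : ℕ → ℤ) (hM : ∀ x ∈ U, M x = μ (res x))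
    (R : Finset ℕ) (hR : R ⊆ U)
    (hz : ∀ x ∈ R, ∑ i ∈ Finset.range (minimalPeriod π x), M ((π ^ i) x) = 0)
    (hc : ∀ x ∈ R, ∀ y ∈ R, π.SameCycle x y → x = y) :
    ∃ D : List (List (ZMod L)), D.length = R.card ∧ (∀ l ∈ D, Walk μ l) ∧
      ∀ i j, (D.map (fun l => cnt l i j)).sum ≤
        (U.filter (fun x => res x = i ∧ res (π x) = j)).card := by
  refine ⟨R.toList.map (fun x => (List.range (minimalPeriod π x)).map
    (fun q => res ((π ^ q) x))), by simp, ?_, ?_⟩
  · intro l hl
    rw [List.mem_map] at hl
    obtain ⟨x, hx, rfl⟩ := hl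
    rw [Finset.mem_toList] at hx
    have hp := period_pos π U hU (hR hx)
    refine ⟨?_, ?_⟩
    · intro h
      have := congrArg List.length h
      simp at this
      omega
    · rw [List.map_map, ← hz x hx, ← List.toFinset_range, List.sum_toFinset _ List.nodup_range]
      congr 1
      apply List.map_congr_left
      intro q _
      rw [Function.comp_apply, hM _ (pow_mem' π U hU (hR hx) q)]
  · intro i j
    rw [List.map_map]
    have h1 : (R.toList.map ((fun l => cnt l i j) ∘ fun x =>
        (List.range (minimalPeriod π x)).map (fun q => res ((π ^ q) x)))).sum =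
        ∑ x ∈ R, ((Finset.range (minimalPeriod π x)).filter
        (fun q => res ((π ^ q) x) = i ∧ res (π ((π ^ q) x)) = j)).card := by
      rw [Finset.sum_map_toList]
      apply Finset.sum_congr rfl
      intro x hx
      rw [Function.comp_apply, cnt_walk π res x (period_pos π U hU (hR hx))]
    rw [h1, ← Finset.card_sigma]
    apply Finset.card_le_card_of_injOn (fun a => (π ^ a.2) a.1)
    · rintro ⟨x, q⟩ ha
      rw [Finset.mem_coe, Finset.mem_sigma, Finset.mem_filter] at ha
      rw [Finset.mem_coe, Finset.mem_filter]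
      exact ⟨pow_mem' π U hU (hR ha.1) q, ha.2.2⟩
    · rintro ⟨x, q⟩ ha ⟨y, r⟩ hb he
      rw [Finset.mem_coe, Finset.mem_sigma, Finset.mem_filter, Finset.mem_range] at ha hb
      simp only at ha hb he
      have hxy : x = y := by
        apply hc x ha.1 y hb.1
        refine ⟨(-(r : ℤ)) + (q : ℤ), ?_⟩
        rw [zpow_add, Perm.mul_apply, zpow_natCast, he, zpow_neg, zpow_natCast]
        exact (π ^ r).symm_apply_apply y
      subst hxy
      have hqr : q = r := by
        apply iterate_injOn_Iio_minimalPeriod (f := π) (x := x) ha.2.1 hb.2.1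
        simp only [Equiv.Perm.iterate_eq_pow]
        exact he
      subst hqr
      rfl

theorem ev_replicate (L : ℕ) (m p : ZMod L → ℤ) (n : ℕ) :
    ev (List.replicate n (wd L m p)).flatten = ev (wd L m p) ^ n := by
  induction n with
  | zero => simp [ev]
  | succ n ih =>
    rw [List.replicate_succ', List.flatten_append, pow_succ, ← ih]
    simp [ev]

theorem extract {L n : ℕ} [NeZero L] (hn : 1 ≤ n) (m p : ZMod L → ℤ) (t : ℤ)
    (h : GS [(List.replicate n (wd L m p)).flatten] t) :
    ∃ z : ℕ, Sol L n m p z ∧ (n * L : ℤ) - t ≤ z := by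
  obtain ⟨s, ⟨ls, M, P, hrep, hst⟩, hs⟩ := h
  obtain ⟨hnd, hlab, hout⟩ := hrep
  rw [List.map_eq_singleton_iff] at hlab
  obtain ⟨l, rfl, hl⟩ := hlab
  simp only [List.flatten_cons, List.flatten_nil, List.append_nil, List.map_cons, List.map_nil,
    List.prod_cons, List.prod_nil, mul_one] at hnd hout hst hs
  rw [flat_eq] at hl
  have hlen : l.length = n * L := by
    have := congrArg List.length hl
    simpa using this
  rw [flat_eq, List.length_map, List.length_range] at hs
  have hL : 0 < L := Nat.pos_of_ne_zero (NeZero.ne L)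
  have hK : 0 < n * L := Nat.mul_pos hn hL
  set U : Finset ℕ := l.toFinset with hU
  have hUcard : U.card = n * L := by rw [hU, List.toFinset_card_of_nodup hnd, hlen]
  have hUmem : ∀ x, x ∈ U ↔ x ∈ l := by intro x; rw [hU, List.mem_toFinset]
  set c : Perm ℕ := l.formPerm with hcdef
  have hcU : ∀ x, x ∉ U → c x = x ∧ M x = 0 ∧ P x = 0 := by
    intro x hx
    rw [hUmem] at hx
    exact ⟨List.formPerm_apply_of_notMem hx, hout x hx⟩
  obtain ⟨πA, πB, sA, sB, hA, hB, hAB, hrA, hrB, hsum⟩ := st_iso_all U hcU hst
  set res : ℕ → ZMod L := fun x => ((l.idxOf x : ℕ) : ZMod L) with hres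
  have hresget : ∀ (q : ℕ) (hq : q < l.length), res l[q] = (q : ZMod L) := by
    intro q hq
    rw [hres]
    simp only
    rw [hnd.idxOf_getElem]
  have hMP : ∀ x ∈ U, M x = m (res x) ∧ P x = p (res x) := by
    intro x hx
    rw [hUmem] at hx
    obtain ⟨q, hq, rfl⟩ := List.getElem_of_mem hx
    rw [hresget]
    have h1 : (l.map (fun x => (M x, P x)))[q]'(by simpa using hq) = (m (q : ZMod L), p (q : ZMod L)) := by
      have h2 : ∀ (l1 l2 : List (ℤ × ℤ)) (h : l1 = l2) (hq1 : q < l1.length),
          l1[q] = l2[q]'(h ▸ hq1) := by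
        intro l1 l2 h hq1
        subst h
        rfl
      rw [h2 _ _ hl]
      simp
    rw [List.getElem_map] at h1
    exact ⟨congrArg Prod.fst h1, congrArg Prod.snd h1⟩
  have hresc : ∀ x ∈ U, res (c x) = res x + 1 := by
    intro x hx
    rw [hUmem] at hx
    obtain ⟨q, hq, rfl⟩ := List.getElem_of_mem hx
    rw [hcdef, List.formPerm_apply_getElem l hnd q hq, hresget, hresget, hlen]
    have h1 : ((q + 1) % (n * L)) % L = (q + 1) % L := Nat.mod_mod_of_dvd _ (Dvd.intro_left n rfl)
    have h2 : (((q + 1) % (n * L) : ℕ) : ZMod L) = ((q + 1 : ℕ) : ZMod L) := by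
      rw [ZMod.natCast_eq_natCast_iff]
      exact h1
    rw [h2]
    push_cast
    rfl
  have hcU' : ∀ x, x ∉ U → c x = x := fun x hx => (hcU x hx).1
  -- every residue occurs exactly `n` times
  have hstep : ∀ i : ZMod L, (U.filter (fun x => res x = i)).card =
      (U.filter (fun x => res x = i + 1)).card := by
    intro i
    rw [← card_pi c U hcU' (fun x => res x = i + 1)]
    congr 1
    apply Finset.filter_congr
    intro x hx
    rw [hresc x hx]
    exact ⟨fun h => by rw [h], fun h => add_right_cancel h⟩
  have hall : ∀ i : ZMod L, (U.filter (fun x => res x = i)).card =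
      (U.filter (fun x => res x = 0)).card := by
    intro i
    have hnat : ∀ q : ℕ, (U.filter (fun x => res x = (q : ZMod L))).card =
        (U.filter (fun x => res x = 0)).card := by
      intro q
      induction q with
      | zero => simp
      | succ q ih =>
        rw [← ih, hstep (q : ZMod L)]
        push_cast
        rfl
    rw [← ZMod.natCast_zmod_val i]
    exact hnat _
  have hres_n : ∀ i : ZMod L, (U.filter (fun x => res x = i)).card = n := by
    intro i
    rw [hall]
    have h1 := Finset.card_eq_sum_card_fiberwise (s := U) (t := (Finset.univ : Finset (ZMod L)))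
      (f := res) (fun x _ => by simp)
    rw [hUcard, Finset.sum_congr rfl (fun i _ => hall i), Finset.sum_const, Finset.card_univ,
      ZMod.card, smul_eq_mul, mul_comm n L] at h1
    exact (Nat.eq_of_mul_eq_mul_left hL h1).symm
  obtain ⟨RA, hRA, hzA, hcA, hcardA⟩ := rk_cycA U hA hrA
  obtain ⟨RB, hRB, hzB, hcB, hcardB⟩ := rk_cycB U hB hrB
  obtain ⟨DA, hDA1, hDA2, hDA3⟩ := discs πA U hA res m M (fun x hx => (hMP x hx).1) RA hRA hzA hcA
  obtain ⟨DB, hDB1, hDB2, hDB3⟩ := discs πB U hB res p P (fun x hx => (hMP x hx).2) RB hRB hzB hcB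
  refine ⟨DA.length + DB.length, ⟨fun i j => (U.filter
    (fun x => res x = i ∧ res (πA x) = j)).card, DA, DB, ?_, ?_, hDA2, hDB2, hDA3, ?_, rfl⟩, ?_⟩
  · intro i
    rw [← hres_n i, Finset.card_eq_sum_card_fiberwise
      (s := U.filter (fun x => res x = i)) (t := (Finset.univ : Finset (ZMod L)))
      (f := fun x => res (πA x)) (fun x _ => by simp)]
    apply Finset.sum_congr rfl
    intro j _
    rw [Finset.filter_filter]
  · intro j
    rw [← hres_n j, ← card_pi πA U hA (fun x => res x = j), Finset.card_eq_sum_card_fiberwise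
      (s := U.filter (fun x => res (πA x) = j)) (t := (Finset.univ : Finset (ZMod L)))
      (f := res) (fun x _ => by simp)]
    apply Finset.sum_congr rfl
    intro i _
    rw [Finset.filter_filter]
    simp only
    congr 1
    apply Finset.filter_congr
    intro x _
    exact and_comm
  · intro k i
    refine (hDB3 k i).trans (le_of_eq ?_)
    simp only
    rw [← card_pi πB U hB (fun x => res x = i ∧ res (πA x) = k + 1)]
    congr 1
    apply Finset.filter_congr
    intro x hx
    have h1 : πA (πB x) = c x := by rw [← hAB, Perm.mul_apply]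
    rw [h1, hresc x hx]
    exact ⟨fun h => ⟨h.2, by rw [h.1]⟩, fun h => ⟨add_right_cancel h.2, h.1⟩⟩
  · rw [hUcard] at hcardA hcardB
    rw [hDA1, hDB1]
    push_cast
    have h1 : ((n * L : ℕ) : ℤ) ≤ (sA : ℤ) + RA.card := by exact_mod_cast hcardA
    have h2 : ((n * L : ℕ) : ℤ) ≤ (sB : ℤ) + RB.card := by exact_mod_cast hcardB
    have h3 : (sA : ℤ) + sB ≤ s := by exact_mod_cast hsum
    push_cast at h1 h2 hs
    linarith

end Pool.Agent.Lib.MP_3d915a_al
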