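import Pool.Agent.Lib.MP_3d915a_al.SCL.QSwap

/-!
Module SCL-Glue: gluing the polygons.

`XA`, `XB` finite types (corners of the A-polygons and of the B-polygons), `X = XA ⊕ XB`.
`start`: `P = Perm.sumCongr PA PB`, `g (inl x) = a^(m (rA x))`, `g (inr y) = b^(p (rB y))`. `ls = lA.map (map inl) ++ lB.map (map inr)`, `Cyc ls P` (nodup, covering, non-empty are clear; the product: `(l.map inl).formPerm = sumCongr l.formPerm 1`:
  induction with `formPerm_cons_cons`, `Equiv.Perm.sumCongr_swap_one`-type lemma, or check on points). Words: `a^(sum)`, `b^(sum)` (`zpow_add`, `List.prod_map…`). `Bdl words 0`: the product of the `N`-th powers is `a^(N ∑m) b^(N ∑p) = 1`, because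
  `∑_{x ∈ XA} m (rA x) = ∑_i m i #{x | rA x = i} = n ∑ m = 0` (`hcA`), and the sum over `XA` is the sum over the lists of `lA` (`Cyc`: `lA.flatten` is a permutation of `univ.toList`). Trivial words: at least `zA + zB` (list sum zero gives `a^0 = 1`).
  So `Bp words (-(zA+zB))` by `bdl_mono`.
`glue`: `τ` = the involution `inl x ↔ inr (Θ x)`. Induction over a list `l` of distinct elements of `XA`: `Qp (P * ∏_{x ∈ l} swap (inl x) (inr (Θ x))) g (t + l.length)` (`qp_swap`); for `l = Finset.univ.toList` the product is `τ` (check on points: the swaps are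
  disjoint; e.g. prove for every nodup list `l`: the product maps `inl x ↦ inr (Θ x)` if `x ∈ l`, else fixes it; `inr y ↦ inl (Θ.symm y)` if `Θ.symm y ∈ l`).
-/

namespace Pool.Agent.Lib.MP_3d915a_al

open Equiv List

/-- the gluing involution -/
def glueInv {XA XB : Type*} (Θ : XA ≃ XB) : Perm (XA ⊕ XB) where
  toFun := Sum.elim (fun x => Sum.inr (Θ x)) (fun y => Sum.inl (Θ.symm y))
  invFun := Sum.elim (fun x => Sum.inr (Θ x)) (fun y => Sum.inl (Θ.symm y))
  left_inv := by rintro (x | y) <;> simp
  right_inv := by rintro (x | y) <;> simp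

/-- the labels -/
def gLab {L : ℕ} {XA XB : Type*} (m p : ZMod L → ℤ) (rA : XA → ZMod L) (rB : XB → ZMod L) :
    XA ⊕ XB → F2 :=
  Sum.elim (fun x => FreeGroup.of 0 ^ m (rA x)) (fun y => FreeGroup.of 1 ^ p (rB y))

/-! ### the list of cycles of `sumCongr` -/

private theorem fp_inl {XA XB : Type*} [DecidableEq XA] [DecidableEq XB] (l : List XA) :
    (l.map (Sum.inl : XA → XA ⊕ XB)).formPerm = Perm.sumCongr l.formPerm 1 := by
  induction l with
  | nil => simp [Perm.sumCongr_one]
  | cons x l ih =>
    cases l with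
    | nil => simp [Perm.sumCongr_one]
    | cons y l =>
      rw [List.map_cons, List.map_cons, List.formPerm_cons_cons, ← List.map_cons, ih, List.formPerm_cons_cons,
        ← Perm.sumCongr_swap_one, Perm.sumCongr_mul, mul_one]

private theorem fp_inr {XA XB : Type*} [DecidableEq XA] [DecidableEq XB] (l : List XB) :
    (l.map (Sum.inr : XB → XA ⊕ XB)).formPerm = Perm.sumCongr 1 l.formPerm := by
  induction l with
  | nil => simp [Perm.sumCongr_one]
  | cons x l ih =>
    cases l with
    | nil => simp [Perm.sumCongr_one]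
    | cons y l =>
      rw [List.map_cons, List.map_cons, List.formPerm_cons_cons, ← List.map_cons, ih, List.formPerm_cons_cons,
        ← Perm.sumCongr_one_swap, Perm.sumCongr_mul, mul_one]

private theorem fps_inl {XA XB : Type*} [DecidableEq XA] [DecidableEq XB] (ls : List (List XA)) :
    ((ls.map (List.map (Sum.inl : XA → XA ⊕ XB))).map List.formPerm).prod =
      Perm.sumCongr (ls.map List.formPerm).prod 1 := by
  induction ls with
  | nil => simp [Perm.sumCongr_one]
  | cons l ls ih =>
    simp only [List.map_cons, List.prod_cons]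
    rw [ih, fp_inl, Perm.sumCongr_mul, mul_one]

private theorem fps_inr {XA XB : Type*} [DecidableEq XA] [DecidableEq XB] (ls : List (List XB)) :
    ((ls.map (List.map (Sum.inr : XB → XA ⊕ XB))).map List.formPerm).prod =
      Perm.sumCongr 1 (ls.map List.formPerm).prod := by
  induction ls with
  | nil => simp [Perm.sumCongr_one]
  | cons l ls ih =>
    simp only [List.map_cons, List.prod_cons]
    rw [ih, fp_inr, Perm.sumCongr_mul, mul_one]

private theorem cyc_sum {XA XB : Type*} [DecidableEq XA] [DecidableEq XB] {PA : Perm XA} {PB : Perm XB}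
    {lA : List (List XA)} {lB : List (List XB)} (hA : Cyc lA PA) (hB : Cyc lB PB) :
    Cyc (lA.map (List.map (Sum.inl : XA → XA ⊕ XB)) ++ lB.map (List.map Sum.inr)) (Perm.sumCongr PA PB) := by
  refine ⟨?_, ?_, ?_, ?_⟩
  · rw [List.flatten_append, ← List.map_flatten, ← List.map_flatten, List.nodup_append]
    refine ⟨hA.nodup.map Sum.inl_injective, hB.nodup.map Sum.inr_injective, ?_⟩
    intro a ha b hb
    obtain ⟨x, -, rfl⟩ := List.mem_map.1 ha
    obtain ⟨y, -, rfl⟩ := List.mem_map.1 hb
    exact Sum.inl_ne_inr
  · intro z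
    rw [List.flatten_append, ← List.map_flatten, ← List.map_flatten, List.mem_append]
    rcases z with x | y
    · exact Or.inl (List.mem_map_of_mem (hA.cov x))
    · exact Or.inr (List.mem_map_of_mem (hB.cov y))
  · intro l hl
    rw [List.mem_append] at hl
    rcases hl with hl | hl
    · obtain ⟨l', hl', rfl⟩ := List.mem_map.1 hl
      simpa using hA.ne l' hl'
    · obtain ⟨l', hl', rfl⟩ := List.mem_map.1 hl
      simpa using hB.ne l' hl'
  · rw [List.map_append, List.prod_append, fps_inl, fps_inr, hA.prod, hB.prod, Perm.sumCongr_mul,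
      mul_one, one_mul]

/-! ### the sum of the labels -/

private theorem sum_flatten {X : Type*} (f : X → ℤ) (ls : List (List X)) :
    (ls.map (fun l => (l.map f).sum)).sum = (ls.flatten.map f).sum := by
  induction ls with
  | nil => simp
  | cons l ls ih => simp only [List.map_cons, List.sum_cons, List.flatten_cons, List.map_append, List.sum_append, ih]

private theorem sum_cyc {X : Type*} [Fintype X] [DecidableEq X] (f : X → ℤ) {l : List X} (h1 : l.Nodup)
    (h2 : ∀ x, x ∈ l) : (l.map f).sum = ∑ x, f x := by
  rw [← List.sum_toFinset f h1]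
  congr 1
  ext x
  simp [h2 x]

private theorem sum_labels {L n : ℕ} [NeZero L] (m : ZMod L → ℤ) (hm : ∑ i, m i = 0) {X : Type*} [Fintype X]
    (r : X → ZMod L) (c : ∀ i, (Finset.univ.filter (fun x => r x = i)).card = n) :
    ∑ x, m (r x) = 0 := by
  classical
  have h : ∑ x, m (r x) = ∑ i, ∑ x ∈ Finset.univ.filter (fun x => r x = i), m (r x) :=
    (Finset.sum_fiberwise (s := Finset.univ) (g := r) (f := fun x => m (r x))).symm
  rw [h]
  have h2 : ∀ i, ∑ x ∈ Finset.univ.filter (fun x => r x = i), m (r x) = n * m i := by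
    intro i
    rw [Finset.sum_congr rfl (fun x hx => by rw [(Finset.mem_filter.1 hx).2] :
      ∀ x ∈ Finset.univ.filter (fun x => r x = i), m (r x) = m i), Finset.sum_const, c i, nsmul_eq_mul]
  rw [Finset.sum_congr rfl (fun i _ => h2 i), ← Finset.mul_sum, hm, mul_zero]

private theorem prod_zpow {G : Type*} [Group G] (a : G) (l : List ℤ) :
    (l.map (fun k => a ^ k)).prod = a ^ l.sum := by
  induction l with
  | nil => simp
  | cons k l ih => rw [List.map_cons, List.prod_cons, List.sum_cons, ih, zpow_add]

private theorem filt {X : Type*} (a : F2) (f : X → ℤ) (ls : List (List X))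
    {inst : DecidablePred (fun g : F2 => g = 1)} :
    (ls.filter (fun l => (l.map f).sum = 0)).length ≤
      ((ls.map (fun l => a ^ (l.map f).sum)).filter (fun g => g = 1)).length := by
  rw [← List.countP_eq_length_filter, ← List.countP_eq_length_filter, List.countP_map]
  refine List.countP_mono_left fun l _ hl => ?_
  simp only [decide_eq_true_eq, Function.comp_apply] at hl ⊢
  rw [hl, zpow_zero]

theorem start {L n : ℕ} [NeZero L] (m p : ZMod L → ℤ) (hm : ∑ i, m i = 0) (hp : ∑ i, p i = 0)
    {XA XB : Type} [Fintype XA] [DecidableEq XA] [Fintype XB] [DecidableEq XB]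
    (rA : XA → ZMod L) (rB : XB → ZMod L) (PA : Perm XA) (PB : Perm XB)
    (lA : List (List XA)) (lB : List (List XB)) (hA : Cyc lA PA) (hB : Cyc lB PB)
    (cA : ∀ i, (Finset.univ.filter (fun x => rA x = i)).card = n)
    (cB : ∀ i, (Finset.univ.filter (fun y => rB y = i)).card = n) (zA zB : ℕ)
    (hzA : zA ≤ (lA.filter (fun l => (l.map (fun x => m (rA x))).sum = 0)).length)
    (hzB : zB ≤ (lB.filter (fun l => (l.map (fun x => p (rB x))).sum = 0)).length) :
    Qp (Perm.sumCongr PA PB) (gLab m p rA rB) (-(zA + zB : ℤ)) := by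
  classical
  refine ⟨_, cyc_sum hA hB, ?_⟩
  have e1 : ∀ l : List XA, ((l.map (Sum.inl : XA → XA ⊕ XB)).map (gLab m p rA rB)).prod =
      (FreeGroup.of 0 : F2) ^ (l.map (fun x => m (rA x))).sum := by
    intro l
    rw [← prod_zpow, List.map_map, List.map_map]
    rfl
  have e2 : ∀ l : List XB, ((l.map (Sum.inr : XB → XA ⊕ XB)).map (gLab m p rA rB)).prod =
      (FreeGroup.of 1 : F2) ^ (l.map (fun x => p (rB x))).sum := by
    intro l
    rw [← prod_zpow, List.map_map, List.map_map]
    rfl
  have e : (lA.map (List.map (Sum.inl : XA → XA ⊕ XB)) ++ lB.map (List.map Sum.inr)).map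
      (fun l : List (XA ⊕ XB) => (l.map (gLab m p rA rB)).prod) =
      lA.map (fun l => (FreeGroup.of 0 : F2) ^ (l.map (fun x => m (rA x))).sum) ++
      lB.map (fun l => (FreeGroup.of 1 : F2) ^ (l.map (fun x => p (rB x))).sum) := by
    rw [List.map_append, List.map_map, List.map_map]
    congr 1
    · exact List.map_congr_left fun l _ => e1 l
    · exact List.map_congr_left fun l _ => e2 l
  rw [e]
  have hb : Bdl (lA.map (fun l => (FreeGroup.of 0 : F2) ^ (l.map (fun x => m (rA x))).sum) ++
      lB.map (fun l => (FreeGroup.of 1 : F2) ^ (l.map (fun x => p (rB x))).sum)) 0 := by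
    refine ⟨0, fun N => ⟨0, by simp, [], rfl, ?_⟩⟩
    rw [List.map_nil, List.prod_nil, List.map_append, List.prod_append, List.map_map, List.map_map]
    have h1 : ∀ (a : F2) {X : Type} (f : X → ℤ) (ls : List (List X)), (ls.flatten.map f).sum = 0 →
        (ls.map ((fun w => w ^ N) ∘ fun l => a ^ (l.map f).sum)).prod = 1 := by
      intro a X f ls h0
      have h2 : ls.map ((fun w => w ^ N) ∘ fun l => a ^ (l.map f).sum) =
          (ls.map (fun l => (l.map f).sum * (N : ℤ))).map (fun k => a ^ k) := by
        rw [List.map_map]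
        refine List.map_congr_left fun l _ => ?_
        simp only [Function.comp_apply]
        rw [zpow_mul, zpow_natCast]
      rw [h2, prod_zpow]
      have h3 : (ls.map (fun l => (l.map f).sum * (N : ℤ))).sum = (ls.map (fun l => (l.map f).sum)).sum * N := by
        rw [← List.sum_map_mul_right]
      rw [h3, sum_flatten, h0, zero_mul, zpow_zero]
    rw [h1 (FreeGroup.of 0) (fun x => m (rA x)) lA (by
        rw [sum_cyc _ hA.nodup hA.cov]; exact sum_labels m hm rA cA),
      h1 (FreeGroup.of 1) (fun x => p (rB x)) lB (by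
        rw [sum_cyc _ hB.nodup hB.cov]; exact sum_labels p hp rB cB), one_mul]
  refine bdl_mono hb ?_
  rw [List.filter_append, List.length_append]
  push_cast
  have key : ∀ x y : ℕ, zA ≤ x → zB ≤ y → (0 : ℤ) ≤ -((zA : ℤ) + (zB : ℤ)) + ((x : ℤ) + (y : ℤ)) := by
    intro x y h1 h2
    omega
  exact key _ _ (hzA.trans (filt _ _ _)) (hzB.trans (filt _ _ _))

/-! ### gluing -/

private def sw {XA XB : Type*} [DecidableEq XA] [DecidableEq XB] (Θ : XA ≃ XB) (l : List XA) : Perm (XA ⊕ XB) :=
  (l.map (fun x => swap (Sum.inl x) (Sum.inr (Θ x)))).prod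

private theorem sw_apply {XA XB : Type*} [DecidableEq XA] [DecidableEq XB] (Θ : XA ≃ XB) (l : List XA)
    (hl : l.Nodup) : (∀ x, sw Θ l (Sum.inl x) = if x ∈ l then Sum.inr (Θ x) else Sum.inl x) ∧
      (∀ y, sw Θ l (Sum.inr y) = if Θ.symm y ∈ l then Sum.inl (Θ.symm y) else Sum.inr y) := by
  induction l with
  | nil => simp [sw]
  | cons z l ih =>
    obtain ⟨hz, hl'⟩ := List.nodup_cons.1 hl
    obtain ⟨i1, i2⟩ := ih hl'
    have hs : sw Θ (z :: l) = swap (Sum.inl z) (Sum.inr (Θ z)) * sw Θ l := by
      unfold sw
      rw [List.map_cons, List.prod_cons]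
    constructor
    · intro x
      rw [hs, Perm.mul_apply, i1]
      by_cases hx : x = z
      · subst hx
        rw [if_neg hz, swap_apply_left, if_pos List.mem_cons_self]
      · by_cases hxl : x ∈ l
        · rw [if_pos hxl, if_pos (List.mem_cons_of_mem _ hxl), swap_apply_of_ne_of_ne]
          · exact Sum.inr_ne_inl
          · exact fun h => hx (Θ.injective (Sum.inr_injective h))
        · rw [if_neg hxl, if_neg (by simp [hx, hxl]), swap_apply_of_ne_of_ne]
          · exact fun h => hx (Sum.inl_injective h)
          · exact Sum.inl_ne_inr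
    · intro y
      rw [hs, Perm.mul_apply, i2]
      by_cases hy : Θ.symm y = z
      · have hy' : y = Θ z := by rw [← hy]; simp
        rw [if_neg (by rw [hy]; exact hz), hy', swap_apply_right, if_pos (by simp)]
        simp
      · have hy' : y ≠ Θ z := fun h => hy (by rw [h]; simp)
        by_cases hyl : Θ.symm y ∈ l
        · rw [if_pos hyl, if_pos (List.mem_cons_of_mem _ hyl), swap_apply_of_ne_of_ne]
          · exact fun h => hy (Sum.inl_injective h)
          · exact Sum.inl_ne_inr
        · rw [if_neg hyl, if_neg (by simp [hy, hyl]), swap_apply_of_ne_of_ne]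
          · exact Sum.inr_ne_inl
          · exact fun h => hy' (Sum.inr_injective h)

theorem glue {XA XB : Type} {G : Type*} [Group G] [Fintype XA] [DecidableEq XA]
    [DecidableEq XB] (P : Perm (XA ⊕ XB)) (Θ : XA ≃ XB) (g : XA ⊕ XB → G) (t : ℤ)
    (h : Qp P g t) : Qp (P * glueInv Θ) g (t + Fintype.card XA) := by
  have key : ∀ l : List XA, Qp (P * sw Θ l) g (t + l.length) := by
    intro l
    induction l using List.reverseRecOn with
    | nil => simpa [sw] using h
    | append_singleton l x ih =>
      have e : P * sw Θ (l ++ [x]) = (P * sw Θ l) * swap (Sum.inl x) (Sum.inr (Θ x)) := by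
        unfold sw
        rw [List.map_append, List.prod_append, List.map_singleton, List.prod_singleton, mul_assoc]
      rw [e, List.length_append, List.length_singleton]
      push_cast
      rw [← add_assoc]
      exact qp_swap Sum.inl_ne_inr ih
  have e : sw Θ (Finset.univ : Finset XA).toList = glueInv Θ := by
    obtain ⟨h1, h2⟩ := sw_apply Θ (Finset.univ : Finset XA).toList (Finset.nodup_toList _)
    ext z
    rcases z with x | y
    · rw [h1, if_pos (by simp)]
      rfl
    · rw [h2, if_pos (by simp)]
      rfl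
  have := key (Finset.univ : Finset XA).toList
  rwa [e, Finset.length_toList, Finset.card_univ] at this

end Pool.Agent.Lib.MP_3d915a_al
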