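import Pool.Agent.Lib.MP_3d915a_al.SCL.QSwap

/-!
Module SCL-UEnd: from the glued surface to the stable commutator length.

`cyc_word`: `Cyc ls c`, `l ∈ ls`; `c x = l.formPerm x` on `l` (`fps_apply_mem`); `ρ (c x) = ρ x + 1`, so along `l` the residues increase by `1` cyclically: `ρ l[q] = ρ l[0] + q` and (from the last to the first, `formPerm_apply_getElem`) `l.length = 0` in `ZMod K`:
  `l.length = K k`, `k ≥ 1` (`l ≠ []`). With `ρ₀ = ρ l[0]`: `(l.map (γ ∘ ρ)).prod = ∏_{q < K k} γ (ρ₀ + q)`. Let `A = ∏_{q < ρ₀.val} γ q`, `Γ = ∏_{q < K} γ q`: `A * ∏_{q<Kk} γ (ρ₀ + q) = ∏_{q < ρ₀.val + K k} γ q = Γ^k * A`. So the word is `A⁻¹ Γ^k A`.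
  (Products over `List.range`; `∏_{q < a + b} γ q = (∏_{q<a} γ q) * ∏_{q<b} γ (a + q)` by `List.range_add`/induction; periodicity `(q + K : ZMod K) = q`.)
`scl_le_of_qp`: `Qp c g t`, all cycles have words conjugate to `Γ^k`, `Γ ≠ 1` (`F2` is torsion free: `Γ^k ≠ 1` for `k ≥ 1`, e.g. `FreeGroup.instIsMulTorsionFree`/`infinite_order`; `IsMulTorsionFree`), so there are no trivial words: `Bdl words t`. By `bdl_conj`, `bdl_perm`:
  `Bdl [Γ^k₁, Γ^k₂, …] t`, the product of the `N`-th powers is `Γ^(N ∑ k_i) = Γ^(N n)`, where `K ∑ k_i = ∑ lengths = card X = K n`. So for every `N ≥ 1`: `Γ^(nN)` is a product of `k` commutators, `2k ≤ tN + C`: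
  `scl Γ ≤ k/(nN) ≤ t/(2n) + C/(2nN)` (`ciInf_le`, bounded below by `0`; `Nat.sInf_le`), and `N → ∞` (`le_of_forall_pos_le_add` / archimedean).
-/

namespace Pool.Agent.Lib.MP_3d915a_al

open Equiv List

private theorem cw_range_add {G : Type*} [Group G] (f : ℕ → G) (a b : ℕ) :
    ((List.range (a + b)).map f).prod =
      ((List.range a).map f).prod * ((List.range b).map (fun q => f (a + q))).prod := by
  rw [List.range_add, List.map_append, List.prod_append, List.map_map]
  rfl

private theorem cw_period {G : Type*} [Group G] (f : ℕ → G) (K : ℕ) (hf : ∀ q, f (K + q) = f q)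
    (k a : ℕ) :
    ((List.range (K * k + a)).map f).prod =
      (((List.range K).map f).prod) ^ k * ((List.range a).map f).prod := by
  induction k with
  | zero => simp
  | succ k ih =>
    have : K * (k + 1) + a = K + (K * k + a) := by ring
    rw [this, cw_range_add]
    simp only [hf]
    rw [ih, pow_succ', mul_assoc]

theorem cyc_word {K : ℕ} [NeZero K] {X G : Type*} [Fintype X] [DecidableEq X] [Group G]
    (c : Perm X) (ρ : X → ZMod K) (hρ : ∀ x, ρ (c x) = ρ x + 1) (γ : ZMod K → G)
    (ls : List (List X)) (hc : Cyc ls c) (l : List X) (hl : l ∈ ls) :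
    ∃ k : ℕ, 1 ≤ k ∧ l.length = K * k ∧ ∃ h : G, (l.map (fun x => γ (ρ x))).prod =
      h * (((List.range K).map (fun q : ℕ => γ (q : ZMod K))).prod) ^ k * h⁻¹ := by
  have hne : l ≠ [] := hc.ne l hl
  have hpos : 0 < l.length := List.length_pos_iff.2 hne
  have hnd : l.Nodup := (List.nodup_flatten.1 hc.nodup).1 l hl
  have hstep : ∀ (i : ℕ) (hi : i < l.length),
      ρ (l[(i + 1) % l.length]'(Nat.mod_lt _ hpos)) = ρ l[i] + 1 := by
    intro i hi
    have h1 : c l[i] = l.formPerm l[i] := by
      rw [← hc.prod]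
      exact fps_apply_mem ls hc.nodup l hl _ (List.getElem_mem hi)
    have h2 := List.formPerm_apply_getElem l hnd i hi
    rw [← h2, ← h1]
    exact hρ _
  have hval : ∀ (i : ℕ) (hi : i < l.length), ρ l[i] = ρ (l[0]'hpos) + (i : ZMod K) := by
    intro i
    induction i with
    | zero => intro hi; simp
    | succ i ih =>
      intro hi
      have h1 := hstep i (by omega)
      have h2 : (i + 1) % l.length = i + 1 := Nat.mod_eq_of_lt hi
      simp only [h2] at h1
      rw [h1, ih (by omega)]
      push_cast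
      ring
  have hK : K ∣ l.length := by
    have h1 := hstep (l.length - 1) (by omega)
    have h2 : (l.length - 1 + 1) % l.length = 0 := by
      rw [Nat.sub_add_cancel hpos, Nat.mod_self]
    simp only [h2] at h1
    rw [hval (l.length - 1) (by omega)] at h1
    have h3 : ((l.length - 1 : ℕ) : ZMod K) + 1 = 0 := by
      have := h1
      rw [add_assoc] at this
      exact (left_eq_add.1 this)
    have h4 : ((l.length : ℕ) : ZMod K) = 0 := by
      have : l.length = (l.length - 1) + 1 := by omega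
      rw [this]
      push_cast
      exact h3
    exact (ZMod.natCast_eq_zero_iff _ _).1 h4
  obtain ⟨k, hk⟩ := hK
  refine ⟨k, ?_, hk, ?_⟩
  · rcases Nat.eq_zero_or_pos k with h0 | h0
    · rw [h0] at hk; omega
    · exact h0
  set f : ℕ → G := fun q => γ (q : ZMod K) with hf
  set a : ℕ := (ρ (l[0]'hpos)).val with ha
  have haρ : ((a : ℕ) : ZMod K) = ρ (l[0]'hpos) := by
    rw [ha]; exact ZMod.natCast_zmod_val _
  have hword : (l.map (fun x => γ (ρ x))).prod =
      ((List.range (K * k)).map (fun q => f (a + q))).prod := by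
    congr 1
    apply List.ext_getElem
    · simp [hk]
    · intro i h1 h2
      simp only [List.getElem_map, List.getElem_range, hf]
      have hi : i < l.length := by simpa using h1
      rw [hval i hi]
      push_cast
      rw [haρ]
  have hper : ∀ q, f (K + q) = f q := by
    intro q
    simp only [hf]
    push_cast
    simp
  have e1 := cw_range_add f a (K * k)
  have e2 := cw_period f K hper k a
  rw [Nat.add_comm a (K * k), e2] at e1
  refine ⟨(((List.range a).map f).prod)⁻¹, ?_⟩
  rw [hword, inv_inv, mul_assoc, e1, inv_mul_cancel_left]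

private theorem bdl_conj_all {α G : Type*} [Group G] {t : ℤ} (f g : α → G) :
    ∀ (ls : List α) (pre : List G), (∀ l ∈ ls, ∃ h : G, f l = h * g l * h⁻¹) →
      Bdl (ls.map f ++ pre) t → Bdl (ls.map g ++ pre) t := by
  intro ls
  induction ls with
  | nil => intro pre _ h; simpa using h
  | cons a ls ih =>
    intro pre hh hb
    obtain ⟨h, hh1⟩ := hh a (by simp)
    have h1 : Bdl (f a :: (ls.map f ++ pre)) t := by simpa using hb
    have h2 := bdl_conj h⁻¹ h1
    have h3 : h⁻¹ * f a * h⁻¹⁻¹ = g a := by rw [hh1]; group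
    rw [h3] at h2
    have h4 : Bdl (ls.map f ++ (g a :: pre)) t :=
      bdl_perm h2 (List.perm_middle.symm)
    have h5 := ih (g a :: pre) (fun l hl => hh l (List.mem_cons_of_mem _ hl)) h4
    have h6 : Bdl (g a :: (ls.map g ++ pre)) t := bdl_perm h5 List.perm_middle
    simpa using h6

private theorem pow_sum_prod {α G : Type*} [Group G] (Γ : G) (κ : α → ℕ) (N : ℕ) (ls : List α) :
    ((ls.map (fun l => Γ ^ κ l)).map (· ^ N)).prod = Γ ^ ((ls.map κ).sum * N) := by
  induction ls with
  | nil => simp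
  | cons a ls ih =>
    simp only [List.map_cons, List.prod_cons, List.sum_cons] at ih ⊢
    rw [ih, add_mul, pow_add, ← pow_mul]

theorem scl_le_of_qp {K n : ℕ} [NeZero K] (hn : 1 ≤ n) {X : Type*} [Fintype X] [DecidableEq X]
    (c : Perm X) (ρ : X → ZMod K) (hρ : ∀ x, ρ (c x) = ρ x + 1) (γ : ZMod K → F2)
    (hX : Fintype.card X = K * n)
    (hΓ : ((List.range K).map (fun q : ℕ => γ (q : ZMod K))).prod ≠ 1) (t : ℤ)
    (h : Qp c (fun x => γ (ρ x)) t) :
    scl (((List.range K).map (fun q : ℕ => γ (q : ZMod K))).prod) ≤ (t : ℝ) / (2 * n) := by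
  obtain ⟨ls, hc, hb⟩ := h
  set Γ : F2 := ((List.range K).map (fun q : ℕ => γ (q : ZMod K))).prod with hΓdef
  have hw := fun (l : List X) (hl : l ∈ ls) => cyc_word c ρ hρ γ ls hc l hl
  classical
  -- the exponents
  let κ : List X → ℕ := fun l => l.length / K
  have hKpos : 0 < K := Nat.pos_of_ne_zero (NeZero.ne K)
  have hw' : ∀ l ∈ ls, 1 ≤ κ l ∧ l.length = K * κ l ∧
      ∃ h : F2, (l.map (fun x => γ (ρ x))).prod = h * Γ ^ κ l * h⁻¹ := by
    intro l hl
    obtain ⟨k, hk1, hk2, hk3⟩ := hw l hl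
    have : κ l = k := by
      simp only [κ]
      rw [hk2]
      exact Nat.mul_div_cancel_left k hKpos
    rw [this]
    exact ⟨hk1, hk2, hk3⟩
  have hne1 : ∀ l ∈ ls, (l.map (fun x => γ (ρ x))).prod ≠ 1 := by
    intro l hl h1
    obtain ⟨hk1, -, h, hh⟩ := hw' l hl
    rw [hh] at h1
    have h2 : Γ ^ κ l = 1 := by
      have := congrArg (fun z => h⁻¹ * z * h) h1
      simpa [mul_assoc] using this
    exact hΓ ((pow_eq_one_iff_left (by omega)).1 h2)
  have hbdl : Bdl (ls.map (fun l => (l.map (fun x => γ (ρ x))).prod)) t := by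
    unfold Bp at hb
    refine bdl_mono hb (le_of_eq ?_)
    rw [List.filter_eq_nil_iff.2]
    · simp
    · intro a ha
      obtain ⟨l, hl, rfl⟩ := List.mem_map.1 ha
      simpa using hne1 l hl
  have hbdl2 : Bdl (ls.map (fun l => Γ ^ κ l)) t := by
    have := bdl_conj_all (t := t) (fun l : List X => (l.map (fun x => γ (ρ x))).prod)
      (fun l => Γ ^ κ l) ls [] (fun l hl => (hw' l hl).2.2) (by simpa using hbdl)
    simpa using this
  have hsum : (ls.map κ).sum = n := by
    have h1 : ls.flatten.length = Fintype.card X := by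
      rw [← List.toFinset_card_of_nodup hc.nodup, ← Finset.card_univ]
      congr 1
      ext x
      simp only [List.mem_toFinset, Finset.mem_univ, iff_true]
      exact hc.cov x
    have h2 : ls.flatten.length = K * (ls.map κ).sum := by
      rw [List.length_flatten, ← List.sum_map_mul_left]
      congr 1
      apply List.map_congr_left
      intro l hl
      exact (hw' l hl).2.1
    have h3 : K * (ls.map κ).sum = K * n := by rw [← h2, h1, hX]
    exact Nat.eq_of_mul_eq_mul_left hKpos h3
  obtain ⟨C, hC⟩ := hbdl2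
  have hmain : ∀ N : ℕ, 1 ≤ N → scl Γ ≤ (t : ℝ) / (2 * n) + (C : ℝ) / (2 * n * N) := by
    intro N hN
    obtain ⟨k, hk1, hk2⟩ := hC N
    rw [pow_sum_prod, hsum] at hk2
    have hnN : 0 < n * N := Nat.mul_pos (by omega) (by omega)
    have hcl : cl (Γ ^ (n * N)) ≤ k := Nat.sInf_le hk2
    have hscl : scl Γ ≤ (cl (Γ ^ (n * N)) : ℝ) / ((n * N : ℕ) : ℝ) := by
      have hbb : BddBelow (Set.range (fun m : ℕ+ => (cl (Γ ^ (m : ℕ)) : ℝ) / ((m : ℕ) : ℝ))) := by
        refine ⟨0, ?_⟩
        rintro _ ⟨m, rfl⟩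
        positivity
      exact ciInf_le hbb (⟨n * N, hnN⟩ : ℕ+)
    have hnR : (0 : ℝ) < n := by exact_mod_cast (by omega : 0 < n)
    have hNR : (0 : ℝ) < N := by exact_mod_cast (by omega : 0 < N)
    have hkR : (2 * k : ℝ) ≤ t * N + C := by exact_mod_cast hk1
    calc scl Γ ≤ (cl (Γ ^ (n * N)) : ℝ) / ((n * N : ℕ) : ℝ) := hscl
      _ ≤ (k : ℝ) / ((n * N : ℕ) : ℝ) := by
          apply div_le_div_of_nonneg_right _ (by positivity)
          exact_mod_cast hcl
      _ ≤ (t : ℝ) / (2 * n) + (C : ℝ) / (2 * n * N) := by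
          push_cast
          rw [div_add_div _ _ (by positivity) (by positivity), div_le_div_iff₀ (by positivity)
            (by positivity)]
          nlinarith [mul_pos hnR hNR, mul_pos (mul_pos hnR hNR) hnR,
            mul_le_mul_of_nonneg_left hkR (by positivity : (0:ℝ) ≤ 2 * n * n * N)]
  refine le_of_forall_pos_le_add (fun ε hε => ?_)
  have hnR : (0 : ℝ) < n := by exact_mod_cast (by omega : 0 < n)
  obtain ⟨N, hN⟩ := exists_nat_gt ((C : ℝ) / (2 * n * ε))
  have hN1 : 1 ≤ N := by
    rcases Nat.eq_zero_or_pos N with h0 | h0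
    · rw [h0] at hN
      have : (0 : ℝ) ≤ (C : ℝ) / (2 * n * ε) := by positivity
      simp at hN
      linarith
    · exact h0
  have hNR : (0 : ℝ) < N := by exact_mod_cast (by omega : 0 < N)
  refine (hmain N hN1).trans ?_
  have : (C : ℝ) / (2 * n * N) ≤ ε := by
    rw [div_lt_iff₀ (by positivity)] at hN
    rw [div_le_iff₀ (by positivity)]
    nlinarith
  linarith

end Pool.Agent.Lib.MP_3d915a_al
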