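import Pool.Agent.Lib.MP_3d915a_al.SCL.Realize
import Pool.Agent.Lib.MP_3d915a_al.SCL.Glue
import Pool.Agent.Lib.MP_3d915a_al.SCL.UEnd

/-!
Module SCL-Upper: a solution of size `n` with `z` discs gives `scl W ≤ (nL - z)/(2n)`.

`realize` for `Y`, `m`, `DA`: `XA, rA, PA, lA`. `realize` for `Y' k i := Y i (k + 1)` (row sums and column sums `n` as well), `p`, `DB`: `XB, rB, PB, lB`.
`Θ : XA ≃ XB` with `rB (Θ x) + 1 = rA (PA x)` and `rB (PB (Θ x)) = rA x`: `exists_equiv_of_fibers` with `κ = ZMod L × ZMod L`, `f x = (rA x, rA (PA x))`, `g y = (rB (PB y), rB y + 1)`; both fibres over `(i, j)` have `Y i j` elements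
(`rB y = j - 1 ∧ rB (PB y) = i`: `Y' (j-1) i = Y i j`).
`start`, `glue`: with `P = sumCongr PA PB`, `c = P * glueInv Θ`: `Qp c (gLab m p rA rB) (card XA - (zA + zB))`, `card XA = nL`, `zA = DA.length`, `zB = DB.length`.
`c (inl x) = inr (PB (Θ x))`, `c (inr y) = inl (PA (Θ.symm y))`. Residues modulo `K = 2L`: `ρ (inl x) = 2 (rA x).val`, `ρ (inr y) = 2 (rB y).val + 1` in `ZMod (2L)`: `ρ (c (inl x)) = ρ (inl x) + 1` because `rB (PB (Θ x)) = rA x`;
`ρ (c (inr y)) = 2 (rA (PA x)).val` with `x = Θ.symm y`, `rA (PA x) = rB y + 1`: equal to `2 (rB y).val + 2` modulo `2L`. `γ z = if z.val % 2 = 0 then a^(m (z.val / 2)) else b^(p (z.val / 2))` (`(z.val/2 : ZMod L)`): `gLab = γ ∘ ρ`, and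
`∏_{q < 2L} γ q = ∏_{q < L} a^(m q) b^(p q) = ev (wd L m p)`. `card X = 2 n L = K n`. `scl_le_of_qp`.
-/

namespace Pool.Agent.Lib.MP_3d915a_al

open Equiv List

private theorem up_cast {K : ℕ} {G : Type*} [Group G] (γ : ZMod K → G) :
    ((List.range K).map (fun q => γ (q : ZMod K))).prod =
      ((List.range K).map (fun q : ℕ => γ (q : ZMod K))).prod := by
  have h : (do let a ← List.range K; pure ((a : ℕ) : ZMod K)) =
      List.map (fun a : ℕ => (a : ZMod K)) (List.range K) :=
    List.flatMap_pure_eq_map _ _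
  rw [h, List.map_map]
  rfl

private theorem up_pairs {G : Type*} [Group G] (f : ℕ → G) (k : ℕ) :
    ((List.range (2 * k)).map f).prod =
      ((List.range k).map (fun q => f (2 * q) * f (2 * q + 1))).prod := by
  induction k with
  | zero => simp
  | succ k ih =>
    have e : 2 * (k + 1) = 2 * k + 1 + 1 := by ring
    rw [e, List.range_succ, List.range_succ, List.range_succ, List.map_append, List.map_append,
      List.map_append, List.prod_append, List.prod_append, List.prod_append, ih]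
    simp [mul_assoc]

/-- the labels of the residues modulo `2L` -/
private def up_γ {L : ℕ} (m p : ZMod L → ℤ) (z : ZMod (2 * L)) : F2 :=
  if z.val % 2 = 0 then FreeGroup.of 0 ^ m ((z.val / 2 : ℕ) : ZMod L)
  else FreeGroup.of 1 ^ p ((z.val / 2 : ℕ) : ZMod L)

private theorem up_γ_even {L : ℕ} (m p : ZMod L → ℤ) (q : ℕ) (hq : q < L) :
    up_γ m p ((2 * q : ℕ) : ZMod (2 * L)) = FreeGroup.of 0 ^ m (q : ZMod L) := by
  have h : ((2 * q : ℕ) : ZMod (2 * L)).val = 2 * q := ZMod.val_natCast_of_lt (by omega)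
  unfold up_γ
  rw [h, if_pos (by omega)]
  congr 3
  omega

private theorem up_γ_odd {L : ℕ} (m p : ZMod L → ℤ) (q : ℕ) (hq : q < L) :
    up_γ m p ((2 * q + 1 : ℕ) : ZMod (2 * L)) = FreeGroup.of 1 ^ p (q : ZMod L) := by
  have h : ((2 * q + 1 : ℕ) : ZMod (2 * L)).val = 2 * q + 1 := ZMod.val_natCast_of_lt (by omega)
  unfold up_γ
  rw [h, if_neg (by omega)]
  congr 3
  omega

private theorem up_word {L : ℕ} (m p : ZMod L → ℤ) :
    ((List.range (2 * L)).map (fun q : ℕ => up_γ m p (q : ZMod (2 * L)))).prod = ev (wd L m p) := by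
  rw [up_pairs]
  unfold ev wd
  rw [List.map_map]
  congr 1
  apply List.map_congr_left
  intro q hq
  rw [List.mem_range] at hq
  rw [up_γ_even m p q hq, up_γ_odd m p q hq]
  rfl

private theorem up_fiber {X κ : Type*} [Fintype X] [Fintype κ] [DecidableEq κ] (f g : X → κ) (i : κ) :
    (Finset.univ.filter (fun x => f x = i)).card =
      ∑ j, (Finset.univ.filter (fun x => f x = i ∧ g x = j)).card := by
  classical
  rw [Finset.card_eq_sum_card_fiberwise (f := g) (t := Finset.univ) (fun _ _ => Finset.mem_univ _)]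
  refine Finset.sum_congr rfl fun j _ => ?_
  rw [Finset.filter_filter]

private theorem up_card {L n : ℕ} [NeZero L] {X : Type*} [Fintype X] (r : X → ZMod L)
    (c : ∀ i, (Finset.univ.filter (fun x => r x = i)).card = n) : Fintype.card X = n * L := by
  classical
  have h := Finset.card_eq_sum_card_fiberwise (f := r) (s := Finset.univ) (t := Finset.univ)
    (fun _ _ => Finset.mem_univ _)
  rw [Finset.card_univ] at h
  rw [h, Finset.sum_congr rfl (fun i _ => c i), Finset.sum_const, Finset.card_univ, ZMod.card,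
    smul_eq_mul, mul_comm]

theorem upper {L n : ℕ} [NeZero L] (hn : 1 ≤ n) (m p : ZMod L → ℤ) (hm : ∑ i, m i = 0)
    (hp : ∑ i, p i = 0) (hW : ev (wd L m p) ≠ 1) (z : ℕ) (h : Sol L n m p z) :
    scl (ev (wd L m p)) ≤ ((n * L : ℝ) - z) / (2 * n) := by
  classical
  have : NeZero (2 * L) := ⟨by have := NeZero.ne L; omega⟩
  obtain ⟨Y, DA, DB, hr, hc, hWA, hWB, hYA, hYB, rfl⟩ := h
  obtain ⟨XA, fXA, dXA, rA, PA, lA, hA, cYA, hzA⟩ := realize Y hr hc m DA hWA hYA
  have hc' : ∀ i, ∑ k, Y i (k + 1) = n := by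
    intro i
    rw [← hr i]
    exact Equiv.sum_comp (Equiv.addRight (1 : ZMod L)) (fun j => Y i j)
  obtain ⟨XB, fXB, dXB, rB, PB, lB, hB, cYB, hzB⟩ :=
    realize (fun k i => Y i (k + 1)) (fun k => hc (k + 1)) hc' p DB hWB hYB
  have cA : ∀ i, (Finset.univ.filter (fun x => rA x = i)).card = n := by
    intro i
    rw [up_fiber rA (fun x => rA (PA x)) i, ← hr i]
    exact Finset.sum_congr rfl fun j _ => cYA i j
  have cB : ∀ i, (Finset.univ.filter (fun y => rB y = i)).card = n := by
    intro i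
    rw [up_fiber rB (fun x => rB (PB x)) i, ← hc (i + 1)]
    exact Finset.sum_congr rfl fun j _ => cYB i j
  obtain ⟨Θ, hΘ⟩ := exists_equiv_of_fibers (fun x => (rA x, rA (PA x)))
    (fun y => (rB (PB y), rB y + 1)) (by
      rintro ⟨i, j⟩
      have h1 := cYA i j
      have h2 := cYB (j - 1) i
      simp only [sub_add_cancel] at h2
      calc (Finset.univ.filter (fun x => (rA x, rA (PA x)) = (i, j))).card
          = (Finset.univ.filter (fun x => rA x = i ∧ rA (PA x) = j)).card := by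
            simp only [Prod.mk.injEq]
        _ = (Finset.univ.filter (fun y => rB y = j - 1 ∧ rB (PB y) = i)).card := by rw [h1, h2]
        _ = (Finset.univ.filter (fun y => (rB (PB y), rB y + 1) = (i, j))).card := by
            congr 1
            ext y
            simp only [Finset.mem_filter, Finset.mem_univ, true_and, Prod.mk.injEq]
            rw [and_comm, eq_sub_iff_add_eq])
  have hΘ1 : ∀ x, rB (PB (Θ x)) = rA x := fun x => (Prod.mk.inj (hΘ x)).1
  have hΘ2 : ∀ x, rB (Θ x) + 1 = rA (PA x) := fun x => (Prod.mk.inj (hΘ x)).2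
  have h1 := start m p hm hp rA rB PA PB lA lB hA hB cA cB DA.length DB.length hzA hzB
  have h2 := glue (Perm.sumCongr PA PB) Θ (gLab m p rA rB) _ h1
  obtain ⟨ρ, hρd⟩ : ∃ ρ : XA ⊕ XB → ZMod (2 * L), ρ =
      Sum.elim (fun x => ((2 * (rA x).val : ℕ) : ZMod (2 * L)))
        (fun y => ((2 * (rB y).val + 1 : ℕ) : ZMod (2 * L))) := ⟨_, rfl⟩
  have hlab : gLab m p rA rB = fun x => up_γ m p (ρ x) := by
    funext x
    rcases x with x | y
    · rw [hρd]
      simp only [gLab, Sum.elim_inl]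
      rw [up_γ_even m p _ (ZMod.val_lt _), ZMod.natCast_zmod_val]
    · rw [hρd]
      simp only [gLab, Sum.elim_inr]
      rw [up_γ_odd m p _ (ZMod.val_lt _), ZMod.natCast_zmod_val]
  have hρ : ∀ x, ρ ((Perm.sumCongr PA PB * glueInv Θ) x) = ρ x + 1 := by
    intro x
    rcases x with x | y
    · have e : (Perm.sumCongr PA PB * glueInv Θ) (Sum.inl x) = Sum.inr (PB (Θ x)) := rfl
      rw [e, hρd]
      simp only [Sum.elim_inl, Sum.elim_inr]
      rw [hΘ1]
      push_cast
      rfl
    · have e : (Perm.sumCongr PA PB * glueInv Θ) (Sum.inr y) = Sum.inl (PA (Θ.symm y)) := rfl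
      have e2 : rA (PA (Θ.symm y)) = rB y + 1 := by
        rw [← hΘ2, Θ.apply_symm_apply]
      rw [e, hρd]
      simp only [Sum.elim_inl, Sum.elim_inr]
      rw [e2]
      have e3 : (rB y + 1).val ≡ (rB y).val + 1 [MOD L] := by
        rw [← ZMod.natCast_eq_natCast_iff]
        push_cast
        rw [ZMod.natCast_zmod_val, ZMod.natCast_zmod_val]
      have e4 : 2 * (rB y + 1).val ≡ 2 * (rB y).val + 1 + 1 [MOD 2 * L] := by
        have := Nat.ModEq.mul_left' 2 e3
        rwa [Nat.mul_add] at this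
      have e5 := (ZMod.natCast_eq_natCast_iff _ _ _).2 e4
      rw [e5]
      push_cast
      rfl
  rw [hlab] at h2
  have hcA := up_card rA cA
  have hcB := up_card rB cB
  have hX : Fintype.card (XA ⊕ XB) = 2 * L * n := by
    rw [Fintype.card_sum, hcA, hcB]
    ring
  have hw := up_word m p
  have h3 := scl_le_of_qp (K := 2 * L) hn _ ρ hρ (up_γ m p) hX (by rw [hw]; exact hW) _ h2
  rw [hw] at h3
  refine h3.trans (le_of_eq ?_)
  rw [hcA]
  push_cast
  ring

end Pool.Agent.Lib.MP_3d915a_al
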