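import Pool.Agent.Lib.MP_3d915a_al.SCL.Lower
import Pool.Agent.Lib.MP_3d915a_al.SCL.Extract
import Pool.Agent.Lib.MP_3d915a_al.SCL.Upper
import Pool.Agent.Lib.MP_3d915a_al.SCL.Dickson

/-!
Module SCL-Compact: there is no strictly decreasing sequence of values of `scl` on words with `L` pairs of syllables.

`abel`: `∑ m = 0 = ∑ p` iff `ev (wd L m p)` is in the commutator subgroup (the two exponent sum homomorphisms `F2 → Multiplicative ℤ` for `→`; for `←` (this direction is used here): the quotient by the commutator subgroup is abelian: the class of `ev (wd)` is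
  `a^(∑m) b^(∑p) = 1`).
`compare`: `m, p` (the word `W`), `m', p'` (the word `W' ≠ 1`) with the hypotheses of `transfer`: `scl W' ≤ scl W + L/(M+1)`. It is enough (`le_ciInf`): for every `n : ℕ+`: `scl W' ≤ cl (W^n)/n + L/(M+1)`. Let `k = cl (W^n)`; `W^n` is a product of `k` commutators
  (`Nat.sInf_mem`, non-empty by `pc_of_mem`). `gs_lower` with `u` = `n` copies of `wd` (`ev_replicate`; `u ≠ []`): `GS [u] (2k-1)`; `extract`: `Sol L n m p z`, `z ≥ nL - 2k + 1`; `transfer`: `Sol L n m' p' z'`, `z (M+1) ≤ z' (M+1) + 2nL`; `upper`: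
  `scl W' ≤ (nL - z')/(2n) ≤ (nL - z)/(2n) + L/(M+1) ≤ (2k-1)/(2n) + L/(M+1) ≤ k/n + L/(M+1)`.
`no_descent`: suppose `f k = scl (W k)` is strictly decreasing. `f k ≥ 0`, so `f k > f (k+1) ≥ 0`, `W k ≠ 1` for all `k` (`scl 1 = 0`: `cl 1 = 0`). Let `U` be the hyperfilter (`Filter.hyperfilter ℕ`), `CA k = {fun q => cnt l q.1 q.2 | Walk (m k) l}`, `CB k` for `p k`;
  `dickson`: `FA`, `FB`. Choose `j` with `FA ⊆ CA j`, `FB ⊆ CB j` (finite intersections of sets of `U` are non-empty). `δ = f j - f (j+1) > 0`, choose `M` with `L/(M+1) < δ`; for almost all `k` the conclusions of `dickson` for `M` hold (entries `cnt l i j ≤ l.length ≤ M`),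
  and `k > j` for almost all `k` (`hyperfilter ≤ cofinite = atTop`): choose such a `k`. `compare`: `f j ≤ f k + L/(M+1) < f k + δ ≤ f (j+1) + δ = f j`. Contradiction.
-/

namespace Pool.Agent.Lib.MP_3d915a_al

open Filter

private lemma co_sum_range {L : ℕ} [NeZero L] (f : ZMod L → ℤ) :
    ((List.range L).map (fun q : ℕ => f (q : ZMod L))).sum = ∑ i, f i := by
  have h1 : ((List.range L).map (fun q : ℕ => f (q : ZMod L))).sum =
      ∑ q ∈ Finset.range L, f (q : ZMod L) := by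
    rw [Finset.sum_eq_multiset_sum, Finset.range_val, Multiset.range, Multiset.map_coe,
      Multiset.sum_coe]
  rw [h1]
  refine Finset.sum_nbij' (fun q : ℕ => (q : ZMod L)) (fun i : ZMod L => i.val)
    (fun _ _ => Finset.mem_univ _) (fun i _ => Finset.mem_range.2 (ZMod.val_lt i))
    (fun q hq => ZMod.val_cast_of_lt (Finset.mem_range.1 hq)) (fun i _ => ZMod.natCast_zmod_val i)
    (fun _ _ => rfl)

private lemma co_fst {L : ℕ} [NeZero L] (m p : ZMod L → ℤ) :
    ((wd L m p).map Prod.fst).sum = ∑ i, m i := by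
  rw [← co_sum_range m, wd, List.map_map]
  rfl

private lemma co_snd {L : ℕ} [NeZero L] (m p : ZMod L → ℤ) :
    ((wd L m p).map Prod.snd).sum = ∑ i, p i := by
  rw [← co_sum_range p, wd, List.map_map]
  rfl

private lemma co_hom {A : Type*} [CommGroup A] (φ : F2 →* A) (u : List (ℤ × ℤ)) :
    φ (ev u) = φ (FreeGroup.of 0) ^ ((u.map Prod.fst).sum) *
      φ (FreeGroup.of 1) ^ ((u.map Prod.snd).sum) := by
  induction u with
  | nil => simp [ev]
  | cons q u ih =>
    have h1 : ev (q :: u) = el q * ev u := by simp [ev]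
    rw [h1, map_mul, ih, el, map_mul, map_zpow, map_zpow, List.map_cons, List.map_cons,
      List.sum_cons, List.sum_cons, zpow_add, zpow_add]
    exact mul_mul_mul_comm _ _ _ _

theorem abel {L : ℕ} [NeZero L] (m p : ZMod L → ℤ) :
    ev (wd L m p) ∈ commutator F2 ↔ ∑ i, m i = 0 ∧ ∑ i, p i = 0 := by
  constructor
  · intro h
    constructor
    · let φ : F2 →* Multiplicative ℤ :=
        FreeGroup.lift (fun i : Fin 2 => if i = 0 then Multiplicative.ofAdd (1 : ℤ) else 1)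
      have h1 := MonoidHom.mem_ker.1 (Abelianization.commutator_subset_ker φ h)
      rw [co_hom φ, co_fst] at h1
      have h2 : φ (FreeGroup.of 0) = Multiplicative.ofAdd (1 : ℤ) := by
        simp [φ]
      have h3 : φ (FreeGroup.of 1) = 1 := by
        simp [φ]
      rw [h2, h3, one_zpow, mul_one, ← ofAdd_zsmul, ofAdd_eq_one] at h1
      simpa using h1
    · let φ : F2 →* Multiplicative ℤ :=
        FreeGroup.lift (fun i : Fin 2 => if i = 0 then 1 else Multiplicative.ofAdd (1 : ℤ))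
      have h1 := MonoidHom.mem_ker.1 (Abelianization.commutator_subset_ker φ h)
      rw [co_hom φ, co_snd] at h1
      have h2 : φ (FreeGroup.of 0) = 1 := by
        simp [φ]
      have h3 : φ (FreeGroup.of 1) = Multiplicative.ofAdd (1 : ℤ) := by
        simp [φ]
      rw [h2, h3, one_zpow, one_mul, ← ofAdd_zsmul, ofAdd_eq_one] at h1
      simpa using h1
  · rintro ⟨h1, h2⟩
    rw [← Abelianization.ker_of, MonoidHom.mem_ker, co_hom, co_fst, co_snd, h1, h2]
    simp

theorem scl_one : scl 1 = 0 := by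
  have h1 : cl 1 = 0 := Nat.le_zero.1 (Nat.sInf_le (show ProdComm 0 (1 : F2) from ⟨[], rfl, rfl⟩))
  have h2 : ∀ n : ℕ+, (cl ((1 : F2) ^ (n : ℕ)) : ℝ) / ((n : ℕ) : ℝ) = 0 := fun n => by
    rw [one_pow, h1, Nat.cast_zero, zero_div]
  rw [scl]
  simp_rw [h2]
  exact ciInf_const

theorem scl_nonneg (g : F2) : 0 ≤ scl g := by
  apply Real.iInf_nonneg
  intro n
  positivity

theorem compare {L M : ℕ} [NeZero L] (m p m' p' : ZMod L → ℤ) (hm : ∑ i, m i = 0)
    (hp : ∑ i, p i = 0) (hm' : ∑ i, m' i = 0) (hp' : ∑ i, p' i = 0)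
    (hW' : ev (wd L m' p') ≠ 1) (FA FB : Finset (ZMod L × ZMod L → ℕ))
    (hA : ∀ D ∈ FA, ∃ l, Walk m' l ∧ (fun q : ZMod L × ZMod L => cnt l q.1 q.2) = D)
    (hB : ∀ D ∈ FB, ∃ l, Walk p' l ∧ (fun q : ZMod L × ZMod L => cnt l q.1 q.2) = D)
    (kA : ∀ l, Walk m l → l.length ≤ M →
      ∃ D ∈ FA, D ≤ fun q : ZMod L × ZMod L => cnt l q.1 q.2)
    (kB : ∀ l, Walk p l → l.length ≤ M →
      ∃ D ∈ FB, D ≤ fun q : ZMod L × ZMod L => cnt l q.1 q.2) :
    scl (ev (wd L m' p')) ≤ scl (ev (wd L m p)) + (L : ℝ) / (M + 1) := by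
  rw [← sub_le_iff_le_add]
  conv_rhs => rw [scl]
  apply le_ciInf
  intro n
  rw [sub_le_iff_le_add]
  have hn : 1 ≤ (n : ℕ) := n.2
  have hL : 1 ≤ L := Nat.one_le_iff_ne_zero.2 (NeZero.ne L)
  have hmem : ev (wd L m p) ^ (n : ℕ) ∈ commutator F2 :=
    Subgroup.pow_mem _ ((abel m p).2 ⟨hm, hp⟩) _
  have hk : ProdComm (cl (ev (wd L m p) ^ (n : ℕ))) (ev (wd L m p) ^ (n : ℕ)) :=
    Nat.sInf_mem (s := {k : ℕ | ProdComm k (ev (wd L m p) ^ (n : ℕ))}) (pc_of_mem hmem)
  set k := cl (ev (wd L m p) ^ (n : ℕ)) with hkdef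
  rw [← ev_replicate] at hk
  have hne : (List.replicate (n : ℕ) (wd L m p)).flatten ≠ [] := by
    have h1 : (List.replicate (n : ℕ) (wd L m p)).flatten.length = n * L := by
      simp [wd]
    intro h2
    rw [h2, List.length_nil] at h1
    have : 0 < (n : ℕ) * L := Nat.mul_pos hn hL
    omega
  obtain ⟨z, hz, hzn⟩ := extract hn m p _ (gs_lower hne hk)
  obtain ⟨z', hz', hzz⟩ := transfer m p m' p' FA FB hA hB kA kB z hz
  have h3 := upper hn m' p' hm' hp' hW' z' hz'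
  have hn0 : (0 : ℝ) < n := by exact_mod_cast hn
  have hM0 : (0 : ℝ) < (M : ℝ) + 1 := by positivity
  have h4 : (z : ℝ) * (M + 1) ≤ z' * (M + 1) + 2 * (n * L) := by exact_mod_cast hzz
  have h5 : (n : ℝ) * L - (2 * k - 1) ≤ z := by exact_mod_cast hzn
  have h6 : (z : ℝ) ≤ z' + 2 * (n * L) / (M + 1) := by
    rw [← sub_le_iff_le_add', le_div_iff₀ hM0]
    linarith
  have h7 : ((n : ℝ) * L - z') / (2 * n) ≤ k / n + L / (M + 1) := by
    rw [div_le_iff₀ (by positivity)]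
    have e1 : (k / (n : ℝ) + L / (M + 1)) * (2 * n) = 2 * k + 2 * (n * L) / (M + 1) := by
      field_simp
    rw [e1]
    linarith
  exact h3.trans h7

private lemma cnt_le {L : ℕ} (l : List (ZMod L)) (i j : ZMod L) : cnt l i j ≤ l.length := by
  refine (List.count_le_length).trans ?_
  rw [List.length_zip, List.length_rotate, min_self]

theorem no_descent {L : ℕ} [NeZero L] (m p : ℕ → ZMod L → ℤ) (hm : ∀ k, ∑ i, m k i = 0)
    (hp : ∀ k, ∑ i, p k i = 0) : ¬ StrictAnti (fun k => scl (ev (wd L (m k) (p k)))) := by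
  intro hf
  set f : ℕ → ℝ := fun k => scl (ev (wd L (m k) (p k))) with hfdef
  have hW : ∀ k, ev (wd L (m k) (p k)) ≠ 1 := by
    intro k hk
    have h1 : f k = 0 := by
      simp only [hfdef]
      rw [hk, scl_one]
    have h2 : f (k + 1) < f k := hf (Nat.lt_succ_self k)
    have h3 : 0 ≤ f (k + 1) := scl_nonneg _
    linarith
  set U : Ultrafilter ℕ := Filter.hyperfilter ℕ with hU
  obtain ⟨FA, hFA1, hFA2⟩ := dickson U
    (fun k => {D : ZMod L × ZMod L → ℕ | ∃ l, Walk (m k) l ∧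
      (fun q : ZMod L × ZMod L => cnt l q.1 q.2) = D})
  obtain ⟨FB, hFB1, hFB2⟩ := dickson U
    (fun k => {D : ZMod L × ZMod L → ℕ | ∃ l, Walk (p k) l ∧
      (fun q : ZMod L × ZMod L => cnt l q.1 q.2) = D})
  have hA1 : ∀ᶠ k in (U : Filter ℕ), ∀ D ∈ FA, ∃ l, Walk (m k) l ∧
      (fun q : ZMod L × ZMod L => cnt l q.1 q.2) = D :=
    (Filter.eventually_all_finset FA).2 hFA1
  have hB1 : ∀ᶠ k in (U : Filter ℕ), ∀ D ∈ FB, ∃ l, Walk (p k) l ∧
      (fun q : ZMod L × ZMod L => cnt l q.1 q.2) = D :=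
    (Filter.eventually_all_finset FB).2 hFB1
  obtain ⟨j, hjA, hjB⟩ := (hA1.and hB1).exists
  have hδ : 0 < f j - f (j + 1) := sub_pos.2 (hf (Nat.lt_succ_self j))
  obtain ⟨M, hM⟩ := exists_nat_gt ((L : ℝ) / (f j - f (j + 1)))
  have hM' : (L : ℝ) / (M + 1) < f j - f (j + 1) := by
    rw [div_lt_iff₀ (by positivity)]
    rw [div_lt_iff₀ hδ] at hM
    nlinarith
  have hgt : ∀ᶠ k in (U : Filter ℕ), j < k := by
    have h1 : (U : Filter ℕ) ≤ Filter.atTop := by
      rw [hU, ← Nat.cofinite_eq_atTop]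
      exact Filter.hyperfilter_le_cofinite
    exact h1 (Filter.eventually_gt_atTop j)
  obtain ⟨k, ⟨hkA, hkB⟩, hjk⟩ := (((hFA2 M).and (hFB2 M)).and hgt).exists
  have hcmp := compare (M := M) (m k) (p k) (m j) (p j) (hm k) (hp k) (hm j) (hp j) (hW j) FA FB
    hjA hjB
    (fun l hl hlen => hkA _ ⟨l, hl, rfl⟩ (fun q => (cnt_le l q.1 q.2).trans hlen))
    (fun l hl hlen => hkB _ ⟨l, hl, rfl⟩ (fun q => (cnt_le l q.1 q.2).trans hlen))
  have h1 : f j ≤ f k + (L : ℝ) / (M + 1) := hcmp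
  have h2 : f k ≤ f (j + 1) := hf.antitone hjk
  linarith

end Pool.Agent.Lib.MP_3d915a_al
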