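import Mathlib

/-!
# Stable commutator length of words with a bounded number of syllables: definitions

Board SCL (MP_3d915a_al). Overview: `/team-store/SCL_paper.md`.
-/

namespace Pool.Agent.Lib.MP_3d915a_al

open Equiv

/-- `g` is a product of `k` commutators. -/
def ProdComm {G : Type*} [Group G] (k : ℕ) (g : G) : Prop :=
  ∃ l : List (G × G), l.length = k ∧
    (l.map (fun p : G × G => p.1 * p.2 * p.1⁻¹ * p.2⁻¹)).prod = g

/-- the free group of rank 2 -/
abbrev F2 := FreeGroup (Fin 2)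

/-- commutator length -/
noncomputable def cl (g : F2) : ℕ := sInf {k : ℕ | ProdComm k g}

/-- stable commutator length -/
noncomputable def scl (g : F2) : ℝ := ⨅ n : ℕ+, (cl (g ^ (n : ℕ)) : ℝ) / ((n : ℕ) : ℝ)

/-- the pair of syllables `a^(q.1) b^(q.2)` -/
def el (q : ℤ × ℤ) : F2 := FreeGroup.of 0 ^ q.1 * FreeGroup.of 1 ^ q.2

/-- the element given by a list of pairs of syllables -/
def ev (u : List (ℤ × ℤ)) : F2 := (u.map el).prod

/-! ### labelled permutations of `ℕ` -/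

/-- `e_x ↦ 2^(m (π x)) e_(π x)` -/
noncomputable def tA (π : Perm ℕ) (m : ℕ → ℤ) : (ℕ →₀ ℚ) →ₗ[ℚ] (ℕ →₀ ℚ) :=
  Finsupp.lsum ℚ (fun x => ((2 : ℚ) ^ (m (π x))) • Finsupp.lsingle (π x))

/-- `e_x ↦ 2^(p x) e_(π x)` -/
noncomputable def tB (π : Perm ℕ) (p : ℕ → ℤ) : (ℕ →₀ ℚ) →ₗ[ℚ] (ℕ →₀ ℚ) :=
  Finsupp.lsum ℚ (fun x => ((2 : ℚ) ^ (p x)) • Finsupp.lsingle (π x))

/-- the rank of `T - 1` is at most `s` -/
def RkLe (T : (ℕ →₀ ℚ) →ₗ[ℚ] (ℕ →₀ ℚ)) (s : ℕ) : Prop :=
  Module.rank ℚ (LinearMap.range (T - 1)) ≤ (s : Cardinal)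

/-- The permutation `c` with labels `m`, `p` is a product `πA πB` with total rank at most `s`. -/
def St (c : Perm ℕ) (m p : ℕ → ℤ) (s : ℕ) : Prop :=
  ∃ (πA πB : Perm ℕ) (sA sB : ℕ), {x | πA x ≠ x}.Finite ∧ πA * πB = c ∧
    RkLe (tA πA m) sA ∧ RkLe (tB πB p) sB ∧ sA + sB ≤ s

/-- `ls` is a family of disjoint lists of names with the labels `ws` -/
structure Rep (ls : List (List ℕ)) (m p : ℕ → ℤ) (ws : List (List (ℤ × ℤ))) : Prop where
  nodup : ls.flatten.Nodup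
  lab : ls.map (List.map (fun x => (m x, p x))) = ws
  out : ∀ x, x ∉ ls.flatten → m x = 0 ∧ p x = 0

/-- A family of words has a surface of total rank at most `s`. -/
def PS (ws : List (List (ℤ × ℤ))) (s : ℕ) : Prop :=
  ∃ (ls : List (List ℕ)) (m p : ℕ → ℤ), Rep ls m p ws ∧ St ((ls.map List.formPerm).prod) m p s

/-- A family of words has a surface with `-χ ≤ t`. -/
def GS (ws : List (List (ℤ × ℤ))) (t : ℤ) : Prop :=
  ∃ s : ℕ, PS ws s ∧ (s : ℤ) ≤ t + ws.flatten.length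

/-! ### closed walks and solutions -/

/-- number of transitions from `i` to `j` in the closed walk `l` -/
def cnt {L : ℕ} (l : List (ZMod L)) (i j : ZMod L) : ℕ := (l.zip (l.rotate 1)).count (i, j)

/-- closed walk with sum of labels zero -/
def Walk {L : ℕ} (m : ZMod L → ℤ) (l : List (ZMod L)) : Prop := l ≠ [] ∧ (l.map m).sum = 0

/-- A solution of size `n` with `z` discs. -/
def Sol (L n : ℕ) [NeZero L] (m p : ZMod L → ℤ) (z : ℕ) : Prop :=
  ∃ (Y : ZMod L → ZMod L → ℕ) (DA DB : List (List (ZMod L))),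
    (∀ i, ∑ j, Y i j = n) ∧ (∀ j, ∑ i, Y i j = n) ∧
    (∀ l ∈ DA, Walk m l) ∧ (∀ l ∈ DB, Walk p l) ∧
    (∀ i j, (DA.map (fun l => cnt l i j)).sum ≤ Y i j) ∧
    (∀ k i, (DB.map (fun l => cnt l k i)).sum ≤ Y i (k + 1)) ∧
    DA.length + DB.length = z

/-- the word `a^(m 0) b^(p 0) a^(m 1) b^(p 1) … a^(m (L-1)) b^(p (L-1))` -/
def wd (L : ℕ) (m p : ZMod L → ℤ) : List (ℤ × ℤ) :=
  (List.range L).map (fun q : ℕ => (m (q : ZMod L), p (q : ZMod L)))

/-! ### asymptotic commutator counts -/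

/-- `∏ g^N` (over `g ∈ ws`) is a product of at most `(t N + C)/2` commutators for every `N`. -/
def Bdl {G : Type*} [Group G] (ws : List G) (t : ℤ) : Prop :=
  ∃ C : ℕ, ∀ N : ℕ, ∃ k : ℕ, (2 * k : ℤ) ≤ t * N + C ∧ ProdComm k ((ws.map (· ^ N)).prod)

open Classical in
/-- the same with the number of trivial entries added to `t` -/
def Bp {G : Type*} [Group G] (ws : List G) (t : ℤ) : Prop :=
  Bdl ws (t + (ws.filter (fun g => g = 1)).length)

/-- `ls` lists the cycles of the permutation `c` of `X` -/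
structure Cyc {X : Type*} [DecidableEq X] (ls : List (List X)) (c : Perm X) : Prop where
  nodup : ls.flatten.Nodup
  cov : ∀ x, x ∈ ls.flatten
  ne : ∀ l ∈ ls, l ≠ []
  prod : (ls.map List.formPerm).prod = c

/-- the family of the words of the cycles of `c` satisfies `Bp` -/
def Qp {X G : Type*} [DecidableEq X] [Group G] (c : Perm X) (g : X → G) (t : ℤ) : Prop :=
  ∃ ls : List (List X), Cyc ls c ∧ Bp (ls.map (fun l => (l.map g).prod)) t

end Pool.Agent.Lib.MP_3d915a_al
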