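import Pool.Agent.Lib.MP_3d915a_al.SCL.Defs

/-!
Module SCL-FPerm: `List.formPerm`.

`fp_append`: induction on `l₁` with `List.formPerm_cons_cons` (`formPerm (x :: y :: l) = swap x y * formPerm (y :: l)`), `formPerm [x] = 1`.
`fp_append_last`: from `fp_append`: `swap u v * f = f * swap (f⁻¹ u) (f⁻¹ v)` with `f = formPerm l₂`, `v = head l₂`, `u = last l₁ ∉ l₂`: `f⁻¹ u = u`, `f⁻¹ v = last l₂`
  (`List.formPerm_apply_getLast`: `f (last l₂) = head l₂`).
`fp_second`: `l = []`: `formPerm [h, j] = swap h j`, `swap j h * swap h j = 1 = formPerm [h]`. `l = k :: l'`: `formPerm (h :: j :: k :: l') = swap h j * (swap j k * F)`, `F = formPerm (k :: l')`, it maps `j` to `k`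
  (`F j = j`, `swap j k j = k`, `swap h j k = k`), and `swap j k * swap h j * swap j k = swap h k`.
`fp_commute`: for lists with `(l₁ ++ l₂).Nodup` the permutations are disjoint (`List.formPerm_apply_of_notMem`; `Equiv.Perm.Disjoint.commute`).
`fps_perm`: `List.Perm` induction with `fp_commute`; `fps_apply_notMem`, `fps_apply_mem`: induction on `ls`.
-/

namespace Pool.Agent.Lib.MP_3d915a_al

open Equiv List

variable {α : Type*} [DecidableEq α]

theorem fp_append (l₁ l₂ : List α) (h₁ : l₁ ≠ []) (h₂ : l₂ ≠ []) :
    (l₁ ++ l₂).formPerm = l₁.formPerm * swap (l₁.getLast h₁) (l₂.head h₂) * l₂.formPerm := by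
  induction l₁ with
  | nil => exact absurd rfl h₁
  | cons x t ih =>
    cases t with
    | nil =>
      cases l₂ with
      | nil => exact absurd rfl h₂
      | cons y r => simp [List.formPerm_cons_cons]
    | cons x' t' =>
      have h := ih (by simp)
      rw [List.cons_append, List.cons_append, List.formPerm_cons_cons, ← List.cons_append, h,
        List.formPerm_cons_cons]
      simp only [mul_assoc, List.getLast_cons_cons]

theorem fp_append_last (l₁ l₂ : List α) (h₁ : l₁ ≠ []) (h₂ : l₂ ≠ []) (hd : (l₁ ++ l₂).Nodup) :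
    (l₁ ++ l₂).formPerm =
      l₁.formPerm * l₂.formPerm * swap (l₁.getLast h₁) (l₂.getLast h₂) := by
  rw [fp_append l₁ l₂ h₁ h₂, mul_assoc, mul_assoc]
  congr 1
  rw [Equiv.swap_mul_eq_mul_swap]
  congr 2
  · rw [Equiv.Perm.inv_eq_iff_eq]
    refine (List.formPerm_apply_of_notMem ?_).symm
    intro h
    exact (List.nodup_append.1 hd).2.2 _ (List.getLast_mem h₁) _ h rfl
  · rw [Equiv.Perm.inv_eq_iff_eq]
    cases l₂ with
    | nil => exact absurd rfl h₂
    | cons y r => exact (List.formPerm_apply_getLast y r).symm

theorem fp_second (h j : α) (l : List α) (hd : (h :: j :: l).Nodup) :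
    (h :: l).formPerm = swap j ((h :: j :: l).formPerm j) * (h :: j :: l).formPerm := by
  cases l with
  | nil =>
    have hne : h ≠ j := by
      intro e
      simp [e] at hd
    simp [List.formPerm_cons_cons, Equiv.swap_comm j h]
  | cons k l' =>
    have hhj : h ≠ j := by
      intro e
      simp [e] at hd
    have hhk : h ≠ k := by
      intro e
      simp [e] at hd
    have hjk : j ≠ k := by
      intro e
      simp [e] at hd
    have hjl : j ∉ k :: l' := by
      intro e
      have := (List.nodup_cons.1 (List.nodup_cons.1 hd).2).1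
      exact this e
    have hF : (k :: l').formPerm j = j := List.formPerm_apply_of_notMem hjl
    have himg : (h :: j :: k :: l').formPerm j = k := by
      rw [List.formPerm_cons_cons, List.formPerm_cons_cons, Equiv.Perm.mul_apply,
        Equiv.Perm.mul_apply, hF, Equiv.swap_apply_left,
        Equiv.swap_apply_of_ne_of_ne hhk.symm hjk.symm]
    rw [himg, List.formPerm_cons_cons, List.formPerm_cons_cons, List.formPerm_cons_cons,
      ← mul_assoc, ← mul_assoc]
    congr 1
    ext z
    simp only [Equiv.Perm.mul_apply, Equiv.swap_apply_def]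
    split_ifs <;> simp_all

theorem fp_commute (l₁ l₂ : List α) (hd : (l₁ ++ l₂).Nodup) :
    Commute l₁.formPerm l₂.formPerm := by
  apply Equiv.Perm.Disjoint.commute
  intro x
  by_cases hx : x ∈ l₁
  · right
    refine List.formPerm_apply_of_notMem ?_
    intro h
    exact (List.nodup_append.1 hd).2.2 _ hx _ h rfl
  · left
    exact List.formPerm_apply_of_notMem hx

theorem fps_perm {ls ls' : List (List α)} (h : ls.Perm ls') (hd : ls.flatten.Nodup) :
    (ls.map formPerm).prod = (ls'.map formPerm).prod := by
  induction h with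
  | nil => rfl
  | cons x h ih =>
    rw [List.flatten_cons, List.nodup_append] at hd
    rw [List.map_cons, List.map_cons, List.prod_cons, List.prod_cons, ih hd.2.1]
  | swap x y l =>
    have hc : Commute y.formPerm x.formPerm := by
      apply fp_commute
      rw [List.flatten_cons, List.flatten_cons, ← List.append_assoc, List.nodup_append] at hd
      exact hd.1
    simp only [List.map_cons, List.prod_cons]
    rw [← mul_assoc, ← mul_assoc, hc.eq]
  | trans h₁ h₂ ih₁ ih₂ =>
    rw [ih₁ hd, ih₂ ((List.Perm.flatten h₁).nodup_iff.1 hd)]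

theorem fps_apply_notMem (ls : List (List α)) (x : α) (hx : x ∉ ls.flatten) :
    (ls.map formPerm).prod x = x := by
  induction ls with
  | nil => simp
  | cons l t ih =>
    rw [List.flatten_cons, List.mem_append, not_or] at hx
    rw [List.map_cons, List.prod_cons, Equiv.Perm.mul_apply, ih hx.2,
      List.formPerm_apply_of_notMem hx.1]

theorem fps_apply_mem (ls : List (List α)) (hd : ls.flatten.Nodup) (l : List α) (hl : l ∈ ls)
    (x : α) (hx : x ∈ l) : (ls.map formPerm).prod x = l.formPerm x := by
  induction ls with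
  | nil => simp at hl
  | cons l' t ih =>
    rw [List.flatten_cons, List.nodup_append] at hd
    rw [List.map_cons, List.prod_cons, Equiv.Perm.mul_apply]
    rcases List.mem_cons.1 hl with rfl | hl
    · rw [fps_apply_notMem t x (fun h => hd.2.2 _ hx _ h rfl)]
    · rw [ih hd.2.1 hl]
      have hm : l.formPerm x ∈ l := List.formPerm_mem_iff_mem.2 hx
      refine List.formPerm_apply_of_notMem ?_
      intro h
      exact hd.2.2 _ h _ (List.mem_flatten.2 ⟨l, hl, hm⟩) rfl

end Pool.Agent.Lib.MP_3d915a_al
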