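import Pool.Agent.Lib.MP_3d915a_al.SCL.Words

/-!
Module SCL-Indep: `GS` depends only on the elements of the group.

Put `u ~ u'` if for all `v ≠ []`, `ws`, `t`: `GS ((u ++ v) :: ws) t ↔ GS ((u' ++ v) :: ws) t`. This is a congruence on lists of pairs (`Con (FreeMonoid (ℤ × ℤ))`): equivalence: clear; `u₁ ~ u₁'`, `u₂ ~ u₂'` imply
`u₁ ++ u₂ ~ u₁' ++ u₂'`: `(u₁ ++ (u₂ ++ v))` ~ `(u₁' ++ (u₂ ++ v))`, rotate (`gs_rot`, both directions) to `u₂ ++ (v ++ u₁')`, ~ `u₂' ++ (v ++ u₁')`, rotate back.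
Relations: `[(x,0)] ++ [(y,q)] ~ [(x+y,q)]` (`gs_A`), `[(x,q)] ++ [(0,r)] ~ [(x,q+r)]` (`gs_B`), `[(0,0)] ~ []` (`v = (x,q) :: v'`: `gs_A` with `0 + x`).
In the quotient monoid `Q`: `α x = class of [(x,0)]` and `β q = class of [(0,q)]` satisfy `α (x+y) = α x * α y`, `α 0 = 1`, the same for `β`, and `class of [(x,q)] = α x * β q`. So `α 1`, `β 1` are units with `(α 1)^x = α x` in the
units (`x : ℤ`; e.g. `MonoidHom.toHomUnits` of the homomorphism `Multiplicative ℤ →* Q`), and `φ = FreeGroup.lift ![α 1, β 1] : F2 →* Qˣ` satisfies `φ (ev u) = class of u` for every `u` (induction on `u`).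
So `ev u = ev u'` implies `u ~ u'`. Finally for `u ≠ []`: `GS (u :: ws) t ↔ GS ((u ++ [(0,0)]) :: ws) t`: write `u = u₀ ++ [(x,q)]`, rotate to `(x,q) :: u₀`; `((x,q) :: (0,0) :: u₀)` by `gs_B` (`q + 0 = q`); rotate back.
-/

namespace Pool.Agent.Lib.MP_3d915a_al

open Equiv List

/-- the lists may be exchanged at the beginning of a longer word -/
private def InRel (u u' : List (ℤ × ℤ)) : Prop :=
  ∀ v : List (ℤ × ℤ), v ≠ [] → ∀ (ws : List (List (ℤ × ℤ))) (t : ℤ),
    GS ((u ++ v) :: ws) t ↔ GS ((u' ++ v) :: ws) t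

private lemma in_rot (u v : List (ℤ × ℤ)) (ws : List (List (ℤ × ℤ))) (t : ℤ) :
    GS ((u ++ v) :: ws) t ↔ GS ((v ++ u) :: ws) t := ⟨gs_rot, gs_rot⟩

private lemma in_mul {a b c d : List (ℤ × ℤ)} (h1 : InRel a b) (h2 : InRel c d) :
    InRel (a ++ c) (b ++ d) := by
  intro v hv ws t
  have hcv : c ++ v ≠ [] := by
    intro h
    exact hv (List.append_eq_nil_iff.1 h).2
  have hvb : v ++ b ≠ [] := by
    intro h
    exact hv (List.append_eq_nil_iff.1 h).1
  rw [List.append_assoc, List.append_assoc, h1 _ hcv, in_rot b (c ++ v), List.append_assoc,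
    h2 _ hvb, ← List.append_assoc, in_rot (d ++ v) b]

/-- the congruence -/
private def inCon : Con (FreeMonoid (ℤ × ℤ)) where
  r := fun u u' => InRel (FreeMonoid.toList u) (FreeMonoid.toList u')
  iseqv := ⟨fun _ _ _ _ _ => Iff.rfl, fun h v hv ws t => (h v hv ws t).symm,
    fun h1 h2 v hv ws t => (h1 v hv ws t).trans (h2 v hv ws t)⟩
  mul' := fun h1 h2 => in_mul h1 h2

/-- the class of a list -/
private def inCl (u : List (ℤ × ℤ)) : inCon.Quotient :=
  inCon.mk' (FreeMonoid.ofList u)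

private lemma inCl_eq {u u' : List (ℤ × ℤ)} : inCl u = inCl u' ↔ InRel u u' := by
  unfold inCl
  rw [Con.coe_mk', Con.eq]
  rfl

private lemma inCl_append (u u' : List (ℤ × ℤ)) : inCl (u ++ u') = inCl u * inCl u' := by
  unfold inCl
  rw [FreeMonoid.ofList_append, map_mul]

private lemma inCl_nil : inCl [] = 1 := by
  unfold inCl
  rw [FreeMonoid.ofList_nil, map_one]

private lemma inCl_zero : inCl [(0, 0)] = 1 := by
  rw [← inCl_nil, inCl_eq]
  intro v hv ws t
  obtain ⟨⟨x, q⟩, v', rfl⟩ := List.exists_cons_of_ne_nil hv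
  have h := gs_A (x := 0) (y := x) (q := q) (u := v') (ws := ws) (t := t)
  rw [zero_add] at h
  exact h

private def inα : Multiplicative ℤ →* inCon.Quotient where
  toFun := fun x => inCl [(Multiplicative.toAdd x, 0)]
  map_one' := by
    rw [toAdd_one]
    exact inCl_zero
  map_mul' := by
    intro x y
    rw [← inCl_append, toAdd_mul]
    refine (inCl_eq.2 ?_).symm
    intro v _ ws t
    exact gs_A

private def inβ : Multiplicative ℤ →* inCon.Quotient where
  toFun := fun x => inCl [(0, Multiplicative.toAdd x)]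
  map_one' := by
    rw [toAdd_one]
    exact inCl_zero
  map_mul' := by
    intro x y
    rw [← inCl_append, toAdd_mul]
    refine (inCl_eq.2 ?_).symm
    intro v _ ws t
    exact gs_B

private lemma inCl_pair (x q : ℤ) :
    inCl [(x, q)] = inα (Multiplicative.ofAdd x) * inβ (Multiplicative.ofAdd q) := by
  change inCl [(x, q)] = inCl [(x, 0)] * inCl [(0, q)]
  rw [← inCl_append]
  refine (inCl_eq.2 ?_).symm
  intro v _ ws t
  have h := gs_A (x := x) (y := 0) (q := q) (u := v) (ws := ws) (t := t)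
  rw [add_zero] at h
  exact h

private def inφ : F2 →* (inCon.Quotient)ˣ :=
  FreeGroup.lift (fun i : Fin 2 => if i = 0 then inα.toHomUnits (Multiplicative.ofAdd 1)
    else inβ.toHomUnits (Multiplicative.ofAdd 1))

private lemma inφ_el (q : ℤ × ℤ) : ((inφ (el q) : (inCon.Quotient)ˣ) : inCon.Quotient) =
    inCl [q] := by
  obtain ⟨x, y⟩ := q
  have h0 : inφ (FreeGroup.of 0) = inα.toHomUnits (Multiplicative.ofAdd 1) := by
    unfold inφ
    rw [FreeGroup.lift_apply_of, if_pos rfl]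
  have h1 : inφ (FreeGroup.of 1) = inβ.toHomUnits (Multiplicative.ofAdd 1) := by
    unfold inφ
    rw [FreeGroup.lift_apply_of, if_neg (by decide)]
  have hx : (Multiplicative.ofAdd (1 : ℤ)) ^ x = Multiplicative.ofAdd x := by
    rw [← ofAdd_zsmul, smul_eq_mul, mul_one]
  have hy : (Multiplicative.ofAdd (1 : ℤ)) ^ y = Multiplicative.ofAdd y := by
    rw [← ofAdd_zsmul, smul_eq_mul, mul_one]
  have ha : inα.toHomUnits (Multiplicative.ofAdd 1) ^ x =
      inα.toHomUnits (Multiplicative.ofAdd x) := by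
    rw [← hx, map_zpow inα.toHomUnits]
  have hb : inβ.toHomUnits (Multiplicative.ofAdd 1) ^ y =
      inβ.toHomUnits (Multiplicative.ofAdd y) := by
    rw [← hy, map_zpow inβ.toHomUnits]
  unfold el
  rw [map_mul, map_zpow, map_zpow, h0, h1]
  change ((inα.toHomUnits (Multiplicative.ofAdd 1) ^ x *
    inβ.toHomUnits (Multiplicative.ofAdd 1) ^ y : (inCon.Quotient)ˣ) : inCon.Quotient) = _
  rw [ha, hb, Units.val_mul, MonoidHom.coe_toHomUnits, MonoidHom.coe_toHomUnits, inCl_pair]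

private lemma inφ_ev (u : List (ℤ × ℤ)) : ((inφ (ev u) : (inCon.Quotient)ˣ) : inCon.Quotient) =
    inCl u := by
  induction u with
  | nil =>
    unfold ev
    rw [List.map_nil, List.prod_nil, map_one, Units.val_one, inCl_nil]
  | cons q u ih =>
    have h : ev (q :: u) = el q * ev u := by
      unfold ev
      rw [List.map_cons, List.prod_cons]
    rw [h, map_mul, Units.val_mul, ih, inφ_el, ← inCl_append]
    rfl

private lemma in_main {u u' : List (ℤ × ℤ)} (he : ev u = ev u') : InRel u u' := by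
  rw [← inCl_eq, ← inφ_ev, ← inφ_ev, he]

private lemma in_end {u : List (ℤ × ℤ)} {ws : List (List (ℤ × ℤ))} {t : ℤ} (hu : u ≠ []) :
    GS (u :: ws) t ↔ GS ((u ++ [(0, 0)]) :: ws) t := by
  obtain ⟨u0, ⟨x, q⟩, rfl⟩ : ∃ u0 a, u = u0 ++ [a] :=
    ⟨u.dropLast, u.getLast hu, (List.dropLast_append_getLast hu).symm⟩
  rw [in_rot u0 [(x, q)], List.append_assoc, in_rot u0 ([(x, q)] ++ [(0, 0)])]
  have h := gs_B (x := x) (q := q) (r := 0) (u := u0) (ws := ws) (t := t)
  rw [add_zero] at h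
  exact h.symm

theorem gs_indep {u u' : List (ℤ × ℤ)} {ws : List (List (ℤ × ℤ))} {t : ℤ} (hu : u ≠ [])
    (hu' : u' ≠ []) (he : ev u = ev u') (h : GS (u :: ws) t) : GS (u' :: ws) t := by
  rw [in_end hu'] 
  rw [in_end hu] at h
  exact (in_main he _ (by simp) ws t).1 h

end Pool.Agent.Lib.MP_3d915a_al
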