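import Pool.Agent.Lib.MP_3d915a_al.SCL.Indep

/-!
Module SCL-Lower: a product of `k` commutators has a surface with `-χ ≤ 2k - 1`.

`exists_word`: every element of `F2` is `ev u` for some `u ≠ []` (`FreeGroup.induction_on`; `ev (u ++ v) = ev u * ev v`, `of 0 = ev [(1,0)]`, `(of 0)⁻¹ = ev [(-1,0)]`, …, `1 = ev [(0,0)]`).
`gs_lower`: induction on `k` (the list of commutators, e.g. peel off the LAST one: `ev u = w * (x y x⁻¹ y⁻¹)`), generalizing `u`. `k = 0`: `ev u = 1 = ev [(0,0)]`; `gs_nil`, `gs_triv`: `GS [[(0,0)]] (-1)`; `gs_indep`.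
Step: let `uw, ux, uy, uX, uY` be non-empty words of `w, x, y, x⁻¹, y⁻¹`. IH: `GS [uw] (2k-1)`. `gs_triv`: `GS [[(0,0)], uw] (2k-2)`; `gs_indep` (`ev (ux ++ uX) = 1`): `GS [ux ++ uX, uw] (2k-2)`;
`gs_split`: `GS [ux, uX, uw] (2k-1)`; `gs_perm`: `GS [uX, ux, uw]`; `gs_indep`: `uX` and `uX ++ (uY ++ uy)` have the same value: `GS [uX ++ (uY ++ uy), ux, uw]`; `gs_rot` (twice if necessary) to `uy ++ uX ++ uY`
(`(uX ++ uY) ++ uy → uy ++ (uX ++ uY)`); `gs_perm`, `gs_merge` with `ux`: `GS [ux ++ (uy ++ uX ++ uY), uw] (2k)`; `gs_perm`, `gs_merge`: `GS [uw ++ (ux ++ …)] (2k+1)`; `gs_indep` to `u`. `2k + 1 = 2(k+1) - 1`.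
-/

namespace Pool.Agent.Lib.MP_3d915a_al

open Equiv List

private theorem lo_ev_append (u v : List (ℤ × ℤ)) : ev (u ++ v) = ev u * ev v := by
  simp [ev]

private theorem lo_ev_zero : ev [(0, 0)] = 1 := by
  simp [ev, el]

theorem exists_word (g : F2) : ∃ u : List (ℤ × ℤ), u ≠ [] ∧ ev u = g := by
  induction g using FreeGroup.induction_on with
  | C1 => exact ⟨[(0, 0)], by simp, lo_ev_zero⟩
  | of x =>
    fin_cases x
    · exact ⟨[(1, 0)], by simp, by simp [ev, el]⟩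
    · exact ⟨[(0, 1)], by simp, by simp [ev, el]⟩
  | inv_of x _ =>
    fin_cases x
    · exact ⟨[(-1, 0)], by simp, by simp [ev, el]⟩
    · exact ⟨[(0, -1)], by simp, by simp [ev, el]⟩
  | mul x y hx hy =>
    obtain ⟨u, hu, hu'⟩ := hx
    obtain ⟨v, hv, hv'⟩ := hy
    exact ⟨u ++ v, by simp [hu], by rw [lo_ev_append, hu', hv']⟩

theorem gs_lower {u : List (ℤ × ℤ)} (hu : u ≠ []) {k : ℕ} (h : ProdComm k (ev u)) :
    GS [u] (2 * k - 1) := by
  induction k generalizing u with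
  | zero =>
    obtain ⟨l, hl, hp⟩ := h
    rw [List.length_eq_zero_iff] at hl
    subst hl
    have h1 : ev u = 1 := by simpa using hp.symm
    have h2 : GS [[(0, 0)]] (-1) := by simpa using gs_triv gs_nil
    have h3 := gs_indep (u := [(0, 0)]) (u' := u) (by simp) hu (by rw [lo_ev_zero, h1]) h2
    simpa using h3
  | succ k ih =>
    obtain ⟨l, hl, hp⟩ := h
    have hne : l ≠ [] := by
      rintro rfl
      simp at hl
    obtain ⟨l', p, rfl⟩ : ∃ l' p, l = l' ++ [p] :=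
      ⟨l.dropLast, l.getLast hne, (List.dropLast_append_getLast hne).symm⟩
    have hl' : l'.length = k := by simpa using hl
    obtain ⟨x, y⟩ := p
    set w : F2 := (l'.map (fun p : F2 × F2 => p.1 * p.2 * p.1⁻¹ * p.2⁻¹)).prod with hw
    have hev : ev u = w * (x * y * x⁻¹ * y⁻¹) := by
      rw [← hp]
      simp [hw]
    obtain ⟨uw, uw0, uw1⟩ := exists_word w
    obtain ⟨ux, ux0, ux1⟩ := exists_word x
    obtain ⟨uy, uy0, uy1⟩ := exists_word y
    obtain ⟨uX, uX0, uX1⟩ := exists_word x⁻¹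
    obtain ⟨uY, uY0, uY1⟩ := exists_word y⁻¹
    have e0 : GS [uw] (2 * k - 1) := ih uw0 ⟨l', hl', by rw [uw1]⟩
    have e1 : GS [[(0, 0)], uw] (2 * k - 1 - 1) := gs_triv e0
    have e2 : GS [ux ++ uX, uw] (2 * k - 1 - 1) :=
      gs_indep (by simp) (by simp [ux0]) (by rw [lo_ev_zero, lo_ev_append, ux1, uX1]; simp) e1
    have e3 : GS [ux, uX, uw] (2 * k - 1 - 1 + 1) := gs_split ux0 uX0 e2
    have e4 : GS [uX, ux, uw] (2 * k - 1 - 1 + 1) := gs_perm e3 (List.Perm.swap _ _ _)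
    have e5 : GS [(uX ++ uY) ++ uy, ux, uw] (2 * k - 1 - 1 + 1) :=
      gs_indep uX0 (by simp [uX0]) (by rw [lo_ev_append, lo_ev_append, uY1, uy1]; simp) e4
    have e6 : GS [uy ++ (uX ++ uY), ux, uw] (2 * k - 1 - 1 + 1) := gs_rot e5
    have e7 : GS [ux, uy ++ (uX ++ uY), uw] (2 * k - 1 - 1 + 1) :=
      gs_perm e6 (List.Perm.swap _ _ _)
    have e8 : GS [ux ++ (uy ++ (uX ++ uY)), uw] (2 * k - 1 - 1 + 1 + 1) :=
      gs_merge ux0 (by simp [uy0]) e7
    have e9 : GS [uw, ux ++ (uy ++ (uX ++ uY))] (2 * k - 1 - 1 + 1 + 1) :=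
      gs_perm e8 (List.Perm.swap _ _ _)
    have e10 : GS [uw ++ (ux ++ (uy ++ (uX ++ uY)))] (2 * k - 1 - 1 + 1 + 1 + 1) :=
      gs_merge uw0 (by simp [ux0]) e9
    have e11 : GS [u] (2 * k - 1 - 1 + 1 + 1 + 1) :=
      gs_indep (by simp [uw0]) hu (by
        simp only [lo_ev_append, uw1, ux1, uy1, uX1, uY1]
        rw [hev]; group) e10
    have : (2 * ((k + 1 : ℕ) : ℤ) - 1) = 2 * k - 1 - 1 + 1 + 1 + 1 := by push_cast; ring
    rw [this]
    exact e11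

end Pool.Agent.Lib.MP_3d915a_al
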