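import Pool.Agent.Lib.MP_3d915a_al.SCL.Compact

/-!
Module SCL-Main: the theorem.

`SyllLE L g`: in some basis (an automorphism `θ`) `g` is a product of at most `L` factors `a^x b^y`.
`scl_equiv`: `cl (θ g) = cl g` (`pc_map` for `θ` and `θ.symm`), so `scl (θ g) = scl g` (`map_pow`).
`wf`: suppose the set of values is not well-founded: there is a strictly decreasing sequence of values (`Set.isWF_iff_no_descending_seq`: `∀ f : ℕ → ℝ, StrictAnti f → (∀ n, f (OrderDual.toDual n) ∈ s) → False` or similar); choose `g k`, `θ k`, `u k`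
  (length `≤ L`), `θ k (g k) = ev (u k)`; pad `u k` with `(0,0)` (`el (0,0) = 1`) to the length `L + 1`: `m k q = ((u k).getD q.val (0,0)).1`, `p k q = ((u k).getD q.val (0,0)).2` on `ZMod (L+1)`: `ev (wd (L+1) (m k) (p k)) = ev (u k)`;
  `θ (g)` is in the commutator subgroup, `abel`; `no_descent`.
`gap`: for `v : ℝ` let `V` be the set of values. If no element of `V` is `> v`: `ε = 1`. Otherwise `V ∩ Ioi v` is non-empty and well-founded: it has a minimum `w > v`; `ε = w - v`.
`scl_tendsto`: `cl (g^n)` is subadditive for `g` in the commutator subgroup (`pc_mul`), `Subadditive.tendsto_lim` (bounded below by `0`); `Subadditive.lim = sInf ((fun n => u n / n) '' Ici 1) = scl g`.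
-/

namespace Pool.Agent.Lib.MP_3d915a_al

open Filter

/-- in some basis `g` is a product of at most `L` factors `a^x b^y` -/
def SyllLE (L : ℕ) (g : F2) : Prop :=
  ∃ (θ : F2 ≃* F2) (u : List (ℤ × ℤ)), u.length ≤ L ∧ θ g = ev u

private theorem cl_equiv (θ : F2 ≃* F2) (g : F2) : cl (θ g) = cl g := by
  unfold cl
  congr 1
  ext k
  constructor
  · intro h
    have := pc_map θ.symm.toMonoidHom h
    simpa using this
  · intro h
    exact pc_map θ.toMonoidHom h

theorem scl_equiv (θ : F2 ≃* F2) (g : F2) : scl (θ g) = scl g := by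
  unfold scl
  refine iInf_congr fun n => ?_
  rw [← map_pow, cl_equiv]

private theorem pc_cl {g : F2} (hg : g ∈ commutator F2) : ProdComm (cl g) g :=
  Nat.sInf_mem (s := {k : ℕ | ProdComm k g}) (pc_of_mem hg)

private theorem cl_mul_le {g h : F2} (hg : g ∈ commutator F2) (hh : h ∈ commutator F2) :
    cl (g * h) ≤ cl g + cl h :=
  Nat.sInf_le (pc_mul (pc_cl hg) (pc_cl hh))

theorem scl_tendsto (g : F2) (hg : g ∈ commutator F2) :
    Tendsto (fun n : ℕ => (cl (g ^ n) : ℝ) / n) atTop (nhds (scl g)) := by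
  have hsub : Subadditive (fun n : ℕ => (cl (g ^ n) : ℝ)) := by
    intro m n
    show (cl (g ^ (m + n)) : ℝ) ≤ (cl (g ^ m) : ℝ) + (cl (g ^ n) : ℝ)
    rw [pow_add]
    exact_mod_cast cl_mul_le (Subgroup.pow_mem _ hg m) (Subgroup.pow_mem _ hg n)
  have hbdd : BddBelow (Set.range fun n : ℕ => (cl (g ^ n) : ℝ) / n) :=
    ⟨0, by rintro x ⟨n, rfl⟩; positivity⟩
  have hlim : hsub.lim = scl g := by
    rw [Subadditive.lim, scl, iInf]
    congr 1
    ext x
    constructor
    · rintro ⟨n, hn, rfl⟩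
      exact ⟨⟨n, hn⟩, rfl⟩
    · rintro ⟨n, rfl⟩
      exact ⟨n, n.pos, rfl⟩
  rw [← hlim]
  exact hsub.tendsto_lim hbdd

private theorem el_zero : el (0, 0) = 1 := by simp [el]

private theorem prod_range_getD (u : List (ℤ × ℤ)) : ∀ K : ℕ, u.length ≤ K →
    ((List.range K).map (fun q => el (u.getD q (0, 0)))).prod = (u.map el).prod := by
  induction u with
  | nil =>
    intro K _
    rw [List.map_nil, List.prod_nil]
    apply List.prod_eq_one
    intro x hx
    obtain ⟨q, _, rfl⟩ := List.mem_map.1 hx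
    simp [el_zero]
  | cons a u ih =>
    intro K hK
    obtain ⟨K', rfl⟩ : ∃ K', K = K' + 1 := ⟨K - 1, by simp at hK; omega⟩
    rw [List.range_succ_eq_map, List.map_cons, List.prod_cons, List.map_cons, List.prod_cons,
      List.map_map]
    have h1 := ih K' (by simpa using hK)
    rw [← h1]
    rfl

private theorem ev_pad (L : ℕ) (u : List (ℤ × ℤ)) (hu : u.length ≤ L) :
    ev (wd (L + 1) (fun q => (u.getD q.val (0, 0)).1) (fun q => (u.getD q.val (0, 0)).2)) =
      ev u := by
  rw [ev, ev, wd, List.map_map, ← prod_range_getD u (L + 1) (by omega)]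
  congr 1
  apply List.map_congr_left
  intro q hq
  have hq' : q < L + 1 := List.mem_range.1 hq
  simp only [Function.comp]
  have h1 : ((q : ZMod (L + 1))).val = q := ZMod.val_natCast_of_lt hq'
  rw [h1]

theorem values_wf (L : ℕ) :
    {x : ℝ | ∃ g ∈ commutator F2, SyllLE L g ∧ scl g = x}.IsWF := by
  rw [Set.isWF_iff_no_descending_seq]
  intro f hf hmem
  choose g hg hS hfg using hmem
  choose θ u hu hθ using hS
  have hev : ∀ k, ev (wd (L + 1) (fun q => ((u k).getD q.val (0, 0)).1)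
      (fun q => ((u k).getD q.val (0, 0)).2)) = θ k (g k) := fun k => by
    rw [ev_pad L (u k) (hu k), hθ k]
  have hcom : ∀ k, ev (wd (L + 1) (fun q => ((u k).getD q.val (0, 0)).1)
      (fun q => ((u k).getD q.val (0, 0)).2)) ∈ commutator F2 := fun k => by
    rw [hev k]
    obtain ⟨n, hn⟩ := pc_of_mem (hg k)
    exact mem_of_pc (pc_map (θ k).toMonoidHom hn)
  refine no_descent (L := L + 1) (fun k q => ((u k).getD q.val (0, 0)).1)
    (fun k q => ((u k).getD q.val (0, 0)).2) (fun k => ((abel _ _).1 (hcom k)).1)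
    (fun k => ((abel _ _).1 (hcom k)).2) ?_
  have h1 : (fun k => scl (ev (wd (L + 1) (fun q => ((u k).getD q.val (0, 0)).1)
      (fun q => ((u k).getD q.val (0, 0)).2)))) = f := by
    funext k
    rw [hev k, scl_equiv, hfg k]
  rw [h1]
  exact hf

theorem gap (L : ℕ) (v : ℝ) : ∃ ε : ℝ, 0 < ε ∧ ∀ g ∈ commutator F2, SyllLE L g →
    ¬ (v < scl g ∧ scl g < v + ε) := by
  set V : Set ℝ := {x : ℝ | ∃ g ∈ commutator F2, SyllLE L g ∧ scl g = x} with hV
  have hwf : (V ∩ Set.Ioi v).IsWF := (values_wf L).mono Set.inter_subset_left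
  by_cases hne : (V ∩ Set.Ioi v).Nonempty
  · have hmem := hwf.min_mem hne
    refine ⟨hwf.min hne - v, sub_pos.2 hmem.2, ?_⟩
    rintro g hg hS ⟨h1, h2⟩
    have h3 : hwf.min hne ≤ scl g := hwf.min_le hne ⟨⟨g, hg, hS, rfl⟩, h1⟩
    linarith
  · refine ⟨1, one_pos, ?_⟩
    rintro g hg hS ⟨h1, _⟩
    exact hne ⟨scl g, ⟨g, hg, hS, rfl⟩, h1⟩

end Pool.Agent.Lib.MP_3d915a_al
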