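import Pool.Agent.Lib.MP_3d915a_al.SCL.Bdl
import Pool.Agent.Lib.MP_3d915a_al.SCL.FPerm

/-!
Module SCL-QSwap: multiplying a permutation by a transposition.

`Cyc ls c`: `ls` is a list of disjoint non-empty lists covering `X` with `∏ formPerm = c` (so they are the cycles of `c`, in cyclic order).
Structure: let `ls` with `Cyc ls c`, `x ≠ y`. Let `l ∋ x`.
(1) `y ∈ l`. `ls` is a permutation of `l :: rest`; `l` is rotated to `l' = l₁ ++ l₂` with `l₁.getLast = x`, `l₂.getLast = y` (both non-empty): rotate `l` so that it ends with `y` (`l = a ++ y :: b`, `l' = b ++ a ++ [y]`), then split behind `x`.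
    `Cyc ((l₁ ++ l₂) :: rest) c` (`fps_perm`, `List.formPerm_eq_of_isRotated`). Then `Cyc (l₁ :: l₂ :: rest) (c * swap x y)`: `fp_append_last`: `formPerm (l₁ ++ l₂) = formPerm l₁ * formPerm l₂ * swap x y`, and `rest` fixes `x` and `y`
    (commutes with the swap).
(2) `y ∈ l₂ ≠ l`: rotate `l` to `l₁` ending with `x`, `l₂` to end with `y`: `Cyc (l₁ :: l₂ :: rest) c`, `Cyc ((l₁ ++ l₂) :: rest) (c * swap x y)`.
`cyc_exists`: `Equiv.Perm.swap_induction_on` (or its variant with right multiplication `swap_induction_on'`): `c = 1`: `ls = univ.toList.map ([·])`; step by the structure above (without words).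
`qp_swap`: under a permutation of `ls` the list of words is permuted (`bp_perm`); under rotation of the first list the first word is conjugated: `(b ++ a)` and `(a ++ b)`: `w_b w_a = w_b (w_a w_b) w_b⁻¹` (`bp_conj`).
Then `bp_split` in case (1) (`w (l₁ ++ l₂) = w l₁ * w l₂`), `bp_merge` in case (2).
-/

namespace Pool.Agent.Lib.MP_3d915a_al

open Equiv List

variable {X G : Type*} [DecidableEq X] [Group G]

private theorem cyc_perm {ls ls' : List (List X)} {c : Perm X} (h : Cyc ls c)
    (hp : ls.Perm ls') : Cyc ls' c where
  nodup := (hp.flatten).nodup_iff.1 h.nodup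
  cov := fun x => (hp.flatten).mem_iff.1 (h.cov x)
  ne := fun l hl => h.ne l (hp.mem_iff.2 hl)
  prod := by rw [← fps_perm hp h.nodup, h.prod]

private theorem cyc_rot {l l' : List X} {rest : List (List X)} {c : Perm X}
    (h : Cyc (l :: rest) c) (hr : l.IsRotated l') : Cyc (l' :: rest) c := by
  have hp : (l :: rest).flatten.Perm (l' :: rest).flatten := by
    rw [List.flatten_cons, List.flatten_cons]
    exact hr.perm.append_right _
  refine ⟨hp.nodup_iff.1 h.nodup, fun x => hp.mem_iff.1 (h.cov x), ?_, ?_⟩
  · intro m hm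
    rw [List.mem_cons] at hm
    rcases hm with rfl | hm
    · intro h0
      subst h0
      have := h.ne l List.mem_cons_self
      exact this (List.isRotated_nil_iff.1 hr)
    · exact h.ne m (List.mem_cons_of_mem _ hm)
  · have hn : l.Nodup := by
      have := h.nodup
      rw [List.flatten_cons] at this
      exact this.of_append_left
    rw [List.map_cons, List.prod_cons, ← List.formPerm_eq_of_isRotated hn hr, ← List.prod_cons,
      ← List.map_cons, h.prod]

omit [DecidableEq X] in
private theorem bp_rot {l l' : List X} {g : X → G} {ws : List G} {t : ℤ}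
    (hr : l.IsRotated l') (h : Bp ((l.map g).prod :: ws) t) : Bp ((l'.map g).prod :: ws) t := by
  obtain ⟨n, rfl⟩ := hr
  rw [List.rotate_eq_drop_append_take_mod]
  set k := n % l.length with hk
  have h1 : (l.map g).prod = ((l.take k).map g).prod * ((l.drop k).map g).prod := by
    rw [← List.prod_append, ← List.map_append, List.take_append_drop]
  have h2 : ((l.drop k ++ l.take k).map g).prod =
      ((l.drop k).map g).prod * (l.map g).prod * (((l.drop k).map g).prod)⁻¹ := by
    rw [h1, List.map_append, List.prod_append]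
    group
  rw [h2]
  exact bp_conj _ h

private theorem rest_comm {rest : List (List X)} {u v : X} (hu : u ∉ rest.flatten)
    (hv : v ∉ rest.flatten) :
    (rest.map formPerm).prod * swap u v = swap u v * (rest.map formPerm).prod := by
  rw [Equiv.mul_swap_eq_swap_mul, fps_apply_notMem rest u hu, fps_apply_notMem rest v hv]

private theorem cyc_split {s t : List X} {x y : X} {rest : List (List X)} {c : Perm X}
    (h : Cyc (((s ++ [x]) ++ (t ++ [y])) :: rest) c) :
    Cyc ((s ++ [x]) :: (t ++ [y]) :: rest) (c * swap x y) := by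
  have h1 : (s ++ [x]) ≠ [] := by simp
  have h2 : (t ++ [y]) ≠ [] := by simp
  have hn := h.nodup
  rw [List.flatten_cons] at hn
  have hf := fp_append_last (s ++ [x]) (t ++ [y]) h1 h2 hn.of_append_left
  rw [List.getLast_append_singleton, List.getLast_append_singleton] at hf
  have hd := List.disjoint_of_nodup_append hn
  have hx : x ∉ rest.flatten := fun hx => hd (by simp) hx
  have hy : y ∉ rest.flatten := fun hy => hd (by simp) hy
  refine ⟨?_, ?_, ?_, ?_⟩
  · rw [List.flatten_cons, List.flatten_cons, ← List.append_assoc]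
    exact hn
  · intro z
    have := h.cov z
    rw [List.flatten_cons] at this
    rw [List.flatten_cons, List.flatten_cons, ← List.append_assoc]
    exact this
  · intro m hm
    rw [List.mem_cons, List.mem_cons] at hm
    rcases hm with rfl | rfl | hm
    · exact h1
    · exact h2
    · exact h.ne m (List.mem_cons_of_mem _ hm)
  · rw [← h.prod, List.map_cons, List.map_cons, List.map_cons, List.prod_cons, List.prod_cons,
      List.prod_cons, hf]
    have hc := rest_comm hx hy
    calc (s ++ [x]).formPerm * ((t ++ [y]).formPerm * (rest.map formPerm).prod)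
        = (s ++ [x]).formPerm * (t ++ [y]).formPerm *
            ((rest.map formPerm).prod * (swap x y * swap x y)) := by
          rw [Equiv.swap_mul_self, mul_one, mul_assoc]
      _ = (s ++ [x]).formPerm * (t ++ [y]).formPerm *
            (((rest.map formPerm).prod * swap x y) * swap x y) := by
          rw [mul_assoc (rest.map formPerm).prod]
      _ = _ := by
          rw [hc]
          simp only [mul_assoc]

private theorem cyc_merge {s t : List X} {x y : X} {rest : List (List X)} {c : Perm X}
    (h : Cyc ((s ++ [x]) :: (t ++ [y]) :: rest) c) :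
    Cyc (((s ++ [x]) ++ (t ++ [y])) :: rest) (c * swap x y) := by
  have h1 : (s ++ [x]) ≠ [] := by simp
  have h2 : (t ++ [y]) ≠ [] := by simp
  have hn := h.nodup
  rw [List.flatten_cons, List.flatten_cons, ← List.append_assoc] at hn
  have hf := fp_append_last (s ++ [x]) (t ++ [y]) h1 h2 hn.of_append_left
  rw [List.getLast_append_singleton, List.getLast_append_singleton] at hf
  have hd := List.disjoint_of_nodup_append hn
  have hx : x ∉ rest.flatten := fun hx => hd (by simp) hx
  have hy : y ∉ rest.flatten := fun hy => hd (by simp) hy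
  refine ⟨?_, ?_, ?_, ?_⟩
  · rw [List.flatten_cons]
    exact hn
  · intro z
    have := h.cov z
    rw [List.flatten_cons, List.flatten_cons, ← List.append_assoc] at this
    rw [List.flatten_cons]
    exact this
  · intro m hm
    rw [List.mem_cons] at hm
    rcases hm with rfl | hm
    · simp
    · exact h.ne m (List.mem_cons_of_mem _ (List.mem_cons_of_mem _ hm))
  · rw [← h.prod, List.map_cons, List.map_cons, List.map_cons, List.prod_cons, List.prod_cons,
      List.prod_cons, hf]
    have hc := rest_comm hx hy
    simp only [mul_assoc]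
    rw [hc]

omit [DecidableEq X] in
private theorem rot_last {l : List X} {x : X} (hx : x ∈ l) :
    ∃ s : List X, l.IsRotated (s ++ [x]) := by
  obtain ⟨s, t, rfl⟩ := List.append_of_mem hx
  refine ⟨t ++ s, ?_⟩
  have h1 : s ++ x :: t = (s ++ [x]) ++ t := by simp
  have h2 : t ++ s ++ [x] = t ++ (s ++ [x]) := by simp
  rw [h1, h2]
  exact List.isRotated_append

/-- the structure of the cycles near two points; `P` is a property of the list of lists which is
invariant under permutations and rotations of the first list -/
private theorem struct (P : List (List X) → Prop) (hP : ∀ ls ls', ls.Perm ls' → P ls → P ls')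
    (hR : ∀ l l' rest, l.IsRotated l' → P (l :: rest) → P (l' :: rest))
    {ls : List (List X)} {c : Perm X} (h : Cyc ls c) (hp : P ls) {x y : X} (hxy : x ≠ y) :
    (∃ (s t : List X) (rest : List (List X)), P (((s ++ [x]) ++ (t ++ [y])) :: rest) ∧
      Cyc ((s ++ [x]) :: (t ++ [y]) :: rest) (c * swap x y)) ∨
    (∃ (s t : List X) (rest : List (List X)), P ((s ++ [x]) :: (t ++ [y]) :: rest) ∧
      Cyc (((s ++ [x]) ++ (t ++ [y])) :: rest) (c * swap x y)) := by
  obtain ⟨l, hl, hxl⟩ := List.mem_flatten.1 (h.cov x)
  obtain ⟨a, b, rfl⟩ := List.append_of_mem hl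
  have hp1 : (a ++ l :: b).Perm (l :: (a ++ b)) := List.perm_middle
  have h1 := cyc_perm h hp1
  have P1 := hP _ _ hp1 hp
  by_cases hyl : y ∈ l
  · left
    obtain ⟨m, hm⟩ := rot_last hyl
    have h2 := cyc_rot h1 hm
    have P2 := hR _ _ _ hm P1
    have hxm : x ∈ m := by
      have := hm.mem_iff.1 hxl
      rw [List.mem_append, List.mem_singleton] at this
      rcases this with h3 | h3
      · exact h3
      · exact absurd h3 hxy
    obtain ⟨s, t, rfl⟩ := List.append_of_mem hxm
    have e : s ++ x :: t ++ [y] = (s ++ [x]) ++ (t ++ [y]) := by simp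
    rw [e] at h2 P2
    exact ⟨s, t, _, P2, cyc_split h2⟩
  · right
    obtain ⟨l2, hl2, hyl2⟩ := List.mem_flatten.1 (h.cov y)
    have hl2' : l2 ∈ a ++ b := by
      have := hp1.mem_iff.1 hl2
      rw [List.mem_cons] at this
      rcases this with rfl | h3
      · exact absurd hyl2 hyl
      · exact h3
    obtain ⟨a', b', hab⟩ := List.append_of_mem hl2'
    rw [hab] at h1 P1
    have hp2 : (l :: (a' ++ l2 :: b')).Perm (l2 :: l :: (a' ++ b')) :=
      (List.Perm.cons l List.perm_middle).trans (List.Perm.swap _ _ _)
    have h2 := cyc_perm h1 hp2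
    have P2 := hP _ _ hp2 P1
    obtain ⟨t, ht⟩ := rot_last hyl2
    have h3 := cyc_rot h2 ht
    have P3 := hR _ _ _ ht P2
    have hp3 : ((t ++ [y]) :: l :: (a' ++ b')).Perm (l :: (t ++ [y]) :: (a' ++ b')) :=
      List.Perm.swap _ _ _
    have h4 := cyc_perm h3 hp3
    have P4 := hP _ _ hp3 P3
    obtain ⟨s, hs⟩ := rot_last hxl
    have h5 := cyc_rot h4 hs
    have P5 := hR _ _ _ hs P4
    exact ⟨s, t, _, P5, cyc_merge h5⟩

theorem cyc_exists [Fintype X] (c : Perm X) : ∃ ls : List (List X), Cyc ls c := by
  induction c using Equiv.Perm.swap_induction_on' with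
  | one =>
    refine ⟨(Finset.univ.toList).map (fun x => [x]), ?_, ?_, ?_, ?_⟩
    · have : ((Finset.univ.toList).map (fun x : X => [x])).flatten = Finset.univ.toList := by
        rw [← List.flatMap_def]
        simp
      rw [this]
      exact Finset.nodup_toList _
    · intro x
      rw [List.mem_flatten]
      exact ⟨[x], by simp, by simp⟩
    · intro l hl
      rw [List.mem_map] at hl
      obtain ⟨x, -, rfl⟩ := hl
      simp
    · rw [List.map_map]
      apply List.prod_eq_one
      intro f hf
      rw [List.mem_map] at hf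
      obtain ⟨x, -, rfl⟩ := hf
      simp
  | mul_swap f x y hxy ih =>
    obtain ⟨ls, h⟩ := ih
    rcases struct (fun _ => True) (fun _ _ _ _ => trivial) (fun _ _ _ _ _ => trivial) h trivial hxy
      with ⟨s, t, rest, -, h1⟩ | ⟨s, t, rest, -, h1⟩
    · exact ⟨_, h1⟩
    · exact ⟨_, h1⟩

theorem qp_swap {c : Perm X} {g : X → G} {t : ℤ} {x y : X} (hxy : x ≠ y) (h : Qp c g t) :
    Qp (c * swap x y) g (t + 1) := by
  obtain ⟨ls, hc, hb⟩ := h
  have hP : ∀ ls ls' : List (List X), ls.Perm ls' → Bp (ls.map (fun l => (l.map g).prod)) t →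
      Bp (ls'.map (fun l => (l.map g).prod)) t := fun ls ls' hp hb => bp_perm hb (hp.map _)
  have hR : ∀ (l l' : List X) (rest : List (List X)), l.IsRotated l' →
      Bp ((l :: rest).map (fun l => (l.map g).prod)) t →
      Bp ((l' :: rest).map (fun l => (l.map g).prod)) t := by
    intro l l' rest hr hb
    rw [List.map_cons] at hb ⊢
    exact bp_rot hr hb
  rcases struct (fun ls => Bp (ls.map (fun l => (l.map g).prod)) t) hP hR hc hb hxy
      with ⟨s, u, rest, h1, h2⟩ | ⟨s, u, rest, h1, h2⟩
  · refine ⟨_, h2, ?_⟩
    rw [List.map_cons, List.map_append, List.prod_append] at h1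
    exact bp_split h1
  · refine ⟨_, h2, ?_⟩
    rw [List.map_cons, List.map_append, List.prod_append]
    exact bp_merge h1

end Pool.Agent.Lib.MP_3d915a_al
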