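import Pool.Agent.Lib.MP_3d915a_al.SCL.Defs

/-!
Module SCL-Rank: the ranks of `T - 1`.

Write `T = tB π p`: `T e_x = 2^(p x) e_(π x)`; `range (T - 1)` is spanned by the vectors `v_x = 2^(p x) e_(π x) - e_x`
(for `tA`: `v_x = 2^(m (π x)) e_(π x) - e_x`).

`rk_swapA/B`: `T' = tB (swap x y * π) p`; `T' e_z` differs from `T e_z` only for `π z ∈ {x, y}`, by a multiple of `e_x - e_y`: so
  `range (T' - 1) ≤ range (T - 1) ⊔ span {e_x - e_y}`. For `tA`: `T' e_z - T e_z` is a multiple of `2^(m x) e_x - 2^(m y) e_y`.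
  (`Submodule.rank_add_le_rank_add_rank`, `rank_span_le`; cardinal arithmetic by `exact_mod_cast`/`Nat.cast_succ`.)
`rk_posA/B`: if `π j ≠ j` then `(T - 1) e_j ≠ 0`, so the rank is not `0` (`rank_zero_iff` / `Submodule.rank_eq_zero`).
`rk_skipB`: `i = π j`, `h = π⁻¹ j`, `π' = swap j i * π` (so `π' j = j`, `π' h = i`, the rest as before), `p' h = p h + p j`, `p' j = 0`.
  (If `h = i`, i.e. `π i = j`, then `π' i = i`; if `h ≠ i` also fine.) `v'_z = v_z` for `z ≠ j, h`; `v'_j = 0`; `v'_h = 2^(p h + p j) e_i - e_h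
  = v_h + 2^(p h) v_j`, where `v_j = 2^(p j) e_i - e_j`, `v_h = 2^(p h) e_j - e_h`. So `R' = range (T' - 1) ≤ R = range (T - 1)`, `R ≤ R' ⊔ span {v_j}`, and all
  vectors of `R'` have `j`-coordinate `0` (`π' z = j` only for `z = j`) while `v_j ∈ R` has `j`-coordinate `-1`: `R' < R`.
  `→`: `R` is finite-dimensional, `finrank R' < finrank R ≤ s + 1` (`Submodule.finrank_lt_finrank_of_lt`). `←`: `rank R ≤ rank R' + 1`.
`rk_skipA`: the same: `T = tA π m`, `v_h = 2^(m j) e_j - e_h`, `v_j = 2^(m i) e_i - e_j`, `m' i = m i + m j`, `m' j = 0`, `v'_h = 2^(m i + m j) e_i - e_h = v_h + 2^(m j) v_j`.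
  (If `h = i`: `v'_i = 2^(m i + m j) e_i - e_i = v_i + 2^(m j) v_j` with `v_i = 2^(m j) e_j - e_i`.) The other `v_z` do not change (`π z ≠ i, j`).
`rk_cycA/B`: let `R ⊆ U` contain exactly one point of every cycle of `π` inside `U` with label sum `0` (e.g. the smallest point of the cycle:
  filter of `U` by ``x` is the minimum of its cycle and the sum is zero`). Modulo `range (T - 1)`: `e_(π x) ≡ 2^(-p x) e_x`, so `e_(π^i x) ≡ 2^(-∑_{i'<i} p (π^i' x)) e_x`; for
  the period `k` of `x` (`Function.minimalPeriod`, finite because `U` is a finite set preserved by `π`): `e_x ≡ 2^(-s) e_x`, so `e_x ≡ 0` if the sum `s ≠ 0` (`2^(-s) ≠ 1`).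
  So `span {e_x : x ∈ U} ≤ range (T - 1) ⊔ span {e_x : x ∈ R}`, hence `#U ≤ s + #R`.
-/

namespace Pool.Agent.Lib.MP_3d915a_al

open Equiv Function

/-! ### a common generalisation of `tA` and `tB` -/

/-- `e_x ↦ w x e_(π x)` -/
private noncomputable def tC (π : Perm ℕ) (w : ℕ → ℚ) : (ℕ →₀ ℚ) →ₗ[ℚ] (ℕ →₀ ℚ) :=
  Finsupp.lsum ℚ (fun x => (w x) • Finsupp.lsingle (π x))

private lemma tC_single (π : Perm ℕ) (w : ℕ → ℚ) (x : ℕ) :
    tC π w (Finsupp.single x 1) = w x • Finsupp.single (π x) 1 := by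
  simp [tC]

private lemma tA_eq (π : Perm ℕ) (m : ℕ → ℤ) : tA π m = tC π (fun x => (2 : ℚ) ^ (m (π x))) := rfl

private lemma tB_eq (π : Perm ℕ) (p : ℕ → ℤ) : tB π p = tC π (fun x => (2 : ℚ) ^ (p x)) := rfl

private lemma range_sub_one (T : (ℕ →₀ ℚ) →ₗ[ℚ] (ℕ →₀ ℚ)) :
    LinearMap.range (T - 1) =
      Submodule.span ℚ (Set.range fun x : ℕ => (T - 1) (Finsupp.single x 1)) := by
  have h1 : (⊤ : Submodule ℚ (ℕ →₀ ℚ)) =
      Submodule.span ℚ (Set.range fun x : ℕ => (Finsupp.single x (1 : ℚ) : ℕ →₀ ℚ)) := by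
    have := (Finsupp.basisSingleOne (R := ℚ) (ι := ℕ)).span_eq
    rw [← this]
    congr 1
  rw [LinearMap.range_eq_map, h1, Submodule.map_span, ← Set.range_comp]
  first | done | rfl

theorem rk_mono {T : (ℕ →₀ ℚ) →ₗ[ℚ] (ℕ →₀ ℚ)} {s s' : ℕ} (h : RkLe T s) (hs : s ≤ s') :
    RkLe T s' := by
  unfold RkLe at *
  exact h.trans (by exact_mod_cast hs)

private lemma rk_oneC (w : ℕ → ℚ) (hw : ∀ x, w x = 1) : RkLe (tC 1 w) 0 := by
  unfold RkLe
  have h0 : tC 1 w - 1 = 0 := by
    apply Finsupp.lhom_ext'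
    intro x
    ext
    simp [tC, hw]
  rw [h0, LinearMap.range_zero]
  simp

theorem rk_one (m : ℕ → ℤ) (hm : ∀ x, m x = 0) : RkLe (tA 1 m) 0 ∧ RkLe (tB 1 m) 0 := by
  rw [tA_eq, tB_eq]
  exact ⟨rk_oneC _ (by intro x; simp [hm]), rk_oneC _ (by intro x; simp [hm])⟩

private lemma rk_posC {π : Perm ℕ} {w : ℕ → ℚ} {s : ℕ} {j : ℕ} (hj : π j ≠ j)
    (h : RkLe (tC π w) s) : 1 ≤ s := by
  by_contra hs
  have hs0 : s = 0 := by omega
  subst hs0
  unfold RkLe at h
  have h1 : Module.rank ℚ (LinearMap.range (tC π w - 1)) = 0 := by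
    simpa using h
  rw [Submodule.rank_eq_zero] at h1
  have h2 : (tC π w - 1) (Finsupp.single j 1) ∈ LinearMap.range (tC π w - 1) := ⟨_, rfl⟩
  rw [h1, Submodule.mem_bot] at h2
  have h3 : (tC π w - 1) (Finsupp.single j 1) j = -1 := by
    rw [LinearMap.sub_apply, tC_single, Module.End.one_apply]
    simp [hj]
  rw [h2] at h3
  norm_num at h3

theorem rk_posA {π : Perm ℕ} {m : ℕ → ℤ} {s : ℕ} {j : ℕ} (hj : π j ≠ j)
    (h : RkLe (tA π m) s) : 1 ≤ s := rk_posC hj (tA_eq π m ▸ h)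

theorem rk_posB {π : Perm ℕ} {m : ℕ → ℤ} {s : ℕ} {j : ℕ} (hj : π j ≠ j)
    (h : RkLe (tB π m) s) : 1 ≤ s := rk_posC hj (tB_eq π m ▸ h)

private lemma rank_sup_span_le (M : Submodule ℚ (ℕ →₀ ℚ)) (t : Finset (ℕ →₀ ℚ)) (s : ℕ)
    (h : Module.rank ℚ M ≤ (s : Cardinal)) :
    Module.rank ℚ (M ⊔ Submodule.span ℚ (t : Set (ℕ →₀ ℚ)) : Submodule ℚ (ℕ →₀ ℚ)) ≤
      ((s + t.card : ℕ) : Cardinal) := by
  refine (Submodule.rank_add_le_rank_add_rank _ _).trans ?_
  push_cast
  refine add_le_add h ?_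
  refine (rank_span_le _).trans ?_
  simp

private lemma rk_add_one {T T' : (ℕ →₀ ℚ) →ₗ[ℚ] (ℕ →₀ ℚ)} {s : ℕ} (u : ℕ →₀ ℚ)
    (hT : ∀ z, T' (Finsupp.single z 1) - T (Finsupp.single z 1) ∈ Submodule.span ℚ {u})
    (h : RkLe T s) : RkLe T' (s + 1) := by
  unfold RkLe at *
  have h1 := rank_sup_span_le _ {u} s h
  rw [Finset.coe_singleton, Finset.card_singleton] at h1
  refine le_trans (Submodule.rank_mono ?_) h1
  rw [range_sub_one T', Submodule.span_le]
  rintro _ ⟨z, rfl⟩
  have h2 : (T' - 1) (Finsupp.single z 1) = (T - 1) (Finsupp.single z 1) +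
      (T' (Finsupp.single z 1) - T (Finsupp.single z 1)) := by
    rw [LinearMap.sub_apply, LinearMap.sub_apply]; abel
  show (T' - 1) (Finsupp.single z 1) ∈ _
  rw [h2]
  exact Submodule.add_mem_sup ⟨_, rfl⟩ (hT z)

private lemma swap_diff (x y z : ℕ) (g : ℕ → (ℕ →₀ ℚ)) :
    g (swap x y z) - g z ∈ Submodule.span ℚ {g x - g y} := by
  rcases eq_or_ne z x with rfl | hx
  · rw [swap_apply_left]
    rw [← neg_sub (g z) (g y)]
    exact Submodule.neg_mem _ (Submodule.mem_span_singleton_self _)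
  · rcases eq_or_ne z y with rfl | hy
    · rw [swap_apply_right]
      exact Submodule.mem_span_singleton_self _
    · rw [swap_apply_of_ne_of_ne hx hy, sub_self]
      exact Submodule.zero_mem _

theorem rk_swapA {π : Perm ℕ} {m : ℕ → ℤ} {s : ℕ} (x y : ℕ) (h : RkLe (tA π m) s) :
    RkLe (tA (swap x y * π) m) (s + 1) := by
  refine rk_add_one ((2 : ℚ) ^ (m x) • Finsupp.single x 1 - (2 : ℚ) ^ (m y) • Finsupp.single y 1)
    (fun z => ?_) h
  have := swap_diff x y (π z) (fun a => (2 : ℚ) ^ (m a) • Finsupp.single a 1)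
  rw [tA_eq, tA_eq, tC_single, tC_single]
  exact this

theorem rk_swapB {π : Perm ℕ} {m : ℕ → ℤ} {s : ℕ} (x y : ℕ) (h : RkLe (tB π m) s) :
    RkLe (tB (swap x y * π) m) (s + 1) := by
  refine rk_add_one (Finsupp.single x 1 - Finsupp.single y 1) (fun z => ?_) h
  have := swap_diff x y (π z) (fun a => Finsupp.single a 1)
  rw [tB_eq, tB_eq, tC_single, tC_single, ← smul_sub]
  exact Submodule.smul_mem _ _ this

private lemma rk_skipC (π : Perm ℕ) (w w' : ℕ → ℚ) (s j : ℕ) (hj : π j ≠ j)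
    (hw1 : w' j = 1) (hw2 : w' (π⁻¹ j) = w (π⁻¹ j) * w j)
    (hw3 : ∀ z, z ≠ j → z ≠ π⁻¹ j → w' z = w z) :
    RkLe (tC π w) (s + 1) ↔ RkLe (tC (swap j (π j) * π) w') s := by
  set h := π⁻¹ j with hh
  have hπh : π h = j := by rw [hh]; simp
  have hhj : h ≠ j := by
    intro h1
    rw [h1] at hπh
    exact hj hπh
  set π' := swap j (π j) * π with hπ'
  have p1 : π' j = j := by simp [hπ']
  have p2 : π' h = π j := by simp [hπ', hπh]
  have p3 : ∀ z, z ≠ j → z ≠ h → π' z = π z := by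
    intro z h1 h2
    rw [hπ', Perm.mul_apply, swap_apply_of_ne_of_ne]
    · intro h3
      exact h2 (π.injective (h3.trans hπh.symm))
    · intro h3
      exact h1 (π.injective h3)
  set v : ℕ → (ℕ →₀ ℚ) := fun z => (tC π w - 1) (Finsupp.single z 1) with hv
  set v' : ℕ → (ℕ →₀ ℚ) := fun z => (tC π' w' - 1) (Finsupp.single z 1) with hv'
  have ev : ∀ z, v z = w z • Finsupp.single (π z) 1 - Finsupp.single z 1 := by
    intro z; simp only [hv]; rw [LinearMap.sub_apply, tC_single, Module.End.one_apply]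
  have ev' : ∀ z, v' z = w' z • Finsupp.single (π' z) 1 - Finsupp.single z 1 := by
    intro z; simp only [hv']; rw [LinearMap.sub_apply, tC_single, Module.End.one_apply]
  have q1 : v' j = 0 := by
    rw [ev', p1, hw1, one_smul, sub_self]
  have q2 : v' h = v h + w h • v j := by
    rw [ev', ev, ev, p2, hw2, hπh, smul_sub, smul_smul]
    abel
  have q3 : ∀ z, z ≠ j → z ≠ h → v' z = v z := by
    intro z h1 h2
    rw [ev', ev, p3 z h1 h2, hw3 z h1 h2]
  have R1 : LinearMap.range (tC π w - 1) = Submodule.span ℚ (Set.range v) := range_sub_one _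
  have R2 : LinearMap.range (tC π' w' - 1) = Submodule.span ℚ (Set.range v') := range_sub_one _
  have hle : Submodule.span ℚ (Set.range v') ≤ Submodule.span ℚ (Set.range v) := by
    rw [Submodule.span_le]
    rintro _ ⟨z, rfl⟩
    have hvm : ∀ z, v z ∈ Submodule.span ℚ (Set.range v) := fun z =>
      Submodule.subset_span ⟨z, rfl⟩
    show v' z ∈ _
    by_cases h1 : z = j
    · rw [h1, q1]; exact Submodule.zero_mem _
    · by_cases h2 : z = h
      · rw [h2, q2]
        exact Submodule.add_mem _ (hvm _) (Submodule.smul_mem _ _ (hvm _))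
      · rw [q3 z h1 h2]; exact hvm _
  have hge : Submodule.span ℚ (Set.range v) ≤
      Submodule.span ℚ (Set.range v') ⊔ Submodule.span ℚ (({v j} : Finset (ℕ →₀ ℚ)) : Set _) := by
    rw [Submodule.span_le]
    rintro _ ⟨z, rfl⟩
    have hvm : ∀ z, v' z ∈ Submodule.span ℚ (Set.range v') := fun z =>
      Submodule.subset_span ⟨z, rfl⟩
    have hvj : v j ∈ Submodule.span ℚ (({v j} : Finset (ℕ →₀ ℚ)) : Set (ℕ →₀ ℚ)) :=
      Submodule.subset_span (by simp)
    show v z ∈ _
    by_cases h1 : z = j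
    · rw [h1]
      exact Submodule.mem_sup_right hvj
    · by_cases h2 : z = h
      · have : v h = v' h + (-(w h)) • v j := by rw [q2]; simp
        rw [h2, this]
        exact Submodule.add_mem_sup (hvm _) (Submodule.smul_mem _ _ hvj)
      · rw [← q3 z h1 h2]; exact Submodule.mem_sup_left (hvm _)
  have hcoord : ∀ u ∈ Submodule.span ℚ (Set.range v'), u j = 0 := by
    intro u hu
    induction hu using Submodule.span_induction with
    | mem x hx =>
      obtain ⟨z, rfl⟩ := hx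
      show v' z j = 0
      by_cases h1 : z = j
      · rw [h1, q1]; rfl
      · have h2 : π' z ≠ j := by
          intro h3
          exact h1 (π'.injective (h3.trans p1.symm))
        rw [ev']
        simp [h1, h2]
    | zero => rfl
    | add x y _ _ hx hy => rw [Finsupp.add_apply, hx, hy, add_zero]
    | smul a x _ hx => rw [Finsupp.smul_apply, hx, smul_zero]
  have hvj1 : v j j = -1 := by
    rw [ev]
    simp [hj]
  have hlt : Submodule.span ℚ (Set.range v') < Submodule.span ℚ (Set.range v) := by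
    refine lt_of_le_of_ne hle ?_
    intro h1
    have h2 : v j ∈ Submodule.span ℚ (Set.range v') := by
      rw [h1]; exact Submodule.subset_span ⟨j, rfl⟩
    have h3 := hcoord _ h2
    rw [hvj1] at h3
    norm_num at h3
  unfold RkLe
  rw [R1, R2]
  constructor
  · intro h1
    have hfin : Module.rank ℚ (Submodule.span ℚ (Set.range v)) < Cardinal.aleph0 :=
      lt_of_le_of_lt h1 Cardinal.natCast_lt_aleph0
    have : FiniteDimensional ℚ (Submodule.span ℚ (Set.range v)) :=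
      Module.rank_lt_aleph0_iff.mp hfin
    have : FiniteDimensional ℚ (Submodule.span ℚ (Set.range v')) :=
      Submodule.finiteDimensional_of_le hle
    have h2 := Submodule.finrank_lt_finrank_of_lt hlt
    rw [← Module.finrank_eq_rank] at h1 ⊢
    have h3 : Module.finrank ℚ (Submodule.span ℚ (Set.range v)) ≤ s + 1 := by exact_mod_cast h1
    exact_mod_cast (by omega : Module.finrank ℚ (Submodule.span ℚ (Set.range v')) ≤ s)
  · intro h1
    have h2 := rank_sup_span_le _ {v j} s h1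
    rw [Finset.card_singleton] at h2
    exact (Submodule.rank_mono hge).trans h2

theorem rk_skipA (π : Perm ℕ) (m : ℕ → ℤ) (s j : ℕ) (hj : π j ≠ j) :
    RkLe (tA π m) (s + 1) ↔
      RkLe (tA (swap j (π j) * π) (update (update m (π j) (m (π j) + m j)) j 0)) s := by
  rw [tA_eq, tA_eq]
  have h2 : (2 : ℚ) ≠ 0 := by norm_num
  apply rk_skipC π _ _ s j hj
  · simp
  · have h3 : (swap j (π j) * π) (π⁻¹ j) = π j := by simp
    show (2 : ℚ) ^ (update (update m (π j) (m (π j) + m j)) j 0 ((swap j (π j) * π) (π⁻¹ j)))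
      = (2 : ℚ) ^ (m (π (π⁻¹ j))) * (2 : ℚ) ^ (m (π j))
    rw [h3, update_of_ne hj, update_self, zpow_add₀ h2]
    simp [mul_comm]
  · intro z h1 h3
    have h4 : π z ≠ j := by
      intro h5
      apply h3
      rw [← h5]; simp
    have h5 : π z ≠ π j := fun h6 => h1 (π.injective h6)
    have h6 : (swap j (π j) * π) z = π z := by
      rw [Perm.mul_apply, swap_apply_of_ne_of_ne h4 h5]
    show (2 : ℚ) ^ (update (update m (π j) (m (π j) + m j)) j 0 ((swap j (π j) * π) z))
      = (2 : ℚ) ^ (m (π z))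
    rw [h6, update_of_ne h4, update_of_ne h5]

theorem rk_skipB (π : Perm ℕ) (p : ℕ → ℤ) (s j : ℕ) (hj : π j ≠ j) :
    RkLe (tB π p) (s + 1) ↔
      RkLe (tB (swap j (π j) * π) (update (update p (π⁻¹ j) (p (π⁻¹ j) + p j)) j 0)) s := by
  rw [tB_eq, tB_eq]
  have h2 : (2 : ℚ) ≠ 0 := by norm_num
  have hj' : π⁻¹ j ≠ j := by
    intro h
    apply hj
    nth_rw 1 [← h]
    simp
  apply rk_skipC π _ _ s j hj
  · simp
  · show (2 : ℚ) ^ (update (update p (π⁻¹ j) (p (π⁻¹ j) + p j)) j 0 (π⁻¹ j))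
      = (2 : ℚ) ^ (p (π⁻¹ j)) * (2 : ℚ) ^ (p j)
    rw [update_of_ne hj', update_self, zpow_add₀ h2]
  · intro z h1 h3
    show (2 : ℚ) ^ (update (update p (π⁻¹ j) (p (π⁻¹ j) + p j)) j 0 z) = (2 : ℚ) ^ (p z)
    rw [update_of_ne h1, update_of_ne h3]

private lemma mod_step (π : Perm ℕ) (w : ℕ → ℚ) (n x : ℕ) :
    Finsupp.single x (1 : ℚ) - (∏ i ∈ Finset.range n, w ((π ^ i) x)) •
      Finsupp.single ((π ^ n) x) (1 : ℚ) ∈ LinearMap.range (tC π w - 1) := by
  induction n with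
  | zero => simp
  | succ n ih =>
    have h1 : (tC π w - 1) (Finsupp.single ((π ^ n) x) 1) ∈ LinearMap.range (tC π w - 1) :=
      ⟨_, rfl⟩
    rw [LinearMap.sub_apply, tC_single, Module.End.one_apply] at h1
    have h2 := Submodule.sub_mem _ ih
      (Submodule.smul_mem _ (∏ i ∈ Finset.range n, w ((π ^ i) x)) h1)
    have h3 : π ((π ^ n) x) = (π ^ (n + 1)) x := by rw [pow_succ', Perm.mul_apply]
    rw [Finset.prod_range_succ, ← h3]
    convert h2 using 1
    rw [smul_sub, smul_smul]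
    abel

private lemma mod_same (π : Perm ℕ) (w : ℕ → ℚ) (hw : ∀ x, w x ≠ 0) {x y : ℕ}
    (hxy : π.SameCycle x y) :
    ∃ c : ℚ, Finsupp.single x (1 : ℚ) - c • Finsupp.single y (1 : ℚ) ∈
      LinearMap.range (tC π w - 1) := by
  obtain ⟨i, hi⟩ := hxy
  rcases Int.eq_nat_or_neg i with ⟨n, rfl | rfl⟩
  · have := mod_step π w n x
    rw [zpow_natCast] at hi
    rw [hi] at this
    exact ⟨_, this⟩
  · have hi2 : (π ^ n) y = x := by
      rw [← hi, zpow_neg, zpow_natCast, ← Perm.mul_apply, mul_inv_cancel, Perm.one_apply]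
    have h1 := mod_step π w n y
    rw [hi2] at h1
    set c := ∏ i ∈ Finset.range n, w ((π ^ i) y) with hc
    have hc0 : c ≠ 0 := Finset.prod_ne_zero_iff.mpr fun i _ => hw _
    refine ⟨c⁻¹, ?_⟩
    have h2 := Submodule.smul_mem _ (-c⁻¹) h1
    convert h2 using 1
    rw [smul_sub, smul_smul]
    have : -c⁻¹ * c = -1 := by field_simp
    rw [this]
    simp only [neg_smul, one_smul]
    abel

private lemma rk_cycC {π : Perm ℕ} {w : ℕ → ℚ} {s : ℕ} (hw : ∀ x, w x ≠ 0)
    (Z : ℕ → Prop) (hZ : ∀ x, ¬ Z x → ∏ i ∈ Finset.range (minimalPeriod π x), w ((π ^ i) x) ≠ 1)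
    (U : Finset ℕ) (hU : ∀ x, x ∉ U → π x = x) (h : RkLe (tC π w) s) :
    ∃ R : Finset ℕ, R ⊆ U ∧ (∀ x ∈ R, Z x) ∧
      (∀ x ∈ R, ∀ y ∈ R, π.SameCycle x y → x = y) ∧ U.card ≤ s + R.card := by
  classical
  set R := U.filter (fun x => Z x ∧ ∀ y, π.SameCycle x y → x ≤ y) with hR
  refine ⟨R, Finset.filter_subset _ _, ?_, ?_, ?_⟩
  · intro x hx
    exact (Finset.mem_filter.mp hx).2.1
  · intro x hx y hy hxy
    exact le_antisymm ((Finset.mem_filter.mp hx).2.2 y hxy)
      ((Finset.mem_filter.mp hy).2.2 x hxy.symm)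
  · set M := LinearMap.range (tC π w - 1) with hM
    have key : ∀ x ∈ U, Finsupp.single x (1 : ℚ) ∈
        M ⊔ Submodule.span ℚ ((R.image fun r => (Finsupp.single r (1 : ℚ) : ℕ →₀ ℚ)) :
          Set (ℕ →₀ ℚ)) := by
      intro x hx
      obtain ⟨r, hr1, hr2⟩ : ∃ r, π.SameCycle x r ∧ ∀ y, π.SameCycle x y → r ≤ y := by
        have hne : ∃ r, π.SameCycle x r := ⟨x, Perm.SameCycle.refl _ _⟩
        exact ⟨Nat.find hne, Nat.find_spec hne, fun y hy => Nat.find_min' hne hy⟩
      have hrU : r ∈ U := by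
        by_contra hrU
        have h1 := hU r hrU
        have h2 : x = r := by
          obtain ⟨i, hi⟩ := hr1.symm
          rw [← hi]
          exact Function.IsFixedPt.perm_zpow h1 i
        exact hrU (h2 ▸ hx)
      obtain ⟨c, hc⟩ := mod_same π w hw hr1
      have hrm : Finsupp.single r (1 : ℚ) ∈
        M ⊔ Submodule.span ℚ ((R.image fun r => (Finsupp.single r (1 : ℚ) : ℕ →₀ ℚ)) :
          Set (ℕ →₀ ℚ)) := by
        by_cases hZr : Z r
        · apply Submodule.mem_sup_right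
          apply Submodule.subset_span
          rw [Finset.mem_coe, Finset.mem_image]
          refine ⟨r, ?_, rfl⟩
          rw [hR, Finset.mem_filter]
          exact ⟨hrU, hZr, fun y hy => hr2 y (hr1.trans hy)⟩
        · apply Submodule.mem_sup_left
          have h1 := mod_step π w (minimalPeriod π r) r
          have h2 : (π ^ (minimalPeriod π r)) r = r := by
            have := Function.isPeriodicPt_minimalPeriod π r
            rw [Function.IsPeriodicPt, Function.IsFixedPt, ← Perm.coe_pow] at this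
            exact this
          rw [h2] at h1
          set P := ∏ i ∈ Finset.range (minimalPeriod π r), w ((π ^ i) r) with hP
          have hP1 : P ≠ 1 := hZ r hZr
          have hP2 : (1 - P) ≠ 0 := sub_ne_zero.mpr (Ne.symm hP1)
          have h3 := Submodule.smul_mem _ (1 - P)⁻¹ h1
          have h4 : (1 - P)⁻¹ • (Finsupp.single r (1 : ℚ) - P • Finsupp.single r (1 : ℚ)) =
              Finsupp.single r (1 : ℚ) := by
            rw [show (Finsupp.single r (1 : ℚ) - P • Finsupp.single r (1 : ℚ) : ℕ →₀ ℚ) =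
              (1 - P) • Finsupp.single r (1 : ℚ) by rw [sub_smul, one_smul], smul_smul,
              inv_mul_cancel₀ hP2, one_smul]
          rw [h4] at h3
          exact h3
      have : Finsupp.single x (1 : ℚ) = (Finsupp.single x (1 : ℚ) - c • Finsupp.single r (1 : ℚ))
          + c • Finsupp.single r (1 : ℚ) := by abel
      rw [this]
      exact Submodule.add_mem _ (Submodule.mem_sup_left hc) (Submodule.smul_mem _ _ hrm)
    have hle : Submodule.span ℚ ((fun r => (Finsupp.single r (1 : ℚ) : ℕ →₀ ℚ)) '' (U : Set ℕ)) ≤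
        M ⊔ Submodule.span ℚ ((R.image fun r => (Finsupp.single r (1 : ℚ) : ℕ →₀ ℚ)) :
          Set (ℕ →₀ ℚ)) := by
      rw [Submodule.span_le]
      rintro _ ⟨x, hx, rfl⟩
      exact key x hx
    have hinj : Function.Injective fun r : ℕ => (Finsupp.single r (1 : ℚ) : ℕ →₀ ℚ) :=
      Finsupp.single_left_injective one_ne_zero
    have hli : LinearIndependent ℚ
        (fun r : ((fun r : ℕ => (Finsupp.single r (1 : ℚ) : ℕ →₀ ℚ)) '' (U : Set ℕ)) =>
          (r : ℕ →₀ ℚ)) := by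
      have h1 : LinearIndependent ℚ (fun r : ℕ => (Finsupp.single r (1 : ℚ) : ℕ →₀ ℚ)) := by
        have := (Finsupp.basisSingleOne (R := ℚ) (ι := ℕ)).linearIndependent
        convert this using 1
        ext r : 1
        simp
      exact (h1.linearIndepOn (s := (U : Set ℕ))).id_image
    have h1 := rank_span_set hli
    have h2 : Module.rank ℚ (Submodule.span ℚ
        ((fun r => (Finsupp.single r (1 : ℚ) : ℕ →₀ ℚ)) '' (U : Set ℕ))) = (U.card : Cardinal) := by
      rw [h1, Cardinal.mk_image_eq hinj]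
      simp
    have h3 := (Submodule.rank_mono hle).trans (rank_sup_span_le _ _ s h)
    rw [h2] at h3
    have h4 : U.card ≤ s + (R.image fun r => (Finsupp.single r (1 : ℚ) : ℕ →₀ ℚ)).card := by
      exact_mod_cast h3
    rw [Finset.card_image_of_injective _ hinj] at h4
    exact h4

private lemma two_zpow_ne_one {n : ℤ} (hn : n ≠ 0) : (2 : ℚ) ^ n ≠ 1 := by
  intro h
  have h1 : (2 : ℚ) ^ n = (2 : ℚ) ^ (0 : ℤ) := by rw [h, zpow_zero]
  exact hn (zpow_right_injective₀ (by norm_num) (by norm_num) h1)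

private lemma prod_zpow (a : ℕ → ℤ) (n : ℕ) :
    ∏ i ∈ Finset.range n, (2 : ℚ) ^ (a i) = (2 : ℚ) ^ (∑ i ∈ Finset.range n, a i) := by
  induction n with
  | zero => simp
  | succ n ih =>
    rw [Finset.prod_range_succ, Finset.sum_range_succ, ih, zpow_add₀ (by norm_num)]

theorem rk_cycA {π : Perm ℕ} {m : ℕ → ℤ} {s : ℕ} (U : Finset ℕ) (hU : ∀ x, x ∉ U → π x = x)
    (h : RkLe (tA π m) s) :
    ∃ R : Finset ℕ, R ⊆ U ∧
      (∀ x ∈ R, ∑ i ∈ Finset.range (minimalPeriod π x), m ((π ^ i) x) = 0) ∧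
      (∀ x ∈ R, ∀ y ∈ R, π.SameCycle x y → x = y) ∧ U.card ≤ s + R.card := by
  rw [tA_eq] at h
  refine rk_cycC (fun x => zpow_ne_zero _ (by norm_num))
    (fun x => ∑ i ∈ Finset.range (minimalPeriod π x), m ((π ^ i) x) = 0) (fun x hx => ?_) U hU h
  rw [prod_zpow (fun i => m (π ((π ^ i) x)))]
  apply two_zpow_ne_one
  have h2 : (π ^ (minimalPeriod π x)) x = x := by
    have := Function.isPeriodicPt_minimalPeriod π x
    rw [Function.IsPeriodicPt, Function.IsFixedPt, ← Perm.coe_pow] at this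
    exact this
  have h3 : ∑ i ∈ Finset.range (minimalPeriod π x), m (π ((π ^ i) x)) + m ((π ^ 0) x) =
      ∑ i ∈ Finset.range (minimalPeriod π x), m ((π ^ i) x) +
        m ((π ^ (minimalPeriod π x)) x) := by
    rw [← Finset.sum_range_succ, Finset.sum_range_succ' (fun i => m ((π ^ i) x))]
    congr 1
    apply Finset.sum_congr rfl
    intro i _
    rw [pow_succ', Perm.mul_apply]
  rw [h2, pow_zero, Perm.one_apply] at h3
  intro h4
  apply hx
  linarith

theorem rk_cycB {π : Perm ℕ} {m : ℕ → ℤ} {s : ℕ} (U : Finset ℕ) (hU : ∀ x, x ∉ U → π x = x)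
    (h : RkLe (tB π m) s) :
    ∃ R : Finset ℕ, R ⊆ U ∧
      (∀ x ∈ R, ∑ i ∈ Finset.range (minimalPeriod π x), m ((π ^ i) x) = 0) ∧
      (∀ x ∈ R, ∀ y ∈ R, π.SameCycle x y → x = y) ∧ U.card ≤ s + R.card := by
  rw [tB_eq] at h
  refine rk_cycC (fun x => zpow_ne_zero _ (by norm_num))
    (fun x => ∑ i ∈ Finset.range (minimalPeriod π x), m ((π ^ i) x) = 0) (fun x hx => ?_) U hU h
  rw [prod_zpow (fun i => m ((π ^ i) x))]
  exact two_zpow_ne_one hx

end Pool.Agent.Lib.MP_3d915a_al
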