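import Pool.Agent.Lib.MP_3d915a_al.SCL.QSwap

/-!
Module SCL-Realize: a matrix with constant row and column sums and a family of closed walks below it are given by a permutation.

Let `Z i j = Y i j - ∑_{l ∈ DA} cnt l i j` (natural subtraction, it is `≥ 0`).
Row sums: for a closed walk `l`, `∑_j cnt l i j = l.count i = ∑_j cnt l j i` (`l.zip (l.rotate 1)`: first components `l`, second components `l.rotate 1`, a permutation of `l`), so `∑_j Z i j = ∑_j Z j i` for every `i`.
The type of the elements `(i, j, _)` with `Z i j` elements over `(i, j)` has a permutation `e` with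
`source (e x) = target x` (`exists_equiv_of_fibers`), its cycles (`cyc_exists`) give closed walks `WB` with transition counts `Z`.
For the list `W = DA ++ WB` of closed walks take the positions of `W.flatten` and the lists with the shape of `W`
(`split_shape`); the transitions of their permutation are counted by `count_cyc`.
-/

namespace Pool.Agent.Lib.MP_3d915a_al

open Equiv List

theorem exists_equiv_of_fibers {A B κ : Type*} [Fintype A] [Fintype B] [DecidableEq κ]
    (f : A → κ) (g : B → κ)
    (h : ∀ q, (Finset.univ.filter (fun a => f a = q)).card =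
      (Finset.univ.filter (fun b => g b = q)).card) :
    ∃ e : A ≃ B, ∀ a, g (e a) = f a := by
  have hc : ∀ q, Nonempty ({a // f a = q} ≃ {b // g b = q}) := by
    intro q
    refine ⟨Fintype.equivOfCardEq ?_⟩
    rw [Fintype.card_subtype, Fintype.card_subtype]
    exact h q
  exact ⟨Equiv.ofFiberEquiv (fun q => (hc q).some), fun a => Equiv.ofFiberEquiv_map _ a⟩

private theorem sum_count_fst {κ : Type*} [Fintype κ] [DecidableEq κ] (P : List (κ × κ)) (i : κ) :
    ∑ j, P.count (i, j) = (P.map Prod.fst).count i := by
  induction P with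
  | nil => simp
  | cons p P ih =>
    obtain ⟨a, b⟩ := p
    simp only [List.count_cons, List.map_cons, Finset.sum_add_distrib, ih]
    congr 1
    by_cases h : a = i
    · subst h
      simp
    · simp [h]

private theorem sum_count_snd {κ : Type*} [Fintype κ] [DecidableEq κ] (P : List (κ × κ)) (i : κ) :
    ∑ j, P.count (j, i) = (P.map Prod.snd).count i := by
  induction P with
  | nil => simp
  | cons p P ih =>
    obtain ⟨a, b⟩ := p
    simp only [List.count_cons, List.map_cons, Finset.sum_add_distrib, ih]
    congr 1
    by_cases h : b = i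
    · subst h
      simp
    · simp [h]

theorem sum_cnt_left {L : ℕ} [NeZero L] (l : List (ZMod L)) (i : ZMod L) :
    ∑ j, cnt l i j = l.count i := by
  unfold cnt
  rw [sum_count_fst, List.map_fst_zip (by simp)]

theorem sum_cnt_right {L : ℕ} [NeZero L] (l : List (ZMod L)) (i : ZMod L) :
    ∑ j, cnt l j i = l.count i := by
  unfold cnt
  rw [sum_count_snd, List.map_snd_zip (by simp)]
  exact (List.rotate_perm l 1).count_eq i

/-- `l` read along its own permutation is the rotated list -/
private theorem map_formPerm {X : Type*} [DecidableEq X] (l : List X) (hl : l.Nodup) :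
    l.map l.formPerm = l.rotate 1 := by
  apply List.ext_getElem
  · simp
  · intro n h1 h2
    rw [List.getElem_map, List.formPerm_apply_getElem _ hl, List.getElem_rotate]

private theorem sum_count_flatten {X κ : Type*} [BEq κ] (f : X → κ) (q : κ)
    (ls : List (List X)) :
    (ls.map (fun l => (l.map f).count q)).sum = (ls.flatten.map f).count q := by
  induction ls with
  | nil => simp
  | cons l t ih =>
    rw [List.map_cons, List.sum_cons, ih, List.flatten_cons, List.map_append, List.count_append]

/-- number of transitions of a permutation, by its cycles -/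
private theorem count_cyc {X : Type*} [Fintype X] [DecidableEq X] {L : ℕ} (r : X → ZMod L)
    {ls : List (List X)} {c : Perm X} (h : Cyc ls c) (i j : ZMod L) :
    (Finset.univ.filter (fun x => r x = i ∧ r (c x) = j)).card =
      (ls.map (fun l => cnt (l.map r) i j)).sum := by
  have hl : ∀ l ∈ ls, cnt (l.map r) i j = (l.map (fun x => (r x, r (c x)))).count (i, j) := by
    intro l hl
    have hn : l.Nodup := (List.nodup_flatten.1 h.nodup).1 l hl
    unfold cnt
    rw [← List.map_rotate, ← map_formPerm l hn, List.map_map, List.zip_map']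
    congr 1
    apply List.map_congr_left
    intro x hx
    have := fps_apply_mem ls h.nodup l hl x hx
    rw [h.prod] at this
    simp [this]
  rw [List.map_congr_left hl, sum_count_flatten]
  have hu : ls.flatten.toFinset = Finset.univ := by
    ext x
    simp only [List.mem_toFinset, Finset.mem_univ, iff_true]
    exact h.cov x
  rw [← hu, List.count_eq_length_filter, List.filter_map, List.length_map]
  rw [← List.toFinset_card_of_nodup (h.nodup.filter _)]
  congr 1
  ext x
  rw [Finset.mem_filter, List.mem_toFinset, List.mem_toFinset, List.mem_filter]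
  simp only [Function.comp_def, beq_iff_eq, Prod.mk.injEq]

private theorem split_shape {α β : Type*} (r : α → β) : ∀ (W : List (List β)) (M : List α),
    M.map r = W.flatten → ∃ ls : List (List α), ls.flatten = M ∧ ls.map (List.map r) = W := by
  intro W
  induction W with
  | nil =>
    intro M hM
    refine ⟨[], ?_, rfl⟩
    simp at hM
    simp [hM]
  | cons w W ih =>
    intro M hM
    rw [List.flatten_cons, List.map_eq_append_iff] at hM
    obtain ⟨M₁, M₂, h0, h1, h2⟩ := hM
    obtain ⟨ls, h3, h4⟩ := ih M₂ h2
    refine ⟨M₁ :: ls, ?_, ?_⟩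
    · rw [List.flatten_cons, h3, h0]
    · rw [List.map_cons, h1, h4]

/-- a list of non-empty lists is the list of the labels of the cycles of a permutation -/
private theorem exists_cyc {β : Type*} (W : List (List β)) (hW : ∀ l ∈ W, l ≠ []) :
    ∃ (N : ℕ) (r : Fin N → β) (ls : List (List (Fin N))),
      Cyc ls (ls.map formPerm).prod ∧ ls.map (List.map r) = W := by
  obtain ⟨ls, h3, h4⟩ := split_shape W.flatten.get W (List.finRange W.flatten.length)
    (List.map_get_finRange W.flatten)
  refine ⟨W.flatten.length, W.flatten.get, ls, ⟨?_, ?_, ?_, rfl⟩, h4⟩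
  · rw [h3]
    exact List.nodup_finRange _
  · intro x
    rw [h3]
    exact List.mem_finRange x
  · intro l hl h0
    have h5 : l.map W.flatten.get ∈ ls.map (List.map W.flatten.get) := List.mem_map_of_mem hl
    rw [h0, List.map_nil, h4] at h5
    exact hW _ h5 rfl

private theorem card_sigma_filter {κ : Type*} [Fintype κ] (Z : κ → ℕ) (P : κ → Prop)
    [DecidablePred P] :
    (Finset.univ.filter (fun x : (Σ q : κ, Fin (Z q)) => P x.1)).card =
      ∑ q with P q, Z q := by
  have : (Finset.univ.filter (fun x : (Σ q : κ, Fin (Z q)) => P x.1)) =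
      (Finset.univ.filter P).sigma (fun q => (Finset.univ : Finset (Fin (Z q)))) := by
    ext x
    simp
  rw [this, Finset.card_sigma]
  simp

/-- a matrix with equal row and column sums is a sum of closed walks -/
private theorem walks_of_matrix {L : ℕ} [NeZero L] (Z : ZMod L → ZMod L → ℕ)
    (h : ∀ i, ∑ j, Z i j = ∑ j, Z j i) :
    ∃ WB : List (List (ZMod L)), (∀ l ∈ WB, l ≠ []) ∧
      ∀ i j, (WB.map (fun l => cnt l i j)).sum = Z i j := by
  classical
  let A := Σ q : ZMod L × ZMod L, Fin (Z q.1 q.2)
  have h1 : ∀ k, (Finset.univ.filter (fun a : A => a.1.2 = k)).card =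
      (Finset.univ.filter (fun b : A => b.1.1 = k)).card := by
    intro k
    rw [card_sigma_filter (fun q : ZMod L × ZMod L => Z q.1 q.2) (fun q => q.2 = k),
      card_sigma_filter (fun q : ZMod L × ZMod L => Z q.1 q.2) (fun q => q.1 = k),
      Finset.sum_filter, Finset.sum_filter, Fintype.sum_prod_type, Fintype.sum_prod_type_right]
    simp only [Finset.sum_ite_eq', Finset.mem_univ, if_true]
    exact (h k).symm
  obtain ⟨e, he⟩ := exists_equiv_of_fibers (fun a : A => a.1.2) (fun b : A => b.1.1) h1
  obtain ⟨ls, hls⟩ := cyc_exists (X := A) e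
  refine ⟨ls.map (List.map (fun a : A => a.1.1)), ?_, ?_⟩
  · intro l hl
    rw [List.mem_map] at hl
    obtain ⟨l', hl', rfl⟩ := hl
    intro h0
    exact hls.ne l' hl' (List.map_eq_nil_iff.1 h0)
  · intro i j
    rw [List.map_map]
    have := count_cyc (fun a : A => a.1.1) hls i j
    rw [show ((fun l => cnt l i j) ∘ List.map (fun a : A => a.1.1)) =
      (fun l => cnt (l.map (fun a : A => a.1.1)) i j) from rfl, ← this]
    have h2 : (Finset.univ.filter (fun x : A => x.1.1 = i ∧ (e x).1.1 = j)) =
        (Finset.univ.filter (fun x : A => x.1 = (i, j))) := by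
      ext x
      simp only [Finset.mem_filter, Finset.mem_univ, true_and]
      rw [show (e x).1.1 = x.1.2 from he x, Prod.ext_iff]
    rw [h2, card_sigma_filter (fun q : ZMod L × ZMod L => Z q.1 q.2) (fun q => q = (i, j)),
      Finset.filter_eq']
    simp

theorem realize {L n : ℕ} [NeZero L] (Y : ZMod L → ZMod L → ℕ) (h1 : ∀ i, ∑ j, Y i j = n)
    (h2 : ∀ j, ∑ i, Y i j = n) (m : ZMod L → ℤ) (DA : List (List (ZMod L)))
    (hD : ∀ l ∈ DA, Walk m l) (hc : ∀ i j, (DA.map (fun l => cnt l i j)).sum ≤ Y i j) :
    ∃ (X : Type) (_ : Fintype X) (_ : DecidableEq X) (r : X → ZMod L) (c : Perm X)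
      (ls : List (List X)), Cyc ls c ∧
      (∀ i j, (Finset.univ.filter (fun x => r x = i ∧ r (c x) = j)).card = Y i j) ∧
      DA.length ≤ (ls.filter (fun l => (l.map (fun x => m (r x))).sum = 0)).length := by
  have hs : ∀ (D : List (List (ZMod L))) (i : ZMod L),
      ∑ j, (D.map (fun l => cnt l i j)).sum = ∑ j, (D.map (fun l => cnt l j i)).sum := by
    intro D i
    induction D with
    | nil => simp
    | cons l t ih =>
      simp only [List.map_cons, List.sum_cons, Finset.sum_add_distrib, ih, sum_cnt_left,
        sum_cnt_right]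
  have hZ : ∀ i, ∑ j, (Y i j - (DA.map (fun l => cnt l i j)).sum) =
      ∑ j, (Y j i - (DA.map (fun l => cnt l j i)).sum) := by
    intro i
    have e1 : ∑ j, (Y i j - (DA.map (fun l => cnt l i j)).sum) +
        ∑ j, (DA.map (fun l => cnt l i j)).sum = n := by
      rw [← Finset.sum_add_distrib, ← h1 i]
      exact Finset.sum_congr rfl (fun j _ => Nat.sub_add_cancel (hc i j))
    have e2 : ∑ j, (Y j i - (DA.map (fun l => cnt l j i)).sum) +
        ∑ j, (DA.map (fun l => cnt l j i)).sum = n := by
      rw [← Finset.sum_add_distrib, ← h2 i]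
      exact Finset.sum_congr rfl (fun j _ => Nat.sub_add_cancel (hc j i))
    have e3 := hs DA i
    omega
  obtain ⟨WB, hW1, hW2⟩ := walks_of_matrix _ hZ
  obtain ⟨N, r, ls, hcyc, h4⟩ := exists_cyc (DA ++ WB) (by
    intro l hl
    rw [List.mem_append] at hl
    rcases hl with hl | hl
    · exact (hD _ hl).1
    · exact hW1 _ hl)
  refine ⟨Fin N, inferInstance, inferInstance, r, (ls.map formPerm).prod, ls, hcyc, ?_, ?_⟩
  · intro i j
    rw [count_cyc r hcyc i j]
    have h6 : (ls.map (fun l => cnt (l.map r) i j)) =
        ((ls.map (List.map r)).map (fun l => cnt l i j)) := by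
      rw [List.map_map]
      rfl
    rw [h6, h4, List.map_append, List.sum_append, hW2]
    have := hc i j
    omega
  · have h7 : (ls.filter (fun l => (l.map (fun x => m (r x))).sum = 0)).length =
        ((DA ++ WB).filter (fun l => (l.map m).sum = 0)).length := by
      rw [← h4, List.filter_map, List.length_map]
      congr 1
      apply List.filter_congr
      intro l _
      simp only [Function.comp_def, List.map_map]
    rw [h7, List.filter_append, List.length_append]
    have h8 : DA.filter (fun l => (l.map m).sum = 0) = DA := by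
      rw [List.filter_eq_self]
      intro l hl
      simpa using (hD l hl).2
    rw [h8]
    omega

end Pool.Agent.Lib.MP_3d915a_al
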