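import Pool.Agent.Lib.MP_3d915a_al.SCL.Rank

/-!
Module SCL-State: moves for `St c m p s` (there are `πA πB = c` with total rank at most `s`).

Frequent identities: `πA⁻¹ * swap x y * c = swap (πA⁻¹ x) (πA⁻¹ y) * πB` and `πA * swap x y = swap (πA x) (πA y) * πA` (`Equiv.Perm.mul_swap_eq_swap_mul`-type lemmas,
or `Equiv.swap_mul_eq_mul_swap`, `Equiv.mul_swap_eq_swap_mul`). A product of a permutation with finite support by a swap has finite support. If `p j = 0` then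
`update (update p h (p h + p j)) j 0 = p`.

`st_swap`: `πA` the same, `πB' = swap (πA⁻¹ x) (πA⁻¹ y) * πB`, `rk_swapB`.
`fixB` (private, skip `j` in `B`): if `p j = 0`, `πA πB = c`, ranks `sA`, `sB`: there are `πA'`, `πB'` with `πA' πB' = c`, `πB' j = j`, ranks `sA'`, `sB'`, `sA' + sB' ≤ sA + sB`.
  If `πB j = k ≠ j`: `πB' = swap j k * πB` (rank `sB - 1`, `rk_skipB`, `rk_posB`), `πA' = πA * swap j k = swap (πA j) (πA k) * πA` (rank `sA + 1`).
`fixA` (private): the same if `m j = 0`, with `πA' j = j`: `πA' = swap j k * πA`, `k = πA j` (`rk_skipA`), `πB' = πA⁻¹ * swap j k * c = swap (πA⁻¹ j) (πA⁻¹ k) * πB`.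
`st_absA` (`p j = 0`, `i = c j ≠ j`, `c' = swap j i * c`, `m' i = m i + m j`, `m' j = 0`):
  `→`: by `fixB` `πB j = j`, so `πA j = πA (πB j) = i`. Take `πA' = swap j i * πA` (`rk_skipA`; `sA ≥ 1` by `rk_posA`), `πB' = πB`.
  `←`: given `πA πB = c'`, `c' j = j`, `m' j = 0`, `p j = 0`: by `fixB` `πB j = j`, so `πA j = j`. Take `swap j i * πA` and `πB`: product `swap j i * c' = c`, and `rk_skipA` for `swap j i * πA`
  (`(swap j i * πA) j = i`, `swap j i * (swap j i * πA) = πA`).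
`st_absB` (`m j = 0`, `h = c⁻¹ j`, `c' = swap j (c j) * c`, `p' h = p h + p j`, `p' j = 0`):
  `→`: by `fixA` `πA j = j`. Then `πB j ≠ j` (otherwise `c j = j`) and `πB h = j` (`πA (πB h) = c h = j`), so `πB⁻¹ j = h`. Take `πA`, `πB' = swap j (πB j) * πB` (`rk_skipB`);
  `πA * πB' = swap (πA j) (πA (πB j)) * c = swap j (c j) * c`.
  `←`: given `πA πB = c'`, `c' j = j`: by `fixA` `πA j = j`, so `πB j = j`. Take `πA` and `πB'' = πA⁻¹ * c = swap j (πA⁻¹ (c j)) * πB` (`πA⁻¹ * swap j (c j) * c'`); `πB'' j = πA⁻¹ (c j) ≠ j`,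
  `swap j (πB'' j) * πB'' = πB`, `πB''⁻¹ j = h`, `rk_skipB`.
`st_iso_all`: start with `πA`, `πB`. `{x | πA x ≠ x, x ∉ U}` is finite; induction on its cardinality: if it contains `j` then `fixA` for `j` (`m j = 0`) gives `πA' = swap j (πA j) * πA`, whose set of moved points is
  contained in the old one without `j` (state `fixA` with the additional conclusion `∀ x, πA x = x → πA' x = x`). When it is empty, `πA x = x` for `x ∉ U` and `πB x = πA⁻¹ (c x) = x`.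
-/

namespace Pool.Agent.Lib.MP_3d915a_al

open Equiv Function

private theorem ainv (f : Perm ℕ) (x : ℕ) : f (f⁻¹ x) = x := f.apply_symm_apply x

private theorem upd_eq {p : ℕ → ℤ} {j h : ℕ} (hj : p j = 0) :
    update (update p h (p h + p j)) j 0 = p := by
  funext x
  by_cases hx : x = j
  · subst hx
    rw [update_self, hj]
  · rw [update_of_ne hx]
    by_cases hx' : x = h
    · subst hx'
      rw [update_self, hj, add_zero]
    · rw [update_of_ne hx']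

private theorem fin_swap {π : Perm ℕ} (x y : ℕ) (h : {z | π z ≠ z}.Finite) :
    {z | (swap x y * π) z ≠ z}.Finite := by
  refine (h.union (Set.toFinite ({x, y} : Set ℕ))).subset ?_
  intro z hz
  by_contra hcon
  simp only [Set.mem_union, Set.mem_ofPred_eq, Set.mem_insert_iff, Set.mem_singleton_iff, not_or,
    not_not] at hcon
  obtain ⟨h1, h2, h3⟩ := hcon
  apply hz
  rw [Perm.mul_apply, h1, swap_apply_of_ne_of_ne h2 h3]

private theorem fixB {c πA πB : Perm ℕ} {m p : ℕ → ℤ} {sA sB j : ℕ} (hj : p j = 0)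
    (hfin : {x | πA x ≠ x}.Finite) (hc : πA * πB = c) (hA : RkLe (tA πA m) sA)
    (hB : RkLe (tB πB p) sB) :
    ∃ (πA' πB' : Perm ℕ) (sA' sB' : ℕ), {x | πA' x ≠ x}.Finite ∧ πA' * πB' = c ∧ πB' j = j ∧
      RkLe (tA πA' m) sA' ∧ RkLe (tB πB' p) sB' ∧ sA' + sB' ≤ sA + sB := by
  by_cases hk : πB j = j
  · exact ⟨πA, πB, sA, sB, hfin, hc, hk, hA, hB, le_rfl⟩
  · have h1 : 1 ≤ sB := rk_posB hk hB
    obtain ⟨t, rfl⟩ : ∃ t, sB = t + 1 := ⟨sB - 1, by omega⟩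
    have h2 := (rk_skipB πB p t j hk).mp hB
    rw [upd_eq hj] at h2
    refine ⟨πA * swap j (πB j), swap j (πB j) * πB, sA + 1, t, ?_, ?_, ?_, ?_, h2, by omega⟩
    · rw [mul_swap_eq_swap_mul]
      exact fin_swap _ _ hfin
    · rw [mul_assoc, swap_mul_self_mul, hc]
    · rw [Perm.mul_apply, swap_apply_right]
    · rw [mul_swap_eq_swap_mul]
      exact rk_swapA _ _ hA

private theorem fixA {c πA πB : Perm ℕ} {m p : ℕ → ℤ} {sA sB j : ℕ} (hj : m j = 0)
    (hfin : {x | πA x ≠ x}.Finite) (hc : πA * πB = c) (hA : RkLe (tA πA m) sA)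
    (hB : RkLe (tB πB p) sB) :
    ∃ (πA' πB' : Perm ℕ) (sA' sB' : ℕ), {x | πA' x ≠ x}.Finite ∧ πA' * πB' = c ∧ πA' j = j ∧
      RkLe (tA πA' m) sA' ∧ RkLe (tB πB' p) sB' ∧ sA' + sB' ≤ sA + sB ∧
      (∀ x, πA x = x → πA' x = x) := by
  by_cases hk : πA j = j
  · exact ⟨πA, πB, sA, sB, hfin, hc, hk, hA, hB, le_rfl, fun x hx => hx⟩
  · have h1 : 1 ≤ sA := rk_posA hk hA
    obtain ⟨t, rfl⟩ : ∃ t, sA = t + 1 := ⟨sA - 1, by omega⟩
    have h2 := (rk_skipA πA m t j hk).mp hA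
    rw [upd_eq hj] at h2
    refine ⟨swap j (πA j) * πA, swap (πA⁻¹ j) (πA⁻¹ (πA j)) * πB, t, sB + 1, fin_swap _ _ hfin,
      ?_, ?_, h2, rk_swapB _ _ hB, by omega, ?_⟩
    · rw [mul_assoc, ← mul_assoc πA, mul_swap_eq_swap_mul]
      simp only [ainv]
      rw [mul_assoc, swap_mul_self_mul, hc]
    · rw [Perm.mul_apply, swap_apply_right]
    · intro x hx
      have hxj : x ≠ j := by
        rintro rfl
        exact hk hx
      have hxk : x ≠ πA j := by
        rintro rfl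
        exact hk (πA.injective hx)
      rw [Perm.mul_apply, hx, swap_apply_of_ne_of_ne hxj hxk]

theorem st_mono {c : Perm ℕ} {m p : ℕ → ℤ} {s s' : ℕ} (h : St c m p s) (hs : s ≤ s') :
    St c m p s' := by
  obtain ⟨πA, πB, sA, sB, h1, h2, h3, h4, h5⟩ := h
  exact ⟨πA, πB, sA, sB, h1, h2, h3, h4, h5.trans hs⟩

theorem st_zero (m p : ℕ → ℤ) (hm : ∀ x, m x = 0) (hp : ∀ x, p x = 0) : St 1 m p 0 := by
  refine ⟨1, 1, 0, 0, ?_, by simp, (rk_one m hm).1, (rk_one p hp).2, by simp⟩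
  simp

theorem st_swap {c : Perm ℕ} {m p : ℕ → ℤ} {s : ℕ} (x y : ℕ) (h : St c m p s) :
    St (swap x y * c) m p (s + 1) := by
  obtain ⟨πA, πB, sA, sB, h1, h2, h3, h4, h5⟩ := h
  refine ⟨πA, swap (πA⁻¹ x) (πA⁻¹ y) * πB, sA, sB + 1, h1, ?_, h3, rk_swapB _ _ h4, by omega⟩
  rw [← mul_assoc, mul_swap_eq_swap_mul]
  simp only [ainv]
  rw [mul_assoc, h2]

theorem st_absA {c : Perm ℕ} {m p : ℕ → ℤ} {s j : ℕ} (hj : p j = 0) (hc : c j ≠ j) :
    St c m p (s + 1) ↔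
      St (swap j (c j) * c) (update (update m (c j) (m (c j) + m j)) j 0) p s := by
  constructor
  · rintro ⟨πA, πB, sA, sB, h1, h2, h3, h4, h5⟩
    obtain ⟨πA, πB, sA', sB', h1, h2, hBj, h3, h4, h6⟩ := fixB hj h1 h2 h3 h4
    have hAj : πA j = c j := by
      rw [← h2, Perm.mul_apply, hBj]
    have hne : πA j ≠ j := by rw [hAj]; exact hc
    have h7 : 1 ≤ sA' := rk_posA hne h3
    obtain ⟨t, rfl⟩ : ∃ t, sA' = t + 1 := ⟨sA' - 1, by omega⟩
    have h8 := (rk_skipA πA m t j hne).mp h3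
    rw [hAj] at h8
    exact ⟨swap j (c j) * πA, πB, t, sB', fin_swap _ _ h1, by rw [mul_assoc, h2], h8, h4, by omega⟩
  · rintro ⟨πA, πB, sA, sB, h1, h2, h3, h4, h5⟩
    obtain ⟨πA, πB, sA', sB', h1, h2, hBj, h3, h4, h6⟩ := fixB hj h1 h2 h3 h4
    have hAj : πA j = j := by
      have h7 : πA (πB j) = (swap j (c j) * c) j := by rw [← h2, Perm.mul_apply]
      rw [hBj, Perm.mul_apply, swap_apply_right] at h7
      exact h7
    have hj' : (swap j (c j) * πA) j = c j := by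
      rw [Perm.mul_apply, hAj, swap_apply_left]
    have hne : (swap j (c j) * πA) j ≠ j := by rw [hj']; exact hc
    have h8 := (rk_skipA (swap j (c j) * πA) m sA' j hne).mpr
      (by rw [hj', swap_mul_self_mul]; exact h3)
    refine ⟨swap j (c j) * πA, πB, sA' + 1, sB', fin_swap _ _ h1, ?_, h8, h4, by omega⟩
    rw [mul_assoc, h2, swap_mul_self_mul]

theorem st_absB {c : Perm ℕ} {m p : ℕ → ℤ} {s j : ℕ} (hj : m j = 0) (hc : c j ≠ j) :
    St c m p (s + 1) ↔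
      St (swap j (c j) * c) m (update (update p (c⁻¹ j) (p (c⁻¹ j) + p j)) j 0) s := by
  constructor
  · rintro ⟨πA, πB, sA, sB, h1, h2, h3, h4, h5⟩
    obtain ⟨πA, πB, sA', sB', h1, h2, hAj, h3, h4, h6, -⟩ := fixA hj h1 h2 h3 h4
    have hne : πB j ≠ j := by
      intro h
      apply hc
      rw [← h2, Perm.mul_apply, h, hAj]
    have hinv : πB⁻¹ j = c⁻¹ j := by
      rw [Perm.inv_eq_iff_eq]
      apply πA.injective
      rw [hAj, ← Perm.mul_apply, h2, ainv]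
    have h7 : 1 ≤ sB' := rk_posB hne h4
    obtain ⟨t, rfl⟩ : ∃ t, sB' = t + 1 := ⟨sB' - 1, by omega⟩
    have h8 := (rk_skipB πB p t j hne).mp h4
    rw [hinv] at h8
    refine ⟨πA, swap j (πB j) * πB, sA', t, h1, ?_, h3, h8, by omega⟩
    rw [← mul_assoc, mul_swap_eq_swap_mul, mul_assoc, h2, hAj, ← Perm.mul_apply πA, h2]
  · rintro ⟨πA, πB, sA, sB, h1, h2, h3, h4, h5⟩
    obtain ⟨πA, πB, sA', sB', h1, h2, hAj, h3, h4, h6, -⟩ := fixA hj h1 h2 h3 h4
    have hBj : πB j = j := by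
      apply πA.injective
      rw [hAj, ← Perm.mul_apply, h2, Perm.mul_apply, swap_apply_right]
    have hk : πA⁻¹ (c j) ≠ j := by
      intro h
      apply hc
      rw [Perm.inv_eq_iff_eq] at h
      rw [h, hAj]
    have hprod : πA * (swap j (πA⁻¹ (c j)) * πB) = c := by
      rw [← mul_assoc, mul_swap_eq_swap_mul, hAj, ainv, mul_assoc, h2,
        swap_mul_self_mul]
    have hj' : (swap j (πA⁻¹ (c j)) * πB) j = πA⁻¹ (c j) := by
      rw [Perm.mul_apply, hBj, swap_apply_left]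
    have hne : (swap j (πA⁻¹ (c j)) * πB) j ≠ j := by rw [hj']; exact hk
    have hinv : (swap j (πA⁻¹ (c j)) * πB)⁻¹ j = c⁻¹ j := by
      rw [Perm.inv_eq_iff_eq]
      apply πA.injective
      rw [hAj, ← Perm.mul_apply, hprod, ainv]
    have h8 := (rk_skipB (swap j (πA⁻¹ (c j)) * πB) p sB' j hne).mpr
      (by rw [hinv, hj', swap_mul_self_mul]; exact h4)
    exact ⟨πA, swap j (πA⁻¹ (c j)) * πB, sA', sB' + 1, h1, hprod, h3, h8, by omega⟩

private theorem iso_aux {c : Perm ℕ} {m p : ℕ → ℤ} (U : Finset ℕ)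
    (hU : ∀ x, x ∉ U → c x = x ∧ m x = 0 ∧ p x = 0) (n : ℕ) :
    ∀ (πA πB : Perm ℕ) (sA sB : ℕ) (V : Finset ℕ), (∀ x, πA x ≠ x → x ∉ U → x ∈ V) →
      V.card ≤ n → {x | πA x ≠ x}.Finite → πA * πB = c → RkLe (tA πA m) sA →
      RkLe (tB πB p) sB →
    ∃ (πA πB : Perm ℕ) (sA' sB' : ℕ), (∀ x, x ∉ U → πA x = x) ∧ (∀ x, x ∉ U → πB x = x) ∧
      πA * πB = c ∧ RkLe (tA πA m) sA' ∧ RkLe (tB πB p) sB' ∧ sA' + sB' ≤ sA + sB := by
  induction n with
  | zero =>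
    intro πA πB sA sB V hV hcard _ hc hA hB
    have hV0 : V = ∅ := Finset.card_eq_zero.mp (by omega)
    have h1 : ∀ x, x ∉ U → πA x = x := by
      intro x hx
      by_contra hne
      have := hV x hne hx
      rw [hV0] at this
      simp at this
    refine ⟨πA, πB, sA, sB, h1, ?_, hc, hA, hB, le_rfl⟩
    intro x hx
    apply πA.injective
    rw [← Perm.mul_apply, hc, (hU x hx).1, h1 x hx]
  | succ n ih =>
    intro πA πB sA sB V hV hcard hfin hc hA hB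
    by_cases hex : ∃ j, πA j ≠ j ∧ j ∉ U
    · obtain ⟨j, hj, hjU⟩ := hex
      obtain ⟨πA', πB', sA', sB', h1, h2, h3, h4, h5, h6, h7⟩ := fixA (hU j hjU).2.1 hfin hc hA hB
      obtain ⟨πA'', πB'', sA'', sB'', g1, g2, g3, g4, g5, g6⟩ := ih πA' πB' sA' sB' (V.erase j)
        (by
          intro x hx hxU
          refine Finset.mem_erase.mpr ⟨?_, hV x (fun h => hx (h7 x h)) hxU⟩
          rintro rfl
          exact hx h3)
        (by
          rw [Finset.card_erase_of_mem (hV j hj hjU)]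
          omega) h1 h2 h4 h5
      exact ⟨πA'', πB'', sA'', sB'', g1, g2, g3, g4, g5, g6.trans h6⟩
    · exact ih πA πB sA sB ∅ (fun x hx hxU => absurd ⟨x, hx, hxU⟩ hex) (by simp) hfin hc hA hB

theorem st_iso_all {c : Perm ℕ} {m p : ℕ → ℤ} {s : ℕ} (U : Finset ℕ)
    (hU : ∀ x, x ∉ U → c x = x ∧ m x = 0 ∧ p x = 0) (h : St c m p s) :
    ∃ (πA πB : Perm ℕ) (sA sB : ℕ), (∀ x, x ∉ U → πA x = x) ∧ (∀ x, x ∉ U → πB x = x) ∧
      πA * πB = c ∧ RkLe (tA πA m) sA ∧ RkLe (tB πB p) sB ∧ sA + sB ≤ s := by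
  obtain ⟨πA, πB, sA, sB, h1, h2, h3, h4, h5⟩ := h
  obtain ⟨πA', πB', sA', sB', g1, g2, g3, g4, g5, g6⟩ := iso_aux U hU _ πA πB sA sB h1.toFinset
    (fun x hx _ => by simpa using hx) le_rfl h1 h2 h3 h4
  exact ⟨πA', πB', sA', sB', g1, g2, g3, g4, g5, g6.trans h5⟩

end Pool.Agent.Lib.MP_3d915a_al
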