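import Pool.Agent.Lib.MP_3d915a_al.SCL.State
import Pool.Agent.Lib.MP_3d915a_al.SCL.FPerm

/-!
Module SCL-Words: moves for `GS ws t` (a family of words, lists of pairs of exponents, has a surface with `-χ ≤ t`).

Recall: `PS ws s` = there are disjoint lists of names `ls` (in `ℕ`) with labels `m, p` giving `ws`, all other labels `0`, and `St (∏ formPerm) m p s`; `GS ws t` = `PS ws s` for some `s ≤ t + (number of pairs)`.
`gs_triv`: take a name `x ∉ ls.flatten`, `ls' = [x] :: ls` (`formPerm [x] = 1`), the same `s`, one pair more.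
`gs_perm`: `ls` is permuted in the same way (`List.Perm` of a `map`: `List.Perm` induction, or choose `ls'` with `ls.Perm ls'` and `ls'.map _ = ws'`), `fps_perm`.
`gs_rot`: the first list is `l₁ ++ l₂`; `formPerm (l₂ ++ l₁) = formPerm (l₁ ++ l₂)` (`List.formPerm_eq_of_isRotated`).
`gs_split`, `gs_merge`: `fp_append`: with `f = formPerm l₁`, `formPerm (l₁ ++ l₂) * rest = swap (f u) (f v) * (formPerm l₁ * formPerm l₂ * rest)`; `st_swap`.
`gs_A`: `→`: the first list is `j :: i :: l`, labels `m j = x`, `p j = 0`, `m i = y`, `p i = q`. `c = swap j i * formPerm (i :: l) * rest`, `c j = i` (`rest j = j`, `formPerm (i :: l) j = j`).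
  `st_absA`: `swap j i * c = formPerm (i :: l) * rest`, new label `m i = y + x`, `m j = 0`. New lists: `(i :: l) :: rest lists` with the updated labels; `s` and the number of pairs both drop by one
  (if `s = 0`: `c j ≠ j` is impossible for `St c m p 0`; or use `st_mono` to write `s = s' + 1`: `t + N ≥ s`; treat `s = 0` by replacing `s` by `1`? no: show `1 ≤ s` from `rk_posA/B`: `πA πB = c ≠ 1` so one of
  `πA`, `πB` moves a point). `←`: first list `i :: l`, choose a fresh name `j`, labels `m j := x`, `m i := y`, `p j = 0`.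
`gs_B`: the same with the second element: the first list is `h :: j :: l`, `m j = 0`, `p h = q`, `p j = r`; `c j ≠ j`, `c⁻¹ j = h` (`formPerm (h :: j :: l) h = j`), `fp_second`, `st_absB`.
-/

namespace Pool.Agent.Lib.MP_3d915a_al

open Equiv List

private lemma wo_fresh (ls : List (List ℕ)) : ∃ x : ℕ, x ∉ ls.flatten := by
  obtain ⟨x, hx⟩ := Infinite.exists_notMem_finset ls.flatten.toFinset
  exact ⟨x, fun h => hx (List.mem_toFinset.2 h)⟩

private lemma wo_perm_map {α β : Type*} {f : α → β} {w w' : List β} (h : w.Perm w') :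
    ∀ l : List α, l.map f = w → ∃ l' : List α, l.Perm l' ∧ l'.map f = w' := by
  induction h with
  | nil =>
    intro l hl
    exact ⟨l, List.Perm.refl _, hl⟩
  | cons a _ ih =>
    intro l hl
    obtain ⟨b, l1, rfl, rfl, hl1⟩ := List.map_eq_cons_iff.1 hl
    obtain ⟨l', hp, hl'⟩ := ih l1 hl1
    exact ⟨b :: l', hp.cons b, by rw [List.map_cons, hl']⟩
  | swap a b l0 =>
    intro l hl
    obtain ⟨c, l1, rfl, rfl, hl1⟩ := List.map_eq_cons_iff.1 hl
    obtain ⟨d, l2, rfl, rfl, hl2⟩ := List.map_eq_cons_iff.1 hl1
    exact ⟨d :: c :: l2, List.Perm.swap _ _ _, by rw [List.map_cons, List.map_cons, hl2]⟩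
  | trans _ _ ih1 ih2 =>
    intro l hl
    obtain ⟨l1, hp1, hl1⟩ := ih1 l hl
    obtain ⟨l2, hp2, hl2⟩ := ih2 l1 hl1
    exact ⟨l2, hp1.trans hp2, hl2⟩

private lemma wo_shape {ls : List (List ℕ)} {m p : ℕ → ℤ} {w : List (ℤ × ℤ)}
    {ws : List (List (ℤ × ℤ))} (h : Rep ls m p (w :: ws)) :
    ∃ l0 ls0, ls = l0 :: ls0 ∧ l0.map (fun x => (m x, p x)) = w ∧
      ls0.map (List.map (fun x => (m x, p x))) = ws := by
  obtain ⟨l0, ls0, h1, h2, h3⟩ := List.map_eq_cons_iff.1 h.lab
  exact ⟨l0, ls0, h1, h2, h3⟩

private lemma wo_pos {c : Perm ℕ} {m p : ℕ → ℤ} {s j : ℕ} (h : St c m p s) (hc : c j ≠ j) :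
    1 ≤ s := by
  obtain ⟨πA, πB, sA, sB, -, hAB, hA, hB, hs⟩ := h
  by_cases hj : πB j = j
  · have h1 : πA j ≠ j := by
      intro h2
      apply hc
      rw [← hAB, Perm.mul_apply, hj, h2]
    have := rk_posA h1 hA
    omega
  · have := rk_posB hj hB
    omega

theorem gs_mono {ws : List (List (ℤ × ℤ))} {t t' : ℤ} (h : GS ws t) (ht : t ≤ t') : GS ws t' := by
  obtain ⟨s, h1, h2⟩ := h
  exact ⟨s, h1, by linarith⟩

theorem gs_nil : GS [] 0 := by
  refine ⟨0, ⟨[], fun _ => 0, fun _ => 0, ⟨?_, ?_, ?_⟩, ?_⟩, by simp⟩
  · simp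
  · simp
  · intro x _
    exact ⟨rfl, rfl⟩
  · simpa using st_zero (fun _ => 0) (fun _ => 0) (fun _ => rfl) (fun _ => rfl)

theorem gs_triv {ws : List (List (ℤ × ℤ))} {t : ℤ} (h : GS ws t) :
    GS ([(0, 0)] :: ws) (t - 1) := by
  obtain ⟨s, ⟨ls, m, p, hr, hst⟩, hs⟩ := h
  obtain ⟨x, hx⟩ := wo_fresh ls
  obtain ⟨hm, hp⟩ := hr.out x hx
  refine ⟨s, ⟨[x] :: ls, m, p, ⟨?_, ?_, ?_⟩, ?_⟩, ?_⟩
  · rw [List.flatten_cons, List.singleton_append, List.nodup_cons]
    exact ⟨hx, hr.nodup⟩
  · rw [List.map_cons, hr.lab, List.map_cons, hm, hp, List.map_nil]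
  · intro y hy
    apply hr.out
    intro h1
    apply hy
    rw [List.flatten_cons]
    exact List.mem_append_right _ h1
  · rw [List.map_cons, List.prod_cons, List.formPerm_singleton, one_mul]
    exact hst
  · rw [List.flatten_cons, List.length_append]
    push_cast
    simp only [List.length_singleton, Nat.cast_one]
    linarith

theorem gs_perm {ws ws' : List (List (ℤ × ℤ))} {t : ℤ} (h : GS ws t) (hp : ws.Perm ws') :
    GS ws' t := by
  obtain ⟨s, ⟨ls, m, p, hr, hst⟩, hs⟩ := h
  obtain ⟨ls', hpl, hls'⟩ := wo_perm_map hp ls hr.lab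
  have hfl : ls.flatten.Perm ls'.flatten := hpl.flatten
  refine ⟨s, ⟨ls', m, p, ⟨?_, hls', ?_⟩, ?_⟩, ?_⟩
  · exact hfl.nodup_iff.1 hr.nodup
  · intro x hx
    exact hr.out x (fun h1 => hx (hfl.mem_iff.1 h1))
  · rw [← fps_perm hpl hr.nodup]
    exact hst
  · rw [← hp.flatten.length_eq]
    exact hs

theorem gs_rot {u v : List (ℤ × ℤ)} {ws : List (List (ℤ × ℤ))} {t : ℤ}
    (h : GS ((u ++ v) :: ws) t) : GS ((v ++ u) :: ws) t := by
  obtain ⟨s, ⟨ls, m, p, hr, hst⟩, hs⟩ := h
  obtain ⟨l0, ls0, rfl, hl0, hls0⟩ := wo_shape hr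
  obtain ⟨l1, l2, rfl, hl1, hl2⟩ := List.map_eq_append_iff.1 hl0
  have hpf : ((l1 ++ l2) :: ls0).flatten.Perm ((l2 ++ l1) :: ls0).flatten := by
    rw [List.flatten_cons, List.flatten_cons]
    exact (List.perm_append_comm).append_right _
  have hnd : (l1 ++ l2).Nodup := by
    have := hr.nodup
    rw [List.flatten_cons, List.nodup_append] at this
    exact this.1
  refine ⟨s, ⟨(l2 ++ l1) :: ls0, m, p, ⟨?_, ?_, ?_⟩, ?_⟩, ?_⟩
  · exact hpf.nodup_iff.1 hr.nodup
  · rw [List.map_cons, List.map_append, hl1, hl2, hls0]
  · intro x hx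
    exact hr.out x (fun h1 => hx (hpf.mem_iff.1 h1))
  · have h1 : (l1 ++ l2).formPerm = (l2 ++ l1).formPerm :=
      List.formPerm_eq_of_isRotated hnd List.isRotated_append
    rw [List.map_cons, List.prod_cons] at hst ⊢
    rw [← h1]
    exact hst
  · rw [List.flatten_cons, List.length_append, List.length_append] at hs ⊢
    push_cast at hs ⊢
    linarith

theorem gs_split {u v : List (ℤ × ℤ)} {ws : List (List (ℤ × ℤ))} {t : ℤ} (hu : u ≠ [])
    (hv : v ≠ []) (h : GS ((u ++ v) :: ws) t) : GS (u :: v :: ws) (t + 1) := by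
  obtain ⟨s, ⟨ls, m, p, hr, hst⟩, hs⟩ := h
  obtain ⟨l0, ls0, rfl, hl0, hls0⟩ := wo_shape hr
  obtain ⟨l1, l2, rfl, hl1, hl2⟩ := List.map_eq_append_iff.1 hl0
  have h1 : l1 ≠ [] := by
    rintro rfl
    exact hu hl1.symm
  have h2 : l2 ≠ [] := by
    rintro rfl
    exact hv hl2.symm
  have hfl : (l1 :: l2 :: ls0).flatten = ((l1 ++ l2) :: ls0).flatten := by
    simp [List.flatten_cons, List.append_assoc]
  refine ⟨s + 1, ⟨l1 :: l2 :: ls0, m, p, ⟨?_, ?_, ?_⟩, ?_⟩, ?_⟩
  · rw [hfl]; exact hr.nodup
  · rw [List.map_cons, List.map_cons, hl1, hl2, hls0]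
  · rw [hfl]; exact hr.out
  · have h3 := st_swap (l1.formPerm (l1.getLast h1)) (l1.formPerm (l2.head h2)) hst
    have h4 : ((l1 :: l2 :: ls0).map List.formPerm).prod =
        swap (l1.formPerm (l1.getLast h1)) (l1.formPerm (l2.head h2)) *
          (((l1 ++ l2) :: ls0).map List.formPerm).prod := by
      rw [List.map_cons, List.prod_cons, List.map_cons, List.prod_cons, List.map_cons,
        List.prod_cons, fp_append l1 l2 h1 h2, Equiv.mul_swap_eq_swap_mul]
      simp only [← mul_assoc, Equiv.swap_mul_self, one_mul]
    rw [h4]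
    exact h3
  · rw [List.flatten_cons, List.flatten_cons, List.length_append, List.length_append]
    rw [List.flatten_cons, List.length_append, List.length_append] at hs
    push_cast at hs ⊢
    linarith

theorem gs_merge {u v : List (ℤ × ℤ)} {ws : List (List (ℤ × ℤ))} {t : ℤ} (hu : u ≠ [])
    (hv : v ≠ []) (h : GS (u :: v :: ws) t) : GS ((u ++ v) :: ws) (t + 1) := by
  obtain ⟨s, ⟨ls, m, p, hr, hst⟩, hs⟩ := h
  obtain ⟨l1, ls1, rfl, hl1, hls1⟩ := wo_shape hr
  obtain ⟨l2, ls0, rfl, hl2, hls0⟩ := List.map_eq_cons_iff.1 hls1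
  have h1 : l1 ≠ [] := by
    rintro rfl
    exact hu hl1.symm
  have h2 : l2 ≠ [] := by
    rintro rfl
    exact hv hl2.symm
  have hfl : (l1 :: l2 :: ls0).flatten = ((l1 ++ l2) :: ls0).flatten := by
    simp [List.flatten_cons, List.append_assoc]
  refine ⟨s + 1, ⟨(l1 ++ l2) :: ls0, m, p, ⟨?_, ?_, ?_⟩, ?_⟩, ?_⟩
  · rw [← hfl]; exact hr.nodup
  · rw [List.map_cons, List.map_append, hl1, hl2, hls0]
  · rw [← hfl]; exact hr.out
  · have h3 := st_swap (l1.formPerm (l1.getLast h1)) (l1.formPerm (l2.head h2)) hst
    have h4 : (((l1 ++ l2) :: ls0).map List.formPerm).prod =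
        swap (l1.formPerm (l1.getLast h1)) (l1.formPerm (l2.head h2)) *
          ((l1 :: l2 :: ls0).map List.formPerm).prod := by
      rw [List.map_cons, List.prod_cons, List.map_cons, List.prod_cons, List.map_cons,
        List.prod_cons, fp_append l1 l2 h1 h2, Equiv.mul_swap_eq_swap_mul]
      simp only [← mul_assoc]
    rw [h4]
    exact h3
  · rw [List.flatten_cons, List.length_append, List.length_append]
    rw [List.flatten_cons, List.flatten_cons, List.length_append, List.length_append] at hs
    push_cast at hs ⊢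
    linarith

private lemma wo_cj {j i : ℕ} {l : List ℕ} {ls0 : List (List ℕ)}
    (hnd : ((j :: i :: l) :: ls0).flatten.Nodup) :
    (((j :: i :: l) :: ls0).map List.formPerm).prod j = i ∧
      swap j i * (((j :: i :: l) :: ls0).map List.formPerm).prod =
        (((i :: l) :: ls0).map List.formPerm).prod := by
  rw [List.flatten_cons, List.nodup_append] at hnd
  obtain ⟨h1, -, h3⟩ := hnd
  have hj0 : j ∉ ls0.flatten := fun h => h3 j (by simp) j h rfl
  constructor
  · rw [List.map_cons, List.prod_cons, Perm.mul_apply, fps_apply_notMem ls0 j hj0]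
    exact List.formPerm_apply_head j i l h1
  · rw [List.map_cons, List.prod_cons, List.map_cons, List.prod_cons, List.formPerm_cons_cons]
    simp only [← mul_assoc, Equiv.swap_mul_self, one_mul]

private lemma wo_cj2 {h j : ℕ} {l : List ℕ} {ls0 : List (List ℕ)}
    (hnd : ((h :: j :: l) :: ls0).flatten.Nodup) :
    (((h :: j :: l) :: ls0).map List.formPerm).prod j ≠ j ∧
      (((h :: j :: l) :: ls0).map List.formPerm).prod⁻¹ j = h ∧
      swap j ((((h :: j :: l) :: ls0).map List.formPerm).prod j) *
        (((h :: j :: l) :: ls0).map List.formPerm).prod =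
        (((h :: l) :: ls0).map List.formPerm).prod := by
  rw [List.flatten_cons, List.nodup_append] at hnd
  obtain ⟨h1, -, h3⟩ := hnd
  have hj0 : j ∉ ls0.flatten := fun h => h3 j (by simp) j h rfl
  have hh0 : h ∉ ls0.flatten := fun h' => h3 h (by simp) h h' rfl
  have e1 : (((h :: j :: l) :: ls0).map List.formPerm).prod j = (h :: j :: l).formPerm j := by
    rw [List.map_cons, List.prod_cons, Perm.mul_apply, fps_apply_notMem ls0 j hj0]
  refine ⟨?_, ?_, ?_⟩
  · rw [e1]
    exact (List.formPerm_apply_mem_ne_self_iff _ h1 j (by simp)).2 (by simp)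
  · rw [Perm.inv_eq_iff_eq, List.map_cons, List.prod_cons, Perm.mul_apply,
      fps_apply_notMem ls0 h hh0]
    exact (List.formPerm_apply_head h j l h1).symm
  · rw [e1, List.map_cons, List.prod_cons, List.map_cons, List.prod_cons, ← mul_assoc,
      ← fp_second h j l h1]

theorem gs_A {x y q : ℤ} {u : List (ℤ × ℤ)} {ws : List (List (ℤ × ℤ))} {t : ℤ} :
    GS (((x, 0) :: (y, q) :: u) :: ws) t ↔ GS (((x + y, q) :: u) :: ws) t := by
  constructor
  · rintro ⟨s, ⟨ls, m, p, hr, hst⟩, hs⟩
    obtain ⟨l0, ls0, rfl, hl0, hls0⟩ := wo_shape hr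
    obtain ⟨j, l1, rfl, hj, hl1⟩ := List.map_eq_cons_iff.1 hl0
    obtain ⟨i, l, rfl, hi, hl⟩ := List.map_eq_cons_iff.1 hl1
    obtain ⟨hmj, hpj⟩ := Prod.mk.inj hj
    obtain ⟨hmi, hpi⟩ := Prod.mk.inj hi
    have hnd := hr.nodup
    obtain ⟨hcj, hcm⟩ := wo_cj hnd
    have hnd' := hnd
    rw [List.flatten_cons, List.cons_append, List.cons_append, List.nodup_cons,
      List.nodup_cons] at hnd'
    obtain ⟨hj1, hi1, hlnd⟩ := hnd'
    have hji : i ≠ j := by
      rintro rfl
      exact hj1 (by simp)
    have hc : (((j :: i :: l) :: ls0).map List.formPerm).prod j ≠ j := by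
      rw [hcj]; exact hji
    have hs1 := wo_pos hst hc
    obtain ⟨s', rfl⟩ : ∃ s', s = s' + 1 := ⟨s - 1, by omega⟩
    rw [st_absA hpj hc, hcj, hcm] at hst
    have hmz : ∀ z, z ≠ i → z ≠ j →
        Function.update (Function.update m i (m i + m j)) j 0 z = m z := by
      intro z h1 h2
      rw [Function.update_of_ne h2, Function.update_of_ne h1]
    refine ⟨s', ⟨(i :: l) :: ls0, _, p, ⟨?_, ?_, ?_⟩, hst⟩, ?_⟩
    · rw [List.flatten_cons, List.cons_append, List.nodup_cons]
      exact ⟨hi1, hlnd⟩
    · rw [List.map_cons, List.map_cons]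
      congr 1
      · congr 1
        · rw [Function.update_of_ne hji, Function.update_self, hmi, hmj, hpi, add_comm]
        · rw [← hl]
          apply List.map_congr_left
          intro z hz
          rw [hmz z]
          · rintro rfl
            exact hi1 (List.mem_append_left _ hz)
          · rintro rfl
            exact hj1 (List.mem_cons_of_mem _ (List.mem_append_left _ hz))
      · rw [← hls0]
        apply List.map_congr_left
        intro l' hl'
        apply List.map_congr_left
        intro z hz
        have hz' : z ∈ ls0.flatten := List.mem_flatten.2 ⟨l', hl', hz⟩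
        rw [hmz z]
        · rintro rfl
          exact hi1 (List.mem_append_right _ hz')
        · rintro rfl
          exact hj1 (List.mem_cons_of_mem _ (List.mem_append_right _ hz'))
    · intro z hz
      rw [List.flatten_cons, List.cons_append, List.mem_cons, not_or] at hz
      by_cases hzj : z = j
      · subst hzj
        exact ⟨by rw [Function.update_self], hpj⟩
      · rw [hmz z hz.1 hzj]
        apply hr.out
        rw [List.flatten_cons, List.cons_append, List.cons_append, List.mem_cons, List.mem_cons]
        tauto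
    · rw [List.flatten_cons, List.length_append, List.length_cons] at hs ⊢
      rw [List.length_cons] at hs
      push_cast at hs ⊢
      linarith
  · rintro ⟨s, ⟨ls, m, p, hr, hst⟩, hs⟩
    obtain ⟨l0, ls0, rfl, hl0, hls0⟩ := wo_shape hr
    obtain ⟨i, l, rfl, hi, hl⟩ := List.map_eq_cons_iff.1 hl0
    obtain ⟨hmi, hpi⟩ := Prod.mk.inj hi
    obtain ⟨j, hjf⟩ := wo_fresh ((i :: l) :: ls0)
    obtain ⟨hmj, hpj⟩ := hr.out j hjf
    have hnd : ((j :: i :: l) :: ls0).flatten.Nodup := by
      rw [List.flatten_cons, List.cons_append, List.nodup_cons]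
      exact ⟨hjf, hr.nodup⟩
    obtain ⟨hcj, hcm⟩ := wo_cj hnd
    have hi1 : i ∉ l ++ ls0.flatten := by
      have := hr.nodup
      rw [List.flatten_cons, List.cons_append, List.nodup_cons] at this
      exact this.1
    rw [List.flatten_cons, List.cons_append, List.mem_cons, not_or] at hjf
    have hji : i ≠ j := fun h => hjf.1 h.symm
    have hc : (((j :: i :: l) :: ls0).map List.formPerm).prod j ≠ j := by
      rw [hcj]; exact hji
    have hmz : ∀ z, z ≠ i → z ≠ j → Function.update (Function.update m i y) j x z = m z := by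
      intro z h1 h2
      rw [Function.update_of_ne h2, Function.update_of_ne h1]
    have hmm : Function.update (Function.update (Function.update (Function.update m i y) j x) i
        (Function.update (Function.update m i y) j x i +
          Function.update (Function.update m i y) j x j)) j 0 = m := by
      funext z
      by_cases hzj : z = j
      · subst hzj
        rw [Function.update_self, hmj]
      · rw [Function.update_of_ne hzj]
        by_cases hzi : z = i
        · subst hzi
          rw [Function.update_self, Function.update_self, Function.update_of_ne hji,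
            Function.update_self, hmi, add_comm]
        · rw [Function.update_of_ne hzi, hmz z hzi hzj]
    have hst' : St ((((j :: i :: l) :: ls0).map List.formPerm).prod)
        (Function.update (Function.update m i y) j x) p (s + 1) := by
      rw [st_absA hpj hc, hcj, hcm, hmm]
      exact hst
    refine ⟨s + 1, ⟨(j :: i :: l) :: ls0, _, p, ⟨hnd, ?_, ?_⟩, hst'⟩, ?_⟩
    · rw [List.map_cons, List.map_cons, List.map_cons]
      congr 1
      · congr 1
        · rw [Function.update_self, hpj]
        · congr 1
          · rw [Function.update_of_ne hji, Function.update_self, hpi]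
          · rw [← hl]
            apply List.map_congr_left
            intro z hz
            rw [hmz z]
            · rintro rfl
              exact hi1 (List.mem_append_left _ hz)
            · rintro rfl
              exact hjf.2 (List.mem_append_left _ hz)
      · rw [← hls0]
        apply List.map_congr_left
        intro l' hl'
        apply List.map_congr_left
        intro z hz
        have hz' : z ∈ ls0.flatten := List.mem_flatten.2 ⟨l', hl', hz⟩
        rw [hmz z]
        · rintro rfl
          exact hi1 (List.mem_append_right _ hz')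
        · rintro rfl
          exact hjf.2 (List.mem_append_right _ hz')
    · intro z hz
      rw [List.flatten_cons, List.cons_append, List.cons_append, List.mem_cons, List.mem_cons,
        not_or, not_or] at hz
      rw [hmz z hz.2.1 hz.1]
      apply hr.out
      rw [List.flatten_cons, List.cons_append, List.mem_cons]
      tauto
    · rw [List.flatten_cons, List.length_append, List.length_cons] at hs ⊢
      rw [List.length_cons]
      push_cast at hs ⊢
      linarith

theorem gs_B {x q r : ℤ} {u : List (ℤ × ℤ)} {ws : List (List (ℤ × ℤ))} {t : ℤ} :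
    GS (((x, q) :: (0, r) :: u) :: ws) t ↔ GS (((x, q + r) :: u) :: ws) t := by
  constructor
  · rintro ⟨s, ⟨ls, m, p, hr, hst⟩, hs⟩
    obtain ⟨l0, ls0, rfl, hl0, hls0⟩ := wo_shape hr
    obtain ⟨h, l1, rfl, hh, hl1⟩ := List.map_eq_cons_iff.1 hl0
    obtain ⟨j, l, rfl, hj, hl⟩ := List.map_eq_cons_iff.1 hl1
    obtain ⟨hmh, hph⟩ := Prod.mk.inj hh
    obtain ⟨hmj, hpj⟩ := Prod.mk.inj hj
    have hnd := hr.nodup
    obtain ⟨hc, hcj, hcm⟩ := wo_cj2 hnd
    have hnd' := hnd
    rw [List.flatten_cons, List.cons_append, List.cons_append, List.nodup_cons,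
      List.nodup_cons] at hnd'
    obtain ⟨hh1, hj1, hlnd⟩ := hnd'
    have hhj : h ≠ j := by
      rintro rfl
      exact hh1 (by simp)
    have hs1 := wo_pos hst hc
    obtain ⟨s', rfl⟩ : ∃ s', s = s' + 1 := ⟨s - 1, by omega⟩
    rw [st_absB hmj hc, hcj, hcm] at hst
    have hpz : ∀ z, z ≠ h → z ≠ j →
        Function.update (Function.update p h (p h + p j)) j 0 z = p z := by
      intro z h1 h2
      rw [Function.update_of_ne h2, Function.update_of_ne h1]
    refine ⟨s', ⟨(h :: l) :: ls0, m, _, ⟨?_, ?_, ?_⟩, hst⟩, ?_⟩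
    · rw [List.flatten_cons, List.cons_append, List.nodup_cons]
      exact ⟨fun h1 => hh1 (List.mem_cons_of_mem _ h1), hlnd⟩
    · rw [List.map_cons, List.map_cons]
      congr 1
      · congr 1
        · rw [Function.update_of_ne hhj, Function.update_self, hmh, hph, hpj]
        · rw [← hl]
          apply List.map_congr_left
          intro z hz
          rw [hpz z]
          · rintro rfl
            exact hh1 (List.mem_cons_of_mem _ (List.mem_append_left _ hz))
          · rintro rfl
            exact hj1 (List.mem_append_left _ hz)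
      · rw [← hls0]
        apply List.map_congr_left
        intro l' hl'
        apply List.map_congr_left
        intro z hz
        have hz' : z ∈ ls0.flatten := List.mem_flatten.2 ⟨l', hl', hz⟩
        rw [hpz z]
        · rintro rfl
          exact hh1 (List.mem_cons_of_mem _ (List.mem_append_right _ hz'))
        · rintro rfl
          exact hj1 (List.mem_append_right _ hz')
    · intro z hz
      rw [List.flatten_cons, List.cons_append, List.mem_cons, not_or] at hz
      by_cases hzj : z = j
      · subst hzj
        exact ⟨hmj, by rw [Function.update_self]⟩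
      · rw [hpz z hz.1 hzj]
        apply hr.out
        rw [List.flatten_cons, List.cons_append, List.cons_append, List.mem_cons, List.mem_cons]
        tauto
    · rw [List.flatten_cons, List.length_append, List.length_cons] at hs ⊢
      rw [List.length_cons] at hs
      push_cast at hs ⊢
      linarith
  · rintro ⟨s, ⟨ls, m, p, hr, hst⟩, hs⟩
    obtain ⟨l0, ls0, rfl, hl0, hls0⟩ := wo_shape hr
    obtain ⟨h, l, rfl, hh, hl⟩ := List.map_eq_cons_iff.1 hl0
    obtain ⟨hmh, hph⟩ := Prod.mk.inj hh
    obtain ⟨j, hjf⟩ := wo_fresh ((h :: l) :: ls0)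
    obtain ⟨hmj, hpj⟩ := hr.out j hjf
    have hh1 : h ∉ l ++ ls0.flatten := by
      have := hr.nodup
      rw [List.flatten_cons, List.cons_append, List.nodup_cons] at this
      exact this.1
    have hlnd : (l ++ ls0.flatten).Nodup := by
      have := hr.nodup
      rw [List.flatten_cons, List.cons_append, List.nodup_cons] at this
      exact this.2
    rw [List.flatten_cons, List.cons_append, List.mem_cons, not_or] at hjf
    have hhj : h ≠ j := fun h' => hjf.1 h'.symm
    have hnd : ((h :: j :: l) :: ls0).flatten.Nodup := by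
      rw [List.flatten_cons, List.cons_append, List.cons_append, List.nodup_cons,
        List.nodup_cons, List.mem_cons, not_or]
      exact ⟨⟨hhj, hh1⟩, hjf.2, hlnd⟩
    obtain ⟨hc, hcj, hcm⟩ := wo_cj2 hnd
    have hpz : ∀ z, z ≠ h → z ≠ j → Function.update (Function.update p h q) j r z = p z := by
      intro z h1 h2
      rw [Function.update_of_ne h2, Function.update_of_ne h1]
    have hpp : Function.update (Function.update (Function.update (Function.update p h q) j r) h
        (Function.update (Function.update p h q) j r h +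
          Function.update (Function.update p h q) j r j)) j 0 = p := by
      funext z
      by_cases hzj : z = j
      · subst hzj
        rw [Function.update_self, hpj]
      · rw [Function.update_of_ne hzj]
        by_cases hzi : z = h
        · subst hzi
          rw [Function.update_self, Function.update_self, Function.update_of_ne hhj,
            Function.update_self, hph]
        · rw [Function.update_of_ne hzi, hpz z hzi hzj]
    have hst' : St ((((h :: j :: l) :: ls0).map List.formPerm).prod) m
        (Function.update (Function.update p h q) j r) (s + 1) := by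
      rw [st_absB hmj hc, hcj, hcm, hpp]
      exact hst
    refine ⟨s + 1, ⟨(h :: j :: l) :: ls0, m, _, ⟨hnd, ?_, ?_⟩, hst'⟩, ?_⟩
    · rw [List.map_cons, List.map_cons, List.map_cons]
      congr 1
      · congr 1
        · rw [Function.update_of_ne hhj, Function.update_self, hmh]
        · congr 1
          · rw [Function.update_self, hmj]
          · rw [← hl]
            apply List.map_congr_left
            intro z hz
            rw [hpz z]
            · rintro rfl
              exact hh1 (List.mem_append_left _ hz)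
            · rintro rfl
              exact hjf.2 (List.mem_append_left _ hz)
      · rw [← hls0]
        apply List.map_congr_left
        intro l' hl'
        apply List.map_congr_left
        intro z hz
        have hz' : z ∈ ls0.flatten := List.mem_flatten.2 ⟨l', hl', hz⟩
        rw [hpz z]
        · rintro rfl
          exact hh1 (List.mem_append_right _ hz')
        · rintro rfl
          exact hjf.2 (List.mem_append_right _ hz')
    · intro z hz
      rw [List.flatten_cons, List.cons_append, List.cons_append, List.mem_cons, List.mem_cons,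
        not_or, not_or] at hz
      rw [hpz z hz.1 hz.2.1]
      apply hr.out
      rw [List.flatten_cons, List.cons_append, List.mem_cons]
      tauto
    · rw [List.flatten_cons, List.length_append, List.length_cons] at hs ⊢
      rw [List.length_cons]
      push_cast at hs ⊢
      linarith

end Pool.Agent.Lib.MP_3d915a_al
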